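import Pool.Agent.H82.NS.Def

/-! # [H82 NS INT] integers and `Q0 H` (elementary lemmas on `ZS` and `Q0 H`)

`zs_small`: if `z = cl (a N)`, `a N ∈ ℤ`, `|z| ≤ r = cl (r N)`, `r` Small: for almost all `N`: `|a N| ≤ |r N| ≤ |num (r N)| ≤ (H N + 2) ^ C`.
`zs_intcl`: `z ∈ QS` root of a monic polynomial with coefficients in `ZS`: representatives; for almost all `N` the rational number `z N` is a
root of a monic polynomial with integer coefficients, so an integer (`isInteger_of_is_root_of_monic` or `IsIntegrallyClosed ℤ`).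
`int_small`: `g` is a root of a monic polynomial with coefficients in `Q0 H [x]`; let `δ` be the product of the denominators of all
coefficients (an element of `ZS`, in `Q0 H`, not zero); multiply the equation of degree `m` by `δ ^ m`: `δ g` is a root of a monic polynomial
with coefficients in `ZS` (as `x ∈ ZS`). `zs_big`: an element of `ZS` not in `Q0 H` is not bounded by an element of `Q0 H` (zs_small). -/

namespace Pool.Agent.H82.NS

open Filter IntermediateField

/-- `cl` as a ring homomorphism -/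
noncomputable def clHom (R : Type*) [CommRing R] : (ℕ → R) →+* Ult R where
  toFun := cl
  map_one' := rfl
  map_zero' := rfl
  map_mul' := fun _ _ => rfl
  map_add' := fun _ _ => rfl

theorem clHom_apply {R : Type*} [CommRing R] (f : ℕ → R) : clHom R f = cl f := rfl

theorem mem_zs {z : QS} : z ∈ ZS ↔ ∃ a : ℕ → ℤ, z = cl (fun N => (a N : ℚ)) := by
  constructor
  · rintro ⟨w, rfl⟩
    obtain ⟨a, rfl⟩ := cl_surj w
    exact ⟨a, rfl⟩
  · rintro ⟨a, rfl⟩
    exact ⟨cl a, rfl⟩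

theorem zs_small (H : ℕ → ℕ) (z r : QS) (hz : z ∈ ZS) (hr : r ∈ Q0 H) (h : |z| ≤ r) : z ∈ Q0 H := by
  obtain ⟨a, rfl⟩ := mem_zs.mp hz
  obtain ⟨f, ⟨C, hC⟩, rfl⟩ := hr
  rw [abs_le, cl_neg, cl_le, cl_le] at h
  obtain ⟨h1, h2⟩ := h
  classical
  refine ⟨fun N => if |(a N : ℚ)| ≤ f N then (a N : ℚ) else 0, ⟨C, fun N => ?_⟩, ?_⟩
  · show ((if |(a N : ℚ)| ≤ f N then (a N : ℚ) else 0).num.natAbs ≤ _) ∧
      ((if |(a N : ℚ)| ≤ f N then (a N : ℚ) else 0).den ≤ _)
    have hp : 1 ≤ (H N + 2) ^ C := Nat.one_le_pow _ _ (by omega)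
    split_ifs with h3
    · refine ⟨?_, by simpa using hp⟩
      rw [Rat.num_intCast]
      refine le_trans ?_ (hC N).1
      have h4 : f N ≤ ((f N).num.natAbs : ℚ) := by
        have h5 : f N = (f N).num / (f N).den := (Rat.num_div_den (f N)).symm
        have h6 : (1 : ℚ) ≤ (f N).den := by exact_mod_cast (f N).den_pos
        have h7 : ((f N).num : ℚ) ≤ ((f N).num.natAbs : ℚ) := by
          rw [Nat.cast_natAbs, Int.cast_abs]
          exact le_abs_self _
        have h8 : (0 : ℚ) ≤ ((f N).num.natAbs : ℚ) := by positivity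
        calc f N = (f N).num / (f N).den := h5
          _ ≤ ((f N).num.natAbs : ℚ) / (f N).den := by
              apply div_le_div_of_nonneg_right h7; positivity
          _ ≤ ((f N).num.natAbs : ℚ) / 1 := by
              apply div_le_div_of_nonneg_left h8 (by norm_num) h6
          _ = _ := by rw [div_one]
      have h9 : |(a N : ℚ)| ≤ ((f N).num.natAbs : ℚ) := h3.trans h4
      have h10 : (((a N).natAbs : ℕ) : ℚ) = |(a N : ℚ)| := by
        rw [Nat.cast_natAbs, Int.cast_abs]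
      rw [← h10] at h9
      exact_mod_cast h9
    · exact ⟨by simp, by simpa using hp⟩
  · rw [cl_eq]
    filter_upwards [h1, h2] with N h3 h4
    rw [if_pos (abs_le.mpr ⟨h3, h4⟩)]

theorem zs_big (H : ℕ → ℕ) (z : QS) (hz : z ∈ ZS) (h : z ∉ Q0 H) : z ∉ V0 H := by
  rintro ⟨r, hr, hzr⟩
  exact h (zs_small H z r hz hr hzr)

theorem zs_intcl (z : QS) (hz : IsIntegral ZS z) : z ∈ ZS := by
  obtain ⟨p, hp, hpz⟩ := hz
  obtain ⟨f, rfl⟩ := cl_surj z
  have hc : ∀ i, ∃ a : ℕ → ℤ, ((p.coeff i : ZS) : QS) = cl (fun N => (a N : ℚ)) := fun i =>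
    mem_zs.mp (p.coeff i).2
  choose a ha using hc
  have h1 : cl (fun N => ∑ i ∈ Finset.range (p.natDegree + 1), (a i N : ℚ) * f N ^ i) = cl (fun _ => (0 : ℚ)) := by
    have h2 : (fun N => ∑ i ∈ Finset.range (p.natDegree + 1), (a i N : ℚ) * f N ^ i)
        = ∑ i ∈ Finset.range (p.natDegree + 1), (fun N => (a i N : ℚ)) * f ^ i := by
      funext N
      simp [Finset.sum_apply]
    rw [h2, ← clHom_apply, map_sum]
    have h3 : ∀ i, clHom ℚ ((fun N => (a i N : ℚ)) * f ^ i) = algebraMap ZS QS (p.coeff i) * (cl f) ^ i := by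
      intro i
      rw [map_mul, map_pow, clHom_apply, clHom_apply, ← ha i]
      rfl
    simp_rw [h3]
    rw [← Polynomial.eval₂_eq_sum_range, hpz]
    rfl
  have hlead : ∀ᶠ N in UU, (a p.natDegree N : ℚ) = 1 := by
    have h4 := ha p.natDegree
    rw [Polynomial.coeff_natDegree, hp.leadingCoeff] at h4
    have h5 : cl (fun _ => (1 : ℚ)) = cl (fun N => (a p.natDegree N : ℚ)) := h4
    rw [cl_eq] at h5
    filter_upwards [h5] with N hN
    exact hN.symm
  rw [cl_eq] at h1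
  have hint : ∀ᶠ N in UU, ∃ m : ℤ, f N = (m : ℚ) := by
    filter_upwards [h1, hlead] with N hN hN1
    have h6 : IsIntegral ℤ (f N) := by
      refine ⟨Polynomial.X ^ p.natDegree + ∑ i ∈ Finset.range p.natDegree, Polynomial.C (a i N) * Polynomial.X ^ i, ?_, ?_⟩
      · apply Polynomial.monic_X_pow_add
        refine lt_of_le_of_lt (Polynomial.degree_sum_le _ _) ?_
        rw [Finset.sup_lt_iff (WithBot.bot_lt_coe _)]
        intro i hi
        exact lt_of_le_of_lt (Polynomial.degree_C_mul_X_pow_le _ _)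
          (by exact_mod_cast Finset.mem_range.mp hi)
      · rw [Polynomial.eval₂_add, Polynomial.eval₂_X_pow, Polynomial.eval₂_finsetSum]
        rw [Finset.sum_range_succ, hN1, one_mul] at hN
        rw [← hN, add_comm]
        congr 1
        apply Finset.sum_congr rfl
        intro i _
        rw [Polynomial.eval₂_mul, Polynomial.eval₂_C, Polynomial.eval₂_X_pow]
        simp
    obtain ⟨m, hm⟩ := IsIntegrallyClosed.isIntegral_iff.mp h6
    exact ⟨m, by simpa using hm.symm⟩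
  rw [mem_zs]
  classical
  refine ⟨fun N => ⌊f N⌋, ?_⟩
  rw [cl_eq]
  filter_upwards [hint] with N hN
  obtain ⟨m, hm⟩ := hN
  rw [hm, Int.floor_intCast]

/-- elements of `Q0 H [x]`, `x ∈ ZS`, have a denominator -/
theorem exists_den (H : ℕ → ℕ) (x c : QS) (hx : x ∈ ZS) (hc : c ∈ Algebra.adjoin (Q0 H) {x}) :
    ∃ δ : QS, δ ∈ Q0 H ∧ δ ∈ ZS ∧ δ ≠ 0 ∧ δ * c ∈ ZS := by
  induction hc using Algebra.adjoin_induction with
  | mem y hy =>
    rw [Set.mem_singleton_iff] at hy
    subst hy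
    exact ⟨1, (Q0 H).one_mem, ZS.one_mem, one_ne_zero, by rwa [one_mul]⟩
  | algebraMap r =>
    obtain ⟨f, ⟨C, hC⟩, hr⟩ := r.2
    refine ⟨cl (fun N => ((f N).den : ℚ)), ⟨_, ⟨C, fun N => ?_⟩, rfl⟩, ?_, ?_, ?_⟩
    · refine ⟨?_, ?_⟩
      · show ((((f N).den : ℕ) : ℚ)).num.natAbs ≤ _
        rw [Rat.num_natCast, Int.natAbs_natCast]
        exact (hC N).2
      · show ((((f N).den : ℕ) : ℚ)).den ≤ _
        rw [Rat.den_natCast]
        exact Nat.one_le_pow _ _ (by omega)
    · rw [mem_zs]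
      exact ⟨fun N => ((f N).den : ℤ), by simp⟩
    · rw [cl_zero, Ne, cl_eq]
      intro h0
      obtain ⟨N, hN⟩ := h0.exists
      have : (f N).den ≠ 0 := (f N).den_pos.ne'
      exact this (by exact_mod_cast hN)
    · rw [mem_zs]
      refine ⟨fun N => (f N).num, ?_⟩
      show cl (fun N => ((f N).den : ℚ)) * (r : QS) = _
      rw [hr, cl_mul, cl_eq]
      apply Eventually.of_forall
      intro N
      show ((f N).den : ℚ) * f N = (f N).num
      rw [mul_comm, Rat.mul_den_eq_num]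
  | add a b _ _ ha hb =>
    obtain ⟨δ, h1, h2, h3, h4⟩ := ha
    obtain ⟨ε, k1, k2, k3, k4⟩ := hb
    refine ⟨δ * ε, (Q0 H).mul_mem h1 k1, ZS.mul_mem h2 k2, mul_ne_zero h3 k3, ?_⟩
    have : δ * ε * (a + b) = ε * (δ * a) + δ * (ε * b) := by ring
    rw [this]
    exact ZS.add_mem (ZS.mul_mem k2 h4) (ZS.mul_mem h2 k4)
  | mul a b _ _ ha hb =>
    obtain ⟨δ, h1, h2, h3, h4⟩ := ha
    obtain ⟨ε, k1, k2, k3, k4⟩ := hb
    refine ⟨δ * ε, (Q0 H).mul_mem h1 k1, ZS.mul_mem h2 k2, mul_ne_zero h3 k3, ?_⟩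
    have : δ * ε * (a * b) = (δ * a) * (ε * b) := by ring
    rw [this]
    exact ZS.mul_mem h4 k4

theorem int_small (H : ℕ → ℕ) (x g : QS) (hx : x ∈ ZS) (hg : IsIntegral (Algebra.adjoin (Q0 H) {x}) g) :
    ∃ δ : QS, δ ∈ Q0 H ∧ δ ∈ ZS ∧ δ ≠ 0 ∧ δ * g ∈ ZS := by
  obtain ⟨p, hp, hpg⟩ := hg
  have h0 : ∀ i, ∃ δ : QS, δ ∈ Q0 H ∧ δ ∈ ZS ∧ δ ≠ 0 ∧ δ * (p.coeff i : QS) ∈ ZS := fun i =>
    exists_den H x _ hx (p.coeff i).2
  choose d hd1 hd2 hd3 hd4 using h0
  set δ : QS := ∏ i ∈ Finset.range p.natDegree, d i with hδ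
  have hδ1 : δ ∈ Q0 H := (Q0 H).prod_mem fun i _ => hd1 i
  have hδ2 : δ ∈ ZS := ZS.prod_mem fun i _ => hd2 i
  have hδ3 : δ ≠ 0 := Finset.prod_ne_zero_iff.mpr fun i _ => hd3 i
  have hδ4 : ∀ i ∈ Finset.range p.natDegree, δ * (p.coeff i : QS) ∈ ZS := by
    intro i hi
    rw [hδ, ← Finset.mul_prod_erase _ _ hi]
    have : d i * (∏ j ∈ (Finset.range p.natDegree).erase i, d j) * (p.coeff i : QS)
        = (d i * (p.coeff i : QS)) * ∏ j ∈ (Finset.range p.natDegree).erase i, d j := by ring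
    rw [this]
    exact ZS.mul_mem (hd4 i) (ZS.prod_mem fun j _ => hd2 j)
  refine ⟨δ, hδ1, hδ2, hδ3, ?_⟩
  apply zs_intcl
  have hsum : ∑ i ∈ Finset.range (p.natDegree + 1), ((p.coeff i : QS)) * g ^ i = 0 := by
    have := hpg
    rw [Polynomial.eval₂_eq_sum_range] at this
    exact this
  have hlc : ((p.coeff p.natDegree : Algebra.adjoin (Q0 H) {x}) : QS) = 1 := by
    rw [Polynomial.coeff_natDegree, hp.leadingCoeff]; rfl
  rw [Finset.sum_range_succ, hlc, one_mul] at hsum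
  have hmem : ∀ i, i ∈ Finset.range p.natDegree → δ ^ (p.natDegree - i) * (p.coeff i : QS) ∈ ZS := by
    intro i hi
    have h1 : p.natDegree - i = (p.natDegree - i - 1) + 1 := by
      have := Finset.mem_range.mp hi
      omega
    rw [h1, pow_succ, mul_assoc]
    exact ZS.mul_mem (ZS.pow_mem hδ2 _) (hδ4 i hi)
  classical
  refine ⟨Polynomial.X ^ p.natDegree + ∑ i ∈ (Finset.range p.natDegree).attach,
    Polynomial.C (⟨_, hmem i.1 i.2⟩ : ZS) * Polynomial.X ^ (i.1), ?_, ?_⟩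
  · apply Polynomial.monic_X_pow_add
    refine lt_of_le_of_lt (Polynomial.degree_sum_le _ _) ?_
    rw [Finset.sup_lt_iff (WithBot.bot_lt_coe _)]
    intro i _
    exact lt_of_le_of_lt (Polynomial.degree_C_mul_X_pow_le _ _)
      (by exact_mod_cast Finset.mem_range.mp i.2)
  · rw [Polynomial.eval₂_add, Polynomial.eval₂_X_pow, Polynomial.eval₂_finsetSum]
    have h5 : ∑ i ∈ (Finset.range p.natDegree).attach, Polynomial.eval₂ (algebraMap ZS QS) (δ * g)
        (Polynomial.C (⟨_, hmem i.1 i.2⟩ : ZS) * Polynomial.X ^ (i.1))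
        = ∑ i ∈ (Finset.range p.natDegree).attach, δ ^ p.natDegree * ((p.coeff i.1 : QS) * g ^ i.1) := by
      apply Finset.sum_congr rfl
      intro i _
      rw [Polynomial.eval₂_mul, Polynomial.eval₂_C, Polynomial.eval₂_X_pow]
      show δ ^ (p.natDegree - i.1) * (p.coeff i.1 : QS) * (δ * g) ^ i.1 = _
      have h6 : δ ^ p.natDegree = δ ^ (p.natDegree - i.1) * δ ^ i.1 := by
        rw [← pow_add]
        congr 1
        have := Finset.mem_range.mp i.2
        omega
      rw [h6, mul_pow]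
      ring
    rw [h5, Finset.sum_attach (Finset.range p.natDegree)
      (fun i => δ ^ p.natDegree * ((p.coeff i : QS) * g ^ i)), ← Finset.mul_sum, mul_pow, ← mul_add,
      add_comm, hsum, mul_zero]

end Pool.Agent.H82.NS
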