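import Pool.Agent.H82.NS.Int

/-! # [H82 NS Q0ALG] `Q0 H` is algebraically closed in `QS`

`z` algebraic over the field `Q0 H`, so integral over `Q0 H ⊆ V0 H`; valuation rings are integrally closed: `z ∈ V0 H`,
`|z| ≤ r ∈ Q0 H`. By `int_small` there is `δ ∈ Q0 H ∩ ZS`, `δ ≠ 0`, with `δ z ∈ ZS`; `|δ z| ≤ |δ| r ∈ Q0 H`, so `δ z ∈ Q0 H` by `zs_small`. -/

namespace Pool.Agent.H82.NS

open Filter IntermediateField

theorem q0_alg (H : ℕ → ℕ) (z : QS) (hz : IsAlgebraic (Q0 H) z) : z ∈ Q0 H := by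
  have hint : IsIntegral (Q0 H) z := isAlgebraic_iff_isIntegral.mp hz
  -- the bound
  have hV : z ∈ V0 H := by
    have h1 : IsIntegral (V0 H) z := by
      obtain ⟨p, hp, hpz⟩ := hint
      have hQV : ∀ c : Q0 H, (c : QS) ∈ V0 H := by
        intro c
        rcases abs_choice (c : QS) with h | h
        · exact ⟨(c : QS), c.2, le_of_eq h⟩
        · exact ⟨-(c : QS), (Q0 H).neg_mem c.2, le_of_eq h⟩
      let φ : Q0 H →+* V0 H := (Q0 H).subtype.codRestrict (V0 H) hQV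
      refine ⟨p.map φ, hp.map φ, ?_⟩
      rw [Polynomial.eval₂_map]
      exact hpz
    obtain ⟨w, hw⟩ := IsIntegrallyClosed.isIntegral_iff.mp h1
    rw [← hw]
    exact w.2
  obtain ⟨r, hr, hzr⟩ := hV
  obtain ⟨δ, h1, h2, h3, h4⟩ := int_small H 0 z ZS.zero_mem (by
    obtain ⟨p, hp, hpz⟩ := hint
    refine ⟨p.map (algebraMap (Q0 H) (Algebra.adjoin (Q0 H) {(0 : QS)})), hp.map _, ?_⟩
    rw [Polynomial.eval₂_map]
    exact hpz)
  have habs : |δ| ∈ Q0 H := by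
    rcases abs_choice δ with h | h
    · rw [h]; exact h1
    · rw [h]; exact (Q0 H).neg_mem h1
  have h5 : δ * z ∈ Q0 H := by
    apply zs_small H (δ * z) (|δ| * r) h4 ((Q0 H).mul_mem habs hr)
    rw [abs_mul]
    exact mul_le_mul_of_nonneg_left hzr (abs_nonneg _)
  have h6 : z = δ⁻¹ * (δ * z) := by
    rw [← mul_assoc, inv_mul_cancel₀ h3, one_mul]
  rw [h6]
  exact (Q0 H).mul_mem ((Q0 H).inv_mem h1) h5

end Pool.Agent.H82.NS
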