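import Pool.Agent.H82.NS.Def

/-! # [H82 NS PLA] places of a function field: pole orders, rank one, change of the variable

`E K` fields, `FF E x` (`x` transcendental over `E`, `K` finite over `E(x)`), `V` a valuation ring of `K` over `E` (all `algebraMap e ∈ V`)
with `x ∉ V` (`Inf E x V`), so `u = x⁻¹` is in `V` and not a unit.

`ff_of_tr`: `g` transcendental over `E`: `x` is algebraic over `E(g)` (`g` is algebraic over `E(x)`; a relation `P(x, g) = 0`, `P ≠ 0`, involves
`x`, as `g` is transcendental; Mathlib: exchange lemma for algebraic elements, e.g. `IsAlgebraic` of adjoin / `Algebra.trdeg`,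
`AlgebraicIndependent`), so `K` is algebraic and finitely generated over `E(g)`, so finite (`K = E(x)(basis)`).

`pole_bdd`: every `z` satisfies a monic equation `z^r + a_1 z^(r-1) + .. + a_r = 0` with `a_i ∈ E(x)`; every element of `E(x)` times a power of
`u` is in `V` (a nonzero polynomial `q(x)` of degree `d` has `q(x) u^d` = unit of `V`: `q(x) u^d = c_d + u (...)`, `c_d ≠ 0` in `E`, a unit, and
`u (...)` in the maximal ideal). So `z u^j` is a root of a monic polynomial with coefficients `a_i u^(i j) ∈ V` for `j` large, so it is in `V`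
(valuation rings are integrally closed).

`rank_one`: `z ∈ V.nonunits` (the maximal ideal): for `z = 0` clear. `z` is transcendental over `E`: otherwise `z⁻¹` is algebraic, so integral
over the field `E`, so `z⁻¹ ∈ V`. Now apply `pole_bdd` to the function field `FF E z⁻¹` (`ff_of_tr`), the place `V` (`z⁻¹ ∉ V`) and the
element `x^k`: `x^k z^M ∈ V` for some `M`. -/

namespace Pool.Agent.H82.NS

open Filter IntermediateField

theorem ff_of_tr {E K : Type} [Field E] [Field K] [Algebra E K] {x : K} (hK : FF E x) {g : K}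
    (hg : Transcendental E g) : FF E g := by
  refine ⟨hg, ?_⟩
  have hfin := hK.fin
  have halg : IsAlgebraic E⟮g⟯ x :=
    isAlgebraic_adjoin_iff.mpr (.adjoin_singleton hK.tr hg
      (isAlgebraic_adjoin_iff.mp (Algebra.IsAlgebraic.isAlgebraic g)))
  let Fyx := restrictScalars E E⟮g⟯⟮x⟯
  let Fxy := restrictScalars E E⟮x⟯⟮g⟯
  let _ : Algebra E⟮g⟯ Fyx := E⟮g⟯⟮x⟯.algebra
  let _ : Module E⟮g⟯ Fyx := Algebra.toModule
  let _ : SMul E⟮g⟯ Fyx := Algebra.toSMul
  let _ : Algebra E⟮x⟯ Fxy := E⟮x⟯⟮g⟯.algebra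
  let _ : Module E⟮x⟯ Fxy := Algebra.toModule
  let _ : SMul E⟮x⟯ Fxy := Algebra.toSMul
  have h1 : FiniteDimensional E⟮g⟯ Fyx :=
    adjoin.finiteDimensional (isAlgebraic_iff_isIntegral.mp halg)
  have h2 : FiniteDimensional Fyx K := by
    unfold Fyx
    rw [adjoin_simple_comm]
    have : IsScalarTower E⟮x⟯ Fxy K := isScalarTower_mid' E⟮x⟯⟮g⟯
    exact .right E⟮x⟯ Fxy K
  have h3 : IsScalarTower E⟮g⟯ Fyx K := isScalarTower_mid' E⟮g⟯⟮x⟯
  exact .trans E⟮g⟯ Fyx K

/-- the valuation is trivial on `E` -/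
private theorem pla_triv {E K : Type} [Field E] [Field K] [Algebra E K] {x : K}
    {V : ValuationSubring K} (hV : Inf E x V) : V.valuation.IsTrivialOn E := by
  refine ⟨fun a ha => ?_⟩
  have h1 : V.valuation (algebraMap E K a) ≤ 1 := (V.valuation_le_one_iff _).2 (hV.base a)
  have h2 : V.valuation (algebraMap E K a⁻¹) ≤ 1 := (V.valuation_le_one_iff _).2 (hV.base a⁻¹)
  refine le_antisymm h1 ?_
  by_contra h
  rw [not_le] at h
  have h3 : V.valuation (algebraMap E K a) * V.valuation (algebraMap E K a⁻¹) = 1 := by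
    rw [← map_mul, ← map_mul, mul_inv_cancel₀ ha, map_one, map_one]
  have h4 : V.valuation (algebraMap E K a) * V.valuation (algebraMap E K a⁻¹) <
      1 := lt_of_le_of_lt (mul_le_mul' le_rfl h2) (by rwa [mul_one])
  rw [h3] at h4
  exact lt_irrefl _ h4

/-- elements of `E(x)` have bounded poles -/
private theorem pla_rat {E K : Type} [Field E] [Field K] [Algebra E K] {x : K}
    {V : ValuationSubring K} (hV : Inf E x V) (a : K) (ha : a ∈ E⟮x⟯) :
    ∃ j : ℕ, V.valuation a ≤ V.valuation x ^ j := by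
  have htriv := pla_triv hV
  have hx : 1 < V.valuation x := by
    rw [← not_le, V.valuation_le_one_iff]
    exact hV.pole
  obtain ⟨r, s, hrs⟩ := (mem_adjoin_simple_iff E a).1 ha
  by_cases hr : r = 0
  · refine ⟨0, ?_⟩
    rw [hrs, hr, map_zero, zero_div, map_zero]
    exact zero_le
  by_cases hs : s = 0
  · refine ⟨0, ?_⟩
    rw [hrs, hs, map_zero, div_zero, map_zero]
    exact zero_le
  refine ⟨r.natDegree, ?_⟩
  have h1 := Polynomial.valuation_aeval_eq_valuation_X_pow_natDegree_of_one_lt_valuation_X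
    (v := V.valuation) x hx hr
  have h2 := Polynomial.valuation_aeval_eq_valuation_X_pow_natDegree_of_one_lt_valuation_X
    (v := V.valuation) x hx hs
  rw [hrs, map_div₀, h1, h2]
  have h3 : 1 ≤ V.valuation x ^ s.natDegree := one_le_pow₀ hx.le
  exact div_le_of_le_mul₀ (by exact zero_le) (by exact zero_le)
    (le_mul_of_one_le_right' h3)

/-- pole orders are bounded, with valuations -/
private theorem pla_bdd {E K : Type} [Field E] [Field K] [Algebra E K] {x : K} (hK : FF E x)
    {V : ValuationSubring K} (hV : Inf E x V) (z : K) :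
    ∃ j : ℕ, V.valuation z ≤ V.valuation x ^ j := by
  classical
  have hfin := hK.fin
  have hx : 1 < V.valuation x := by
    rw [← not_le, V.valuation_le_one_iff]
    exact hV.pole
  have hint : IsIntegral E⟮x⟯ z := Algebra.IsIntegral.isIntegral z
  obtain ⟨p, hp, hpz⟩ := hint
  choose j hj using fun a : E⟮x⟯ => pla_rat hV (a : K) a.2
  refine ⟨(Finset.range p.natDegree).sup fun i => j (p.coeff i), ?_⟩
  obtain ⟨J, hJ⟩ : ∃ J, J = (Finset.range p.natDegree).sup fun i => j (p.coeff i) := ⟨_, rfl⟩
  rw [← hJ]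
  by_contra hcon
  rw [not_le] at hcon
  have hz1 : 1 < V.valuation z := lt_of_le_of_lt (one_le_pow₀ hx.le) hcon
  have h1 : z ^ p.natDegree = - ∑ i ∈ Finset.range p.natDegree, (p.coeff i : K) * z ^ i := by
    have h2 := hpz
    rw [hp.as_sum, Polynomial.eval₂_add, Polynomial.eval₂_X_pow, Polynomial.eval₂_finsetSum] at h2
    rw [eq_neg_iff_add_eq_zero, ← h2]
    congr 1
    refine Finset.sum_congr rfl fun i _ => ?_
    rw [Polynomial.eval₂_mul, Polynomial.eval₂_C, Polynomial.eval₂_X_pow]
    rfl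
  have h2 : V.valuation (z ^ p.natDegree) < V.valuation z ^ p.natDegree := by
    rw [h1, Valuation.map_neg]
    refine V.valuation.map_sum_lt (pow_ne_zero _ (by
      intro h0
      rw [h0] at hz1
      exact absurd hz1 (not_lt.2 (by exact zero_le)))) fun i hi => ?_
    rw [map_mul, map_pow]
    have h3 : V.valuation (p.coeff i : K) < V.valuation z := by
      refine lt_of_le_of_lt (hj (p.coeff i)) (lt_of_le_of_lt (pow_le_pow_right₀ hx.le ?_) hcon)
      rw [hJ]
      exact Finset.le_sup (f := fun i => j (p.coeff i)) hi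
    calc V.valuation (p.coeff i : K) * V.valuation z ^ i < V.valuation z * V.valuation z ^ i := by
          exact mul_lt_mul_of_pos_right h3 (pow_pos (lt_trans zero_lt_one hz1) _)
      _ = V.valuation z ^ (i + 1) := (pow_succ' _ _).symm
      _ ≤ V.valuation z ^ p.natDegree := pow_le_pow_right₀ hz1.le (by
          rw [Finset.mem_range] at hi
          omega)
  rw [map_pow] at h2
  exact lt_irrefl _ h2

theorem pole_bdd {E K : Type} [Field E] [Field K] [Algebra E K] {x : K} (hK : FF E x)
    {V : ValuationSubring K} (hV : Inf E x V) (z : K) : ∃ j : ℕ, z * x⁻¹ ^ j ∈ V := by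
  obtain ⟨j, hj⟩ := pla_bdd hK hV z
  have hx : 1 < V.valuation x := by
    rw [← not_le, V.valuation_le_one_iff]
    exact hV.pole
  refine ⟨j, ?_⟩
  rw [← V.valuation_le_one_iff, map_mul, map_pow, map_inv₀, inv_pow, ← div_eq_mul_inv]
  exact div_le_one_of_le₀ hj (by exact zero_le)

theorem rank_one {E K : Type} [Field E] [Field K] [Algebra E K] {x : K} (hK : FF E x)
    {V : ValuationSubring K} (hV : Inf E x V) {z : K} (hz : z ∈ V.nonunits) (k : ℕ) :
    ∃ M : ℕ, z ^ M * x ^ k ∈ V := by
  by_cases hz0 : z = 0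
  · refine ⟨1, ?_⟩
    rw [hz0, pow_one, zero_mul]
    exact V.zero_mem
  have htriv := pla_triv hV
  have hz1 : V.valuation z < 1 := V.mem_nonunits_iff.1 hz
  have htr : Transcendental E z⁻¹ := by
    refine Valuation.transcendental_of_ne_one (v := V.valuation) E z⁻¹ (inv_ne_zero hz0) ?_
    rw [map_inv₀]
    intro h
    rw [inv_eq_one] at h
    exact absurd h hz1.ne
  have hinf : Inf E z⁻¹ V := ⟨hV.base, by
    have h1 := V.mem_nonunits_iff_or.1 hz
    exact h1.resolve_left hz0⟩
  obtain ⟨j, hj⟩ := pole_bdd (ff_of_tr hK htr) hinf (x ^ k)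
  refine ⟨j, ?_⟩
  rw [inv_inv, mul_comm] at hj
  exact hj

end Pool.Agent.H82.NS
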