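import Mathlib

/-! # [H82 NS] ALL OF SIEGEL: definitions of the nonstandard frame

`QS` = the nonstandard rationals (ultrapower of `ℚ` along the hyperfilter of `ℕ`), `QbS` = the ultrapower of `Qb = AlgebraicClosure ℚ`,
`cl f` = class of a sequence, `germMap` = ring homomorphism of ultrapowers, `ZS` = the nonstandard integers inside `QS`, `Q0 H` = the field
of all classes of sequences of rationals with numerator and denominator bounded by `H N ^ C` for a standard `C` (`Small H f`);
`Q0bar H` = algebraic closure of `Q0 H` in `QbS`; `V0 H` = the elements of `QS` bounded by an element of `Q0 H`.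
`FF E K x`: `x` is transcendental and `K` is finite over `E(x)`. `Inf E x V`: `V` is a valuation ring of `K` over `E` without `x`
(a place at infinity). `ResDim E V d`: `d` elements of `V` are independent over `E` modulo the maximal ideal of `V`. -/

namespace Pool.Agent.H82.NS

open Filter IntermediateField

/-- the hyperfilter -/
noncomputable abbrev UU : Filter ℕ := ((hyperfilter ℕ : Ultrafilter ℕ) : Filter ℕ)

/-- the ultrapower of `R` along the hyperfilter of `ℕ` -/
def Ult (R : Type*) : Type _ := Germ UU R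

noncomputable instance {R : Type*} [CommRing R] : CommRing (Ult R) := inferInstanceAs (CommRing (Germ UU R))

noncomputable instance {R : Type*} [Field R] : Field (Ult R) := inferInstanceAs (Field (Germ UU R))

noncomputable instance {R : Type*} [LinearOrder R] : LinearOrder (Ult R) := inferInstanceAs (LinearOrder (Germ UU R))

instance {R : Type*} [Field R] [LinearOrder R] [IsStrictOrderedRing R] : IsStrictOrderedRing (Ult R) :=
  inferInstanceAs (IsStrictOrderedRing (Germ UU R))

/-- the class of a sequence -/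
noncomputable def cl {R : Type*} (f : ℕ → R) : Ult R := (f : Germ UU R)

theorem cl_surj {R : Type*} (z : Ult R) : ∃ f : ℕ → R, z = cl f := by
  induction z using Germ.inductionOn with | _ f => exact ⟨f, rfl⟩

theorem cl_eq {R : Type*} {f g : ℕ → R} : cl f = cl g ↔ ∀ᶠ N in UU, f N = g N := Germ.coe_eq

theorem cl_add {R : Type*} [CommRing R] (f g : ℕ → R) : cl f + cl g = cl (fun N => f N + g N) := rfl

theorem cl_mul {R : Type*} [CommRing R] (f g : ℕ → R) : cl f * cl g = cl (fun N => f N * g N) := rfl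

theorem cl_neg {R : Type*} [CommRing R] (f : ℕ → R) : - cl f = cl (fun N => - f N) := rfl

theorem cl_inv {R : Type*} [Field R] (f : ℕ → R) : (cl f)⁻¹ = cl (fun N => (f N)⁻¹) := rfl

theorem cl_zero {R : Type*} [CommRing R] : (0 : Ult R) = cl (fun _ => 0) := rfl

theorem cl_one {R : Type*} [CommRing R] : (1 : Ult R) = cl (fun _ => 1) := rfl

theorem cl_le {f g : ℕ → ℚ} : cl f ≤ cl g ↔ ∀ᶠ N in UU, f N ≤ g N := Germ.coe_le

/-- the nonstandard rationals -/
abbrev QS : Type := Ult ℚ

abbrev Qb : Type := AlgebraicClosure ℚ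

/-- the ultrapower of the algebraic numbers -/
abbrev QbS : Type := Ult Qb

/-- the ring homomorphism of ultrapowers induced by a ring homomorphism -/
noncomputable def germMap {R S : Type*} [CommRing R] [CommRing S] (f : R →+* S) : Ult R →+* Ult S where
  toFun := Germ.map f
  map_one' := by
    change cl (f ∘ (fun _ => (1 : R))) = cl (fun _ => (1 : S))
    congr 1; funext n; simp
  map_zero' := by
    change cl (f ∘ (fun _ => (0 : R))) = cl (fun _ => (0 : S))
    congr 1; funext n; simp
  map_mul' := by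
    intro a b
    obtain ⟨a, rfl⟩ := cl_surj a
    obtain ⟨b, rfl⟩ := cl_surj b
    change cl (f ∘ (a * b)) = cl ((f ∘ a) * (f ∘ b))
    congr 1; funext n; simp
  map_add' := by
    intro a b
    obtain ⟨a, rfl⟩ := cl_surj a
    obtain ⟨b, rfl⟩ := cl_surj b
    change cl (f ∘ (a + b)) = cl ((f ∘ a) + (f ∘ b))
    congr 1; funext n; simp

theorem germMap_cl {R S : Type*} [CommRing R] [CommRing S] (f : R →+* S) (a : ℕ → R) :
    germMap f (cl a) = cl (fun N => f (a N)) := rfl

/-- `QS → QbS` -/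
noncomputable instance : Algebra QS QbS := (germMap (algebraMap ℚ Qb)).toAlgebra

theorem algebraMap_cl (a : ℕ → ℚ) : algebraMap QS QbS (cl a) = cl (fun N => algebraMap ℚ Qb (a N)) := rfl

/-- the nonstandard integers -/
noncomputable def ZS : Subring QS := (germMap (Int.castRingHom ℚ)).range

/-- sequences of rationals of polynomially bounded height -/
def Small (H : ℕ → ℕ) (f : ℕ → ℚ) : Prop :=
  ∃ C : ℕ, ∀ N, (f N).num.natAbs ≤ (H N + 2) ^ C ∧ (f N).den ≤ (H N + 2) ^ C

theorem small_one {H : ℕ → ℕ} : Small H (fun _ => 1) := ⟨0, fun N => by simp⟩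

theorem small_zero {H : ℕ → ℕ} : Small H (fun _ => 0) := ⟨0, fun N => by simp⟩

theorem small_neg {H : ℕ → ℕ} {f : ℕ → ℚ} (hf : Small H f) : Small H (fun N => - f N) := by
  obtain ⟨C, hC⟩ := hf
  refine ⟨C, fun N => ?_⟩
  simpa using hC N

theorem small_inv {H : ℕ → ℕ} {f : ℕ → ℚ} (hf : Small H f) : Small H (fun N => (f N)⁻¹) := by
  obtain ⟨C, hC⟩ := hf
  refine ⟨C, fun N => ?_⟩
  obtain ⟨h1, h2⟩ := hC N
  show ((f N)⁻¹).num.natAbs ≤ _ ∧ ((f N)⁻¹).den ≤ _
  rcases eq_or_ne (f N) 0 with h0 | h0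
  · rw [h0] at h1 h2 ⊢
    rw [inv_zero]
    exact ⟨h1, h2⟩
  · have h3 : (f N).num ≠ 0 := Rat.num_ne_zero.mpr h0
    constructor
    · rw [Rat.num_inv]
      rw [Int.natAbs_mul, Int.natAbs_natCast]
      calc (f N).num.sign.natAbs * (f N).den ≤ 1 * (f N).den := by
            apply Nat.mul_le_mul_right
            rw [Int.natAbs_sign_of_ne_zero h3]
        _ ≤ (H N + 2) ^ C := by rw [one_mul]; exact h2
    · rw [Rat.den_inv]
      rw [if_neg h3]
      exact h1

theorem small_mul {H : ℕ → ℕ} {f g : ℕ → ℚ} (hf : Small H f) (hg : Small H g) :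
    Small H (fun N => f N * g N) := by
  obtain ⟨C, hC⟩ := hf
  obtain ⟨D, hD⟩ := hg
  refine ⟨C + D, fun N => ?_⟩
  obtain ⟨h1, h2⟩ := hC N
  obtain ⟨h3, h4⟩ := hD N
  constructor
  · have : (f N * g N).num.natAbs ≤ (f N).num.natAbs * (g N).num.natAbs := by
      rw [← Int.natAbs_mul]
      rw [Rat.num_mul]
      exact Int.natAbs_ediv_le_natAbs _ _
    refine this.trans ?_
    rw [pow_add]
    exact Nat.mul_le_mul h1 h3
  · have : (f N * g N).den ≤ (f N).den * (g N).den := by
      apply Nat.le_of_dvd (Nat.mul_pos (f N).den_pos (g N).den_pos)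
      exact Rat.mul_den_dvd _ _
    refine this.trans ?_
    rw [pow_add]
    exact Nat.mul_le_mul h2 h4

theorem small_add {H : ℕ → ℕ} {f g : ℕ → ℚ} (hf : Small H f) (hg : Small H g) :
    Small H (fun N => f N + g N) := by
  obtain ⟨C, hC⟩ := hf
  obtain ⟨D, hD⟩ := hg
  refine ⟨C + D + 1, fun N => ?_⟩
  obtain ⟨h1, h2⟩ := hC N
  obtain ⟨h3, h4⟩ := hD N
  constructor
  · have hb : ((f N).den * (g N).den : ℤ) ≠ 0 :=
      mul_ne_zero (Int.natCast_ne_zero.mpr (f N).den_pos.ne') (Int.natCast_ne_zero.mpr (g N).den_pos.ne')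
    have e : (f N + g N).num ∣ (f N).num * (g N).den + (f N).den * (g N).num := by
      rw [Rat.add_num_den]
      exact Rat.num_dvd _ hb
    rcases eq_or_ne ((f N).num * (g N).den + (f N).den * (g N).num : ℤ) 0 with h0 | h0
    · have : f N + g N = 0 := by
        rw [Rat.add_num_den, h0]; simp
      show (f N + g N).num.natAbs ≤ _
      rw [this]; simp
    · have h5 : (f N + g N).num.natAbs ≤ ((f N).num * (g N).den + (f N).den * (g N).num).natAbs :=
        Nat.le_of_dvd (Int.natAbs_pos.mpr h0) (Int.natAbs_dvd_natAbs.mpr e)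
      refine h5.trans ((Int.natAbs_add_le _ _).trans ?_)
      rw [Int.natAbs_mul, Int.natAbs_mul, Int.natAbs_natCast, Int.natAbs_natCast]
      calc (f N).num.natAbs * (g N).den + (f N).den * (g N).num.natAbs
          ≤ (H N + 2) ^ C * (H N + 2) ^ D + (H N + 2) ^ C * (H N + 2) ^ D :=
            Nat.add_le_add (Nat.mul_le_mul h1 h4) (Nat.mul_le_mul h2 h3)
        _ = (H N + 2) ^ (C + D) * 2 := by rw [pow_add]; ring
        _ ≤ (H N + 2) ^ (C + D) * (H N + 2) := Nat.mul_le_mul_left _ (by omega)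
        _ = (H N + 2) ^ (C + D + 1) := by rw [pow_succ]
  · have : (f N + g N).den ≤ (f N).den * (g N).den := by
      apply Nat.le_of_dvd (Nat.mul_pos (f N).den_pos (g N).den_pos)
      exact Rat.add_den_dvd _ _
    refine this.trans ?_
    rw [pow_succ, pow_add]
    calc (f N).den * (g N).den ≤ (H N + 2) ^ C * (H N + 2) ^ D := Nat.mul_le_mul h2 h4
      _ ≤ (H N + 2) ^ C * (H N + 2) ^ D * (H N + 2) := Nat.le_mul_of_pos_right _ (by omega)

/-- the field of the nonstandard rationals of height at most `H ^ C`, `C` standard -/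
noncomputable def Q0 (H : ℕ → ℕ) : Subfield QS where
  carrier := {z | ∃ f : ℕ → ℚ, Small H f ∧ z = cl f}
  one_mem' := ⟨_, small_one, rfl⟩
  zero_mem' := ⟨_, small_zero, rfl⟩
  mul_mem' := by
    rintro _ _ ⟨f, hf, rfl⟩ ⟨g, hg, rfl⟩
    exact ⟨_, small_mul hf hg, rfl⟩
  add_mem' := by
    rintro _ _ ⟨f, hf, rfl⟩ ⟨g, hg, rfl⟩
    exact ⟨_, small_add hf hg, rfl⟩
  neg_mem' := by
    rintro _ ⟨f, hf, rfl⟩
    exact ⟨_, small_neg hf, rfl⟩
  inv_mem' := by
    rintro _ ⟨f, hf, rfl⟩
    exact ⟨_, small_inv hf, rfl⟩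

noncomputable instance instAlgQ0 (H : ℕ → ℕ) : Algebra (Q0 H) QbS :=
  ((algebraMap QS QbS).comp (Q0 H).subtype).toAlgebra

instance instTowQ0 (H : ℕ → ℕ) : IsScalarTower (Q0 H) QS QbS :=
  IsScalarTower.of_algebraMap_eq (R := Q0 H) (S := QS) (A := QbS) (fun _ => rfl)

/-- the algebraic closure of `Q0 H` in `QbS` -/
noncomputable def Q0bar (H : ℕ → ℕ) : IntermediateField (Q0 H) QbS := algebraicClosure (Q0 H) QbS

/-- the nonstandard rationals bounded by an element of `Q0 H` -/
noncomputable def V0 (H : ℕ → ℕ) : ValuationSubring QS where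
  carrier := {z | ∃ r ∈ Q0 H, |z| ≤ r}
  one_mem' := ⟨1, (Q0 H).one_mem, by simp⟩
  zero_mem' := ⟨0, (Q0 H).zero_mem, by simp⟩
  mul_mem' := by
    rintro a b ⟨r, hr, har⟩ ⟨s, hs, hbs⟩
    refine ⟨r * s, (Q0 H).mul_mem hr hs, ?_⟩
    rw [abs_mul]
    exact mul_le_mul har hbs (abs_nonneg _) ((abs_nonneg _).trans har)
  add_mem' := by
    rintro a b ⟨r, hr, har⟩ ⟨s, hs, hbs⟩
    exact ⟨r + s, (Q0 H).add_mem hr hs, (abs_add_le _ _).trans (add_le_add har hbs)⟩
  neg_mem' := by
    rintro a ⟨r, hr, har⟩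
    exact ⟨r, hr, by rwa [abs_neg]⟩
  mem_or_inv_mem' := by
    intro a
    rcases le_total |a| 1 with h | h
    · exact Or.inl ⟨1, (Q0 H).one_mem, h⟩
    · refine Or.inr ⟨1, (Q0 H).one_mem, ?_⟩
      rw [abs_inv]
      exact inv_le_one_of_one_le₀ h

/-- `K` is a function field of one variable over `E`: `x` is transcendental, `K` is finite over `E(x)` -/
structure FF (E : Type*) {K : Type*} [Field E] [Field K] [Algebra E K] (x : K) : Prop where
  tr : Transcendental E x
  fin : FiniteDimensional E⟮x⟯ K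

/-- places at infinity: valuation rings over `E` which do not contain `x` -/
structure Inf (E : Type*) {K : Type*} [Field E] [Field K] [Algebra E K] (x : K) (V : ValuationSubring K) : Prop where
  base : ∀ e : E, algebraMap E K e ∈ V
  pole : x ∉ V

/-- the residue field of `V` contains `d` elements which are linearly independent over `E` -/
def ResDim (E : Type*) {K : Type*} [Field E] [Field K] [Algebra E K] (V : ValuationSubring K) (d : ℕ) : Prop :=
  ∃ z : Fin d → K, (∀ i, z i ∈ V) ∧ ∀ c : Fin d → E, (∑ i, c i • z i) ∈ V.nonunits → c = 0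

end Pool.Agent.H82.NS
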