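import Pool.Agent.H82.NS.PlA

/-! # [H82 NS PLC] a place is discrete: the order function

Let `u = x⁻¹ ∈ V.nonunits`, `m = [K : E(x)]`. (1) Elements `z_1, .., z_r` of `K` with `z_i / u ∉ V`... more precisely `z_i ∈ V`, `u / z_i ∈ V.nonunits`
(value in `[0, v(u))`) and pairwise different values (`z_i / z_j` not a unit of `V` for `i ≠ j`) are linearly independent over `E(x)`, so `r ≤ m`: in a
relation `∑ q_i(u) z_i = 0` with `q_i ∈ E[u]`, not all `q_i(0) = 0`: the terms with `q_i(0) ≠ 0` have pairwise different values `< v(u)` (`q_i(u)` is a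
unit), all others have values `≥ v(u)`: the term of smallest value is alone, contradiction (divide by it: a unit `= ` sum of elements of
`V.nonunits`). (2) So the set of values in `(0, v(u)]` is finite and not empty (`v(u)`); let `π` be an element with the smallest one: every
`z ∈ V.nonunits` has `z / π ∈ V`. [Formally: choose a maximal `r` with such a family and `z_i` of smallest positive value; or: by strong induction: if
no such `π` exists, there is an infinite sequence `z_1, z_2, ..` of elements of `V.nonunits` with `z_i / z_(i+1) ∈ V.nonunits`, `z_1 = u`: contradiction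
to (1) for `r = m + 1`.] (3) For `z ≠ 0` there is exactly one `n ∈ ℤ` with `z / π^n` a unit of `V`: for `z ∈ V` the set of the `n ≥ 0` with `z / π^n ∈ V` is bounded:
`pole_bdd` for `z⁻¹`: `z⁻¹ u^j ∈ V`, `rank_one` for `π` and `k = j + 1`: `π^M x^(j+1) ∈ V`, so `π^M / z = (π^M x^(j+1)) (z⁻¹ u^j) u ∈ V.nonunits`, so
`z / π^M ∉ V`. For the maximal `n` the element `z / π^n` is in `V`, and not in `V.nonunits` (otherwise `z / π^(n+1) ∈ V`). For `z ∉ V` take `z⁻¹`.
`ord z` := this `n` (`ord 0 := 0`).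

`res_alg` (`E` algebraically closed): `z ∈ V`. If `z` is algebraic over `E`, then `z ∈ E`, take `c = z`. Otherwise `FF E z` (`ff_of_tr`), and `u` is algebraic over `E(z)`:
`∑ p_i(z) u^i = 0` with `p_i ∈ E[X]` not all `0`; dividing by a power of `u` we may assume `p_0 ≠ 0`. So `p_0(z) ∈ V.nonunits` (a multiple of `u` in `V`, as
all `p_i(z) ∈ V`). `p_0` is a constant times a product of linear factors, so `z - c ∈ V.nonunits` for a zero `c` of `p_0` (a product of units is a unit;
constants are units). -/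

namespace Pool.Agent.H82.NS

open Filter IntermediateField

private lemma plc_one {L K : Type*} [Field L] [Field K] [Algebra L K] {V : ValuationSubring K}
    (hL : ∀ e : L, algebraMap L K e ∈ V) {e : L} (he : e ≠ 0) :
    V.valuation (algebraMap L K e) = 1 := by
  apply le_antisymm
  · exact (V.valuation_le_one_iff _).2 (hL e)
  · have h1 : V.valuation (algebraMap L K e⁻¹) ≤ 1 := (V.valuation_le_one_iff _).2 (hL e⁻¹)
    have h0 : V.valuation (algebraMap L K e) ≠ 0 := by
      rw [Valuation.ne_zero_iff]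
      exact (map_ne_zero _).2 he
    rw [map_inv₀, map_inv₀] at h1
    exact (inv_le_one₀ (zero_lt_iff.2 h0)).1 h1

private lemma plc_gt {K : Type*} [Field K] {V : ValuationSubring K} {x : K} (hx : x ∉ V) :
    1 < V.valuation x := by
  by_contra h
  exact hx ((V.valuation_le_one_iff _).1 (not_lt.1 h))

private lemma plc_poly {L K : Type*} [Field L] [Field K] [Algebra L K] {V : ValuationSubring K}
    (hL : ∀ e : L, algebraMap L K e ∈ V) {x : K} (hx : x ∉ V) {P : Polynomial L} (hP : P ≠ 0) :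
    V.valuation (Polynomial.aeval x P) = V.valuation x ^ P.natDegree := by
  have hx1 : 1 < V.valuation x := plc_gt hx
  have hx0 : 0 < V.valuation x := lt_trans zero_lt_one hx1
  have hlead : V.valuation (algebraMap L K P.leadingCoeff * x ^ P.natDegree)
      = V.valuation x ^ P.natDegree := by
    rw [map_mul, map_pow, plc_one hL (Polynomial.leadingCoeff_ne_zero.2 hP), one_mul]
  have hsplit : Polynomial.aeval x P =
      (∑ i ∈ Finset.range P.natDegree, algebraMap L K (P.coeff i) * x ^ i) +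
        algebraMap L K P.leadingCoeff * x ^ P.natDegree := by
    rw [Polynomial.aeval_eq_sum_range, Finset.sum_range_succ]
    simp only [Algebra.smul_def]
    rfl
  have hlt : V.valuation (∑ i ∈ Finset.range P.natDegree, algebraMap L K (P.coeff i) * x ^ i)
      < V.valuation x ^ P.natDegree := by
    apply Valuation.map_sum_lt _ (pow_pos hx0 _).ne'
    intro i hi
    rw [map_mul, map_pow]
    calc V.valuation (algebraMap L K (P.coeff i)) * V.valuation x ^ i
        ≤ 1 * V.valuation x ^ i :=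
          mul_le_mul' ((V.valuation_le_one_iff _).2 (hL _)) (le_refl _)
      _ = V.valuation x ^ i := one_mul _
      _ < V.valuation x ^ P.natDegree := pow_lt_pow_right₀ hx1 (Finset.mem_range.1 hi)
  rw [hsplit, Valuation.map_add_eq_of_lt_right V.valuation (by rw [hlead]; exact hlt), hlead]

private lemma plc_adj {E K : Type*} [Field E] [Field K] [Algebra E K] {x : K}
    {V : ValuationSubring K} (hV : Inf E x V) {a : K} (ha : a ∈ E⟮x⟯) (ha0 : a ≠ 0) :
    ∃ n : ℤ, V.valuation a = V.valuation x ^ n := by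
  rw [IntermediateField.mem_adjoin_simple_iff] at ha
  obtain ⟨r, s, rfl⟩ := ha
  have hr : r ≠ 0 := by rintro rfl; simp at ha0
  have hs : s ≠ 0 := by rintro rfl; simp at ha0
  have hx0 : V.valuation x ≠ 0 := (lt_trans zero_lt_one (plc_gt hV.pole)).ne'
  refine ⟨(r.natDegree : ℤ) - (s.natDegree : ℤ), ?_⟩
  rw [map_div₀, plc_poly hV.base hV.pole hr, plc_poly hV.base hV.pole hs, zpow_sub₀ hx0,
    zpow_natCast, zpow_natCast]

private lemma plc_sum {K Γ : Type*} [Field K] [LinearOrderedCommGroupWithZero Γ] (v : Valuation K Γ)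
    {ι : Type*} (s : Finset ι) (t : ι → K)
    (h : ∀ i ∈ s, ∀ j ∈ s, t i ≠ 0 → t j ≠ 0 → v (t i) = v (t j) → i = j)
    (hs : ∑ i ∈ s, t i = 0) : ∀ i ∈ s, t i = 0 := by
  classical
  by_contra hc
  push Not at hc
  obtain ⟨i1, hi1, hti1⟩ := hc
  have hne : (s.filter fun i => t i ≠ 0).Nonempty := ⟨i1, Finset.mem_filter.2 ⟨hi1, hti1⟩⟩
  obtain ⟨i0, hi0, hmax⟩ := Finset.exists_max_image _ (fun i => v (t i)) hne
  rw [Finset.mem_filter] at hi0
  have hv0 : v (t i0) ≠ 0 := (Valuation.ne_zero_iff _).2 hi0.2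
  have hlt : v (∑ i ∈ s.erase i0, t i) < v (t i0) := by
    apply Valuation.map_sum_lt _ hv0
    intro i hi
    rw [Finset.mem_erase] at hi
    by_cases h0 : t i = 0
    · rw [h0, map_zero]
      exact zero_lt_iff.2 hv0
    · refine lt_of_le_of_ne (hmax i (Finset.mem_filter.2 ⟨hi.2, h0⟩)) ?_
      intro heq
      exact hi.1 (h i hi.2 i0 hi0.1 h0 hi0.2 heq)
  have hsum : t i0 + ∑ i ∈ s.erase i0, t i = 0 := by
    rw [Finset.add_sum_erase _ _ hi0.1]
    exact hs
  have h3 := Valuation.map_add_eq_of_lt_left v hlt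
  rw [hsum, map_zero] at h3
  exact hv0 h3.symm

private lemma plc_key {Γ : Type*} [LinearOrderedCommGroupWithZero Γ] {a γ δ : Γ} (ha : 1 < a)
    (h1 : a⁻¹ < γ) (h2 : δ ≤ 1) {n m : ℤ} (hnm : n < m) : a ^ n * δ < a ^ m * γ := by
  have ha0 : 0 < a := lt_trans zero_lt_one ha
  calc a ^ n * δ ≤ a ^ n * 1 := mul_le_mul' (le_refl _) h2
    _ = a ^ n := mul_one _
    _ ≤ a ^ (m - 1) := zpow_le_zpow_right₀ ha.le (by omega)
    _ = a ^ m * a⁻¹ := by rw [zpow_sub₀ ha0.ne', zpow_one, div_eq_mul_inv]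
    _ < a ^ m * γ := mul_lt_mul_of_pos_left h1 (zpow_pos ha0 m)

private lemma plc_fin {E K : Type} [Field E] [Field K] [Algebra E K] {x : K} (hK : FF E x)
    {V : ValuationSubring K} (hV : Inf E x V) :
    {γ : V.ValueGroup | (V.valuation x)⁻¹ < γ ∧ γ ≤ 1}.Finite := by
  have hfin := hK.fin
  have hx1 : 1 < V.valuation x := plc_gt hV.pole
  have hx0 : 0 < V.valuation x := lt_trans zero_lt_one hx1
  choose z hz using fun γ : {γ : V.ValueGroup | (V.valuation x)⁻¹ < γ ∧ γ ≤ 1} =>
    V.valuation_surjective γ.1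
  have hz0 : ∀ γ, z γ ≠ 0 := by
    intro γ h0
    have h1 := hz γ
    rw [h0, map_zero] at h1
    have h2 : (V.valuation x)⁻¹ < γ.1 := γ.2.1
    rw [← h1] at h2
    exact not_lt_zero h2
  have hli : LinearIndependent E⟮x⟯ z := by
    rw [linearIndependent_iff']
    intro s g hg i hi
    have h1 := plc_sum V.valuation s (fun i => (g i : K) * z i) ?_ hg i hi
    · rcases mul_eq_zero.1 h1 with h2 | h2
      · exact Subtype.ext h2
      · exact absurd h2 (hz0 i)
    · intro i _ j _ hi0 hj0 hij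
      have hgi : (g i : K) ≠ 0 := left_ne_zero_of_mul hi0
      have hgj : (g j : K) ≠ 0 := left_ne_zero_of_mul hj0
      obtain ⟨n, hn⟩ := plc_adj hV (g i).2 hgi
      obtain ⟨m, hm⟩ := plc_adj hV (g j).2 hgj
      simp only [map_mul] at hij
      rw [hn, hm, hz, hz] at hij
      rcases lt_trichotomy n m with h | h | h
      · exact absurd hij (plc_key hx1 j.2.1 i.2.2 h).ne
      · rw [h] at hij
        exact Subtype.ext (mul_left_cancel₀ (zpow_pos hx0 m).ne' hij)
      · exact absurd hij (plc_key hx1 i.2.1 j.2.2 h).ne'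
  have : Finite {γ : V.ValueGroup | (V.valuation x)⁻¹ < γ ∧ γ ≤ 1} :=
    LinearIndependent.finite_of_isNoetherian hli
  exact Set.toFinite _

theorem ord_exists {E K : Type} [Field E] [Field K] [Algebra E K] {x : K} (hK : FF E x)
    {V : ValuationSubring K} (hV : Inf E x V) :
    ∃ ord : K → ℤ, (∀ a b : K, a ≠ 0 → b ≠ 0 → ord (a * b) = ord a + ord b) ∧
      (∀ a : K, a ≠ 0 → (a ∈ V ↔ 0 ≤ ord a)) ∧ ∃ p : K, p ≠ 0 ∧ ord p = 1 := by
  have hx1 : 1 < V.valuation x := plc_gt hV.pole
  have hx0 : 0 < V.valuation x := lt_trans zero_lt_one hx1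
  have hfin : {γ : V.ValueGroup | (V.valuation x)⁻¹ ≤ γ ∧ γ < 1}.Finite := by
    refine ((plc_fin hK hV).insert (V.valuation x)⁻¹).subset ?_
    rintro γ ⟨h1, h2⟩
    rcases eq_or_lt_of_le h1 with h3 | h3
    · exact Or.inl h3.symm
    · exact Or.inr ⟨h3, h2.le⟩
  have hne : {γ : V.ValueGroup | (V.valuation x)⁻¹ ≤ γ ∧ γ < 1}.Nonempty :=
    ⟨(V.valuation x)⁻¹, le_refl _, inv_lt_one_of_one_lt₀ hx1⟩
  obtain ⟨γ, hγ, hmax⟩ := Set.exists_max_image _ id hfin hne
  obtain ⟨p, hp⟩ := V.valuation_surjective γ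
  obtain ⟨hγ1, hγ2⟩ := hγ
  have hγ0 : 0 < γ := lt_of_lt_of_le (inv_pos.2 hx0) hγ1
  have hp0 : p ≠ 0 := by
    intro h0
    rw [h0, map_zero] at hp
    exact hγ0.ne hp
  have hmax' : ∀ z : K, V.valuation z < 1 → V.valuation z ≤ γ := by
    intro z hz
    rcases le_total (V.valuation x)⁻¹ (V.valuation z) with h | h
    · exact hmax _ ⟨h, hz⟩
    · exact h.trans hγ1
  have hb : 1 < γ⁻¹ := (one_lt_inv₀ hγ0).2 hγ2
  have hb0 : 0 < γ⁻¹ := inv_pos.2 hγ0
  have hpn : p ∈ V.nonunits := by
    rw [ValuationSubring.mem_nonunits_iff, hp]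
    exact hγ2
  have harch : ∀ z : K, ∃ M : ℕ, V.valuation z ≤ γ⁻¹ ^ M := by
    intro z
    obtain ⟨j, hj⟩ := pole_bdd hK hV z
    obtain ⟨M, hM⟩ := rank_one hK hV hpn j
    refine ⟨M, ?_⟩
    rw [← V.valuation_le_one_iff, map_mul, map_pow, map_inv₀, inv_pow,
      ← div_eq_mul_inv, div_le_one₀ (pow_pos hx0 j)] at hj
    rw [← V.valuation_le_one_iff, map_mul, map_pow, map_pow, hp, mul_comm,
      ← le_div_iff₀ (pow_pos hγ0 M), one_div, ← inv_pow] at hM
    exact hj.trans hM
  have hord : ∀ z : K, ∃ n : ℤ, z ≠ 0 → V.valuation z = γ⁻¹ ^ (-n) := by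
    intro z
    by_cases hz : z = 0
    · exact ⟨0, fun h => absurd hz h⟩
    have hz0 : 0 < V.valuation z := zero_lt_iff.2 ((Valuation.ne_zero_iff _).2 hz)
    obtain ⟨M, hM⟩ := harch z
    obtain ⟨M', hM'⟩ := harch z⁻¹
    rw [map_inv₀] at hM'
    obtain ⟨n, hn, hleast⟩ := Int.exists_least_of_bdd (P := fun n : ℤ => V.valuation z ≤ γ⁻¹ ^ n)
      ⟨-(M' : ℤ), fun n hn => by
        by_contra hlt
        push Not at hlt
        have h1 : γ⁻¹ ^ n < γ⁻¹ ^ (-(M' : ℤ)) := zpow_lt_zpow_right₀ hb hlt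
        have h2 : γ⁻¹ ^ (-(M' : ℤ)) ≤ V.valuation z := by
          rw [zpow_neg, zpow_natCast]
          exact (inv_le_comm₀ (pow_pos hb0 M') hz0).2 hM'
        exact absurd (h2.trans hn) (not_le.2 h1)⟩
      ⟨M, by rw [zpow_natCast]; exact hM⟩
    refine ⟨-n, fun _ => ?_⟩
    rw [neg_neg]
    refine le_antisymm hn ?_
    by_contra hlt
    push Not at hlt
    have h1 : V.valuation (z * p ^ n) = V.valuation z * γ ^ n := by
      rw [map_mul, map_zpow₀, hp]
    have h2 : V.valuation (z * p ^ n) < 1 := by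
      rw [h1]
      have h3 : γ⁻¹ ^ n * γ ^ n = 1 := by
        rw [← mul_zpow, inv_mul_cancel₀ hγ0.ne', one_zpow]
      rw [← h3]
      exact mul_lt_mul_of_pos_right hlt (zpow_pos hγ0 n)
    have h3 := hmax' _ h2
    rw [h1] at h3
    have h4 : V.valuation z ≤ γ⁻¹ ^ (n - 1) := by
      have h5 : V.valuation z = V.valuation z * γ ^ n * γ⁻¹ ^ n := by
        rw [mul_assoc, ← mul_zpow, mul_inv_cancel₀ hγ0.ne', one_zpow, mul_one]
      rw [h5, zpow_sub₀ hb0.ne', zpow_one, div_eq_mul_inv, inv_inv, mul_comm (γ⁻¹ ^ n)]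
      exact mul_le_mul' h3 (le_refl _)
    have h5 := hleast (n - 1) h4
    omega
  choose ord hordz using hord
  have hinj := zpow_right_injective₀ hb0 hb.ne'
  refine ⟨ord, ?_, ?_, p, hp0, ?_⟩
  · intro a b ha hb'
    have h1 := hordz (a * b) (mul_ne_zero ha hb')
    rw [map_mul, hordz a ha, hordz b hb', ← zpow_add₀ hb0.ne'] at h1
    have h2 := hinj h1
    omega
  · intro a ha
    rw [← V.valuation_le_one_iff, hordz a ha]
    have h1 : (1 : V.ValueGroup) = γ⁻¹ ^ (0 : ℤ) := (zpow_zero _).symm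
    rw [h1, zpow_le_zpow_iff_right₀ hb]
    omega
  · have h1 := hordz p hp0
    rw [hp] at h1
    have h2 : γ⁻¹ ^ (-1 : ℤ) = γ⁻¹ ^ (-ord p) := by
      rw [← h1, zpow_neg_one, inv_inv]
    have h3 := hinj h2
    omega

theorem res_alg {E K : Type} [Field E] [IsAlgClosed E] [Field K] [Algebra E K] {x : K} (hK : FF E x)
    {V : ValuationSubring K} (hV : Inf E x V) {z : K} (hz : z ∈ V) :
    ∃ c : E, z - algebraMap E K c ∈ V.nonunits := by
  by_contra hc
  push Not at hc
  have hz1 : ∀ c : E, V.valuation (z - algebraMap E K c) = 1 := by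
    intro c
    have h1 := hc c
    rw [ValuationSubring.mem_nonunits_iff, not_lt] at h1
    refine le_antisymm ((V.valuation_le_one_iff _).2 ?_) h1
    exact sub_mem hz (hV.base c)
  by_cases hzt : Transcendental E z
  · have hFF := ff_of_tr hK hzt
    have hfin := hFF.fin
    have hpol : ∀ P : Polynomial E, P ≠ 0 → V.valuation (Polynomial.aeval z P) = 1 := by
      intro P hP
      have hsp : P = Polynomial.C P.leadingCoeff *
          (P.roots.map fun a => Polynomial.X - Polynomial.C a).prod :=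
        (IsAlgClosed.splits P).eq_prod_roots
      rw [hsp, map_mul, Polynomial.aeval_C, map_mul,
        plc_one hV.base (Polynomial.leadingCoeff_ne_zero.2 hP), one_mul, map_multiset_prod,
        map_multiset_prod, Multiset.map_map, Multiset.map_map]
      apply Multiset.prod_eq_one
      intro y hy
      rw [Multiset.mem_map] at hy
      obtain ⟨c, -, rfl⟩ := hy
      simp only [Function.comp_apply, map_sub, Polynomial.aeval_X, Polynomial.aeval_C]
      exact hz1 c
    have hbase : ∀ e : E⟮z⟯, algebraMap E⟮z⟯ K e ∈ V := by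
      intro e
      have he : (e : K) ∈ E⟮z⟯ := e.2
      rw [IntermediateField.mem_adjoin_simple_iff] at he
      obtain ⟨r, s, hrs⟩ := he
      show (e : K) ∈ V
      rw [hrs]
      by_cases hr : r = 0
      · rw [hr, map_zero, zero_div]
        exact V.zero_mem
      by_cases hs : s = 0
      · rw [hs, map_zero, div_zero]
        exact V.zero_mem
      rw [← V.valuation_le_one_iff, map_div₀, hpol r hr, hpol s hs, div_one]
    have hx1 : 1 < V.valuation x := plc_gt hV.pole
    have hx0 : 0 < V.valuation x := lt_trans zero_lt_one hx1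
    have hint : IsIntegral E⟮z⟯ x := IsIntegral.of_finite _ x
    have h1 := plc_poly hbase hV.pole (minpoly.ne_zero hint)
    rw [minpoly.aeval, map_zero] at h1
    exact (pow_pos hx0 _).ne h1
  · have halg : IsAlgebraic E z := by
      rw [Transcendental, not_not] at hzt
      exact hzt
    have hdeg : (minpoly E z).degree = 1 :=
      IsAlgClosed.degree_eq_one_of_irreducible E (minpoly.irreducible halg.isIntegral)
    obtain ⟨c, hcz⟩ := minpoly.mem_range_of_degree_eq_one E z hdeg
    have h1 := hz1 c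
    rw [hcz, sub_self, map_zero] at h1
    exact zero_ne_one h1

end Pool.Agent.H82.NS
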