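import Pool.Agent.H82.NS.PlA

/-! # [H82 NS PLB] places of a function field: existence and finiteness

`exists_place`: `u = x⁻¹` is transcendental over `E`, so `x = u⁻¹` is not integral over `E[u]` (multiply an integral equation of `u⁻¹` of degree
`r` by `u^r`: `1 = u (...)` with `... ∈ E[u]`, impossible for the polynomial ring). By Mathlib `iInf_valuationSubring_superset`
(the intersection of the valuation rings which contain a set is the integral closure of the subring generated by it; use
`s = Set.range (algebraMap E K) ∪ {u}`) there is a valuation ring `V` with `E, u ∈ V`, `x ∉ V`. (For algebraic reasons nothing else is needed;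
`FF` is only used for the transcendence.)

`places_finite`: let `m = [K : E(x)]`. CLAIM: `K` has at most `m` valuation rings with `Inf E x`. Let `V_1, .., V_r` be different ones. They are
pairwise incomparable (`place_max`). By the approximation lemma (`approx`) there are `e_i` with `(1 - e_i) x ∈ V_i`, `e_i x ∈ V_j` for `j ≠ i`.
Then the `e_i` are linearly independent over `E(x)`: a relation `∑ q_i(x) e_i = 0` with `q_i ∈ E[u]` not all divisible by `u`
(multiply by a power of `x` and by denominators; `E(x) = E(u)`), say `q_i(0) ≠ 0`: modulo the maximal ideal of `V_i` (which contains `u`,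
`1 - e_i`, `e_j` for `j ≠ i`) the relation reads `q_i(0) = 0`, contradiction. So `r ≤ m`.
`place_max`: `V ≤ W`, `Inf E x V`, `Inf E x W` imply `V = W`: otherwise take `a ∈ W`, `a ∉ V`; `a⁻¹ ∈ V.nonunits`, so `a⁻¹ ^ M * x ∈ V ≤ W` by
`rank_one`, so `x = a ^ M * (a⁻¹ ^ M * x) ∈ W`, contradiction.
`approx`: for `r` different places `V_i` and `k` there is `e` with `(1 - e) x^k ∈ V_0`, `e x^k ∈ V_i` for `i ≠ 0`. Proof: it suffices to find `c`
with `c⁻¹ ∈ V_0.nonunits`, `c ∈ V_i.nonunits` for all `i ≠ 0`; then `e = c^M / (1 + c^M)` for large `M` (`rank_one` for `c⁻¹` at `V_0`: `1 - e =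
c⁻¹^M / (1 + c⁻¹^M)`, and for `c` at `V_i`; `1 + (element of nonunits)` is a unit). Existence of `c` by induction on `r` (Artin-Whaples): `r = 2`: `a ∈ V_0 ∖ V_1`,
`b ∈ V_1 ∖ V_0` (place_max), `c = b / a`: `c⁻¹ = a / b`, `b⁻¹ ∈ V_0.nonunits`, so `c⁻¹ ∈ V_0.nonunits`; `c = b a⁻¹ ∈ V_1.nonunits`. Step: let `c` be good for `V_0; V_1..V_(r-1)` and
`d` good for `V_0; V_r`. If `c ∈ V_r`: `c^M d` for large `M` (good at `V_0`, `V_r`; at `V_i`: `c^M` beats the pole of `d`: `pole_bdd`,
`rank_one`). If `c ∉ V_r`: `(c^M / (1 + c^M)) d`: `c^M / (1 + c^M)` is a unit `= 1 - 1/(1 + c^M)` at `V_0` and at `V_r` and tends to `0` at `V_i`. -/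

namespace Pool.Agent.H82.NS

open Filter IntermediateField

theorem exists_place {E K : Type} [Field E] [Field K] [Algebra E K] {x : K} (hx : Transcendental E x) :
    ∃ V : ValuationSubring K, Inf E x V := by
  have hx0 : x ≠ 0 := by
    rintro rfl
    exact hx isAlgebraic_zero
  have hu : Transcendental E x⁻¹ := fun h => hx (IsAlgebraic.inv_iff.1 h)
  obtain ⟨A, hA⟩ : ∃ A : Subring K, A = (Polynomial.aeval (R := E) x⁻¹).range.toSubring := ⟨_, rfl⟩
  have hmem : ∀ y, y ∈ A ↔ ∃ p : Polynomial E, Polynomial.aeval x⁻¹ p = y := by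
    intro y
    rw [hA]
    exact Iff.rfl
  have huA : x⁻¹ ∈ A := (hmem _).2 ⟨Polynomial.X, Polynomial.aeval_X _⟩
  have hI : Ideal.span {(⟨x⁻¹, huA⟩ : A)} ≠ ⊤ := by
    intro h
    have h1 := (Ideal.eq_top_iff_one _).1 h
    obtain ⟨⟨a, ha⟩, h2⟩ := Ideal.mem_span_singleton'.1 h1
    obtain ⟨p, rfl⟩ := (hmem a).1 ha
    have h3 : Polynomial.aeval x⁻¹ p * x⁻¹ = 1 := congrArg Subtype.val h2
    have h4 : Polynomial.aeval x⁻¹ (p * Polynomial.X - 1) = 0 := by
      rw [map_sub, map_mul, Polynomial.aeval_X, h3, map_one, sub_self]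
    have h5 := transcendental_iff.1 hu _ h4
    have h6 := congrArg (Polynomial.eval 0) h5
    simp at h6
  obtain ⟨V, hV1, hV2⟩ := Ideal.image_subset_nonunits_valuationSubring _ hI
  refine ⟨V, fun e => hV1 ((hmem _).2 ⟨Polynomial.C e, Polynomial.aeval_C _ _⟩), ?_⟩
  have h1 : x⁻¹ ∈ V.nonunits := hV2 ⟨_, Ideal.subset_span rfl, rfl⟩
  exact (V.inv_mem_nonunits_iff.1 h1).resolve_left hx0

section

variable {E K : Type} [Field E] [Field K] [Algebra E K] {x : K}

private theorem plb_x0 {V : ValuationSubring K} (hV : Inf E x V) : x ≠ 0 := by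
  rintro rfl
  exact hV.pole V.zero_mem

private theorem plb_notMem (V : ValuationSubring K) (a : K) : a ∉ V ↔ 1 < V.valuation a := by
  rw [← V.valuation_le_one_iff, not_le]

end

theorem place_max {E K : Type} [Field E] [Field K] [Algebra E K] {x : K} (hK : FF E x)
    {V W : ValuationSubring K} (hV : Inf E x V) (hW : Inf E x W) (h : V ≤ W) : V = W := by
  by_contra hne
  obtain ⟨a, haW, haV⟩ : ∃ a, a ∈ W ∧ a ∉ V := by
    by_contra hc
    push Not at hc
    exact hne (le_antisymm h hc)
  have ha0 : a ≠ 0 := by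
    rintro rfl
    exact haV V.zero_mem
  have h1 : a⁻¹ ∈ V.nonunits := V.inv_mem_nonunits_iff.2 (Or.inr haV)
  obtain ⟨M, hM⟩ := rank_one hK hV h1 1
  have h2 : x = a ^ M * (a⁻¹ ^ M * x ^ 1) := by
    rw [← mul_assoc, ← mul_pow, mul_inv_cancel₀ ha0, one_pow, one_mul, pow_one]
  apply hW.pole
  rw [h2]
  exact mul_mem (pow_mem haW M) (h hM)

section

variable {E K : Type} [Field E] [Field K] [Algebra E K] {x : K}

private theorem plb_beat (hK : FF E x) {V : ValuationSubring K} (hV : Inf E x V) {c : K}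
    (hc : V.valuation c < 1) (d : K) : ∀ᶠ M : ℕ in atTop, V.valuation (c ^ M * d) < 1 := by
  obtain ⟨j, hj⟩ := pole_bdd hK hV d
  obtain ⟨M0, hM0⟩ := rank_one hK hV (V.mem_nonunits_iff.2 hc) j
  have hx0 := plb_x0 hV
  have h1 : c ^ M0 * d ∈ V := by
    have h2 : c ^ M0 * d = c ^ M0 * x ^ j * (d * x⁻¹ ^ j) := by
      have h3 : x ^ j * x⁻¹ ^ j = 1 := by rw [← mul_pow, mul_inv_cancel₀ hx0, one_pow]
      calc c ^ M0 * d = c ^ M0 * d * (x ^ j * x⁻¹ ^ j) := by rw [h3, mul_one]
        _ = c ^ M0 * x ^ j * (d * x⁻¹ ^ j) := by ring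
    rw [h2]
    exact mul_mem hM0 hj
  filter_upwards [eventually_ge_atTop (M0 + 1)] with M hM
  obtain ⟨m, rfl⟩ : ∃ m, M = (m + 1) + M0 := ⟨M - (M0 + 1), by omega⟩
  have h2 : c ^ (m + 1 + M0) * d = c ^ (m + 1) * (c ^ M0 * d) := by rw [pow_add]; ring
  rw [h2, map_mul, map_pow]
  calc V.valuation c ^ (m + 1) * V.valuation (c ^ M0 * d) ≤ V.valuation c ^ (m + 1) * 1 :=
        mul_le_mul' le_rfl ((V.valuation_le_one_iff _).2 h1)
    _ = V.valuation c ^ (m + 1) := mul_one _
    _ < 1 := pow_lt_one₀ zero_le hc (Nat.succ_ne_zero m)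

private theorem plb_two (hK : FF E x) {V W : ValuationSubring K} (hV : Inf E x V) (hW : Inf E x W)
    (hne : V ≠ W) : ∃ c, 1 < V.valuation c ∧ W.valuation c < 1 := by
  obtain ⟨a, haV, haW⟩ : ∃ a, a ∈ V ∧ a ∉ W := by
    by_contra hc
    push Not at hc
    exact hne (place_max hK hV hW hc)
  obtain ⟨b, hbW, hbV⟩ : ∃ b, b ∈ W ∧ b ∉ V := by
    by_contra hc
    push Not at hc
    exact hne (place_max hK hW hV hc).symm
  have ha0 : a ≠ 0 := by
    rintro rfl
    exact haW W.zero_mem
  refine ⟨b * a⁻¹, ?_, ?_⟩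
  · rw [map_mul, map_inv₀]
    have h1 : 1 ≤ (V.valuation a)⁻¹ := by
      rw [one_le_inv₀ (zero_lt_iff.2 ((V.valuation.ne_zero_iff).2 ha0))]
      exact (V.valuation_le_one_iff _).2 haV
    calc 1 < V.valuation b := (plb_notMem V b).1 hbV
      _ = V.valuation b * 1 := (mul_one _).symm
      _ ≤ V.valuation b * (V.valuation a)⁻¹ := mul_le_mul' le_rfl h1
  · rw [map_mul, map_inv₀]
    calc W.valuation b * (W.valuation a)⁻¹ ≤ 1 * (W.valuation a)⁻¹ :=
          mul_le_mul' ((W.valuation_le_one_iff _).2 hbW) le_rfl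
      _ = (W.valuation a)⁻¹ := one_mul _
      _ < 1 := inv_lt_one_of_one_lt₀ ((plb_notMem W a).1 haW)

private theorem plb_gt (V : ValuationSubring K) {c : K} (hc : 1 < V.valuation c) {M : ℕ} (hM : 1 ≤ M) :
    V.valuation (1 + c ^ M) = V.valuation (c ^ M) := by
  apply Valuation.map_add_eq_of_lt_right
  rw [map_one, map_pow]
  exact one_lt_pow₀ hc (by omega)

private theorem plb_lt (V : ValuationSubring K) {c : K} (hc : V.valuation c < 1) {M : ℕ} (hM : 1 ≤ M) :
    V.valuation (1 + c ^ M) = 1 := by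
  have h1 : V.valuation (1 + c ^ M) = V.valuation 1 := by
    apply Valuation.map_add_eq_of_lt_left
    rw [map_one, map_pow]
    exact pow_lt_one₀ zero_le hc (by omega)
  rw [h1, map_one]

private theorem plb_sep (hK : FF E x) {V0 : ValuationSubring K} (hV0 : Inf E x V0)
    (S : Finset (ValuationSubring K)) (hS : ∀ W ∈ S, Inf E x W ∧ W ≠ V0) :
    ∃ c, 1 < V0.valuation c ∧ ∀ W ∈ S, W.valuation c < 1 := by
  classical
  induction S using Finset.induction_on with
  | empty => exact ⟨x, (plb_notMem V0 x).1 hV0.pole, fun W hW => absurd hW (Finset.notMem_empty W)⟩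
  | insert W S hWS ih =>
    obtain ⟨c, hc0, hcS⟩ := ih fun U hU => hS U (Finset.mem_insert_of_mem hU)
    obtain ⟨hW, hWne⟩ := hS W (Finset.mem_insert_self W S)
    obtain ⟨d, hd0, hdW⟩ := plb_two hK hV0 hW hWne.symm
    have hev : ∀ᶠ M : ℕ in atTop, ∀ U ∈ S, U.valuation (c ^ M * d) < 1 := by
      rw [Filter.eventually_all_finset]
      intro U hU
      exact plb_beat hK (hS U (Finset.mem_insert_of_mem hU)).1 (hcS U hU) d
    by_cases hcW : W.valuation c ≤ 1
    · obtain ⟨M, hM⟩ := hev.exists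
      refine ⟨c ^ M * d, ?_, ?_⟩
      · rw [map_mul, map_pow]
        calc 1 < V0.valuation d := hd0
          _ = 1 * V0.valuation d := (one_mul _).symm
          _ ≤ V0.valuation c ^ M * V0.valuation d := mul_le_mul' (one_le_pow₀ hc0.le) le_rfl
      · intro U hU
        rcases Finset.mem_insert.1 hU with rfl | hU'
        · rw [map_mul, map_pow]
          calc U.valuation c ^ M * U.valuation d ≤ 1 * U.valuation d :=
                mul_le_mul' (pow_le_one₀ zero_le hcW) le_rfl
            _ = U.valuation d := one_mul _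
            _ < 1 := hdW
        · exact hM U hU'
    · rw [not_le] at hcW
      obtain ⟨M, hM, hM1⟩ := (hev.and (eventually_ge_atTop 1)).exists
      refine ⟨c ^ M / (1 + c ^ M) * d, ?_, ?_⟩
      · have h1 : V0.valuation (c ^ M) ≠ 0 := by
          rw [map_pow]
          exact pow_ne_zero _ (ne_of_gt (lt_trans zero_lt_one hc0))
        rw [map_mul, map_div₀, plb_gt V0 hc0 hM1, div_self h1, one_mul]
        exact hd0
      · intro U hU
        rcases Finset.mem_insert.1 hU with rfl | hU'
        · have h1 : U.valuation (c ^ M) ≠ 0 := by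
            rw [map_pow]
            exact pow_ne_zero _ (ne_of_gt (lt_trans zero_lt_one hcW))
          rw [map_mul, map_div₀, plb_gt U hcW hM1, div_self h1, one_mul]
          exact hdW
        · rw [map_mul, map_div₀, plb_lt U (hcS U hU') hM1, div_one, ← map_mul]
          exact hM U hU'

end

theorem approx {E K : Type} [Field E] [Field K] [Algebra E K] {x : K} (hK : FF E x) {r : ℕ}
    (V : Fin (r + 1) → ValuationSubring K) (hV : ∀ i, Inf E x (V i)) (hinj : Function.Injective V) (k : ℕ) :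
    ∃ e : K, (1 - e) * x ^ k ∈ V 0 ∧ ∀ i, i ≠ 0 → e * x ^ k ∈ V i := by
  classical
  obtain ⟨c, hc0, hc⟩ := plb_sep hK (hV 0) ((Finset.univ.erase 0).image V) (by
    intro W hW
    obtain ⟨i, hi, rfl⟩ := Finset.mem_image.1 hW
    exact ⟨hV i, fun h => (Finset.ne_of_mem_erase hi) (hinj h)⟩)
  have hci : ∀ i, i ≠ 0 → (V i).valuation c < 1 := fun i hi =>
    hc _ (Finset.mem_image_of_mem V (Finset.mem_erase.2 ⟨hi, Finset.mem_univ i⟩))
  have hc00 : c ≠ 0 := by
    rintro rfl
    rw [map_zero] at hc0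
    exact absurd hc0 (not_lt.2 zero_le)
  have hcinv : (V 0).valuation c⁻¹ < 1 := by
    rw [map_inv₀]
    exact inv_lt_one_of_one_lt₀ hc0
  have h1 : ∀ᶠ M : ℕ in atTop, ∀ i ∈ Finset.univ.erase (0 : Fin (r + 1)),
      (V i).valuation (c ^ M * x ^ k) < 1 := by
    rw [Filter.eventually_all_finset]
    intro i hi
    exact plb_beat hK (hV i) (hci i (Finset.ne_of_mem_erase hi)) _
  obtain ⟨M, hM, hM0, hM1⟩ := (h1.and ((plb_beat hK (hV 0) hcinv (x ^ k)).and
    (eventually_ge_atTop 1))).exists
  have hv0 := plb_gt (V 0) hc0 hM1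
  have hne : 1 + c ^ M ≠ 0 := by
    intro h
    rw [h, map_zero, map_pow] at hv0
    exact pow_ne_zero M (ne_of_gt (lt_trans zero_lt_one hc0)) hv0.symm
  refine ⟨c ^ M / (1 + c ^ M), ?_, fun i hi => ?_⟩
  · rw [← (V 0).valuation_le_one_iff]
    have h2 : 1 - c ^ M / (1 + c ^ M) = (1 + c ^ M)⁻¹ := by
      field_simp
      ring
    rw [h2, map_mul, map_inv₀, hv0, ← map_inv₀, ← map_mul, ← inv_pow]
    exact hM0.le
  · rw [← (V i).valuation_le_one_iff, map_mul, map_div₀, plb_lt (V i) (hci i hi) hM1, div_one,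
      ← map_mul]
    exact (hM i (Finset.mem_erase.2 ⟨hi, Finset.mem_univ i⟩)).le

section

variable {E K : Type} [Field E] [Field K] [Algebra E K] {x : K}

private theorem plb_const {V : ValuationSubring K} (hV : Inf E x V) {e : E} (he : e ≠ 0) :
    V.valuation (algebraMap E K e) = 1 := by
  apply le_antisymm
  · exact (V.valuation_le_one_iff _).2 (hV.base e)
  · have h1 := (V.valuation_le_one_iff _).2 (hV.base e⁻¹)
    rw [map_inv₀, map_inv₀] at h1
    have h2 : V.valuation (algebraMap E K e) ≠ 0 := (V.valuation.ne_zero_iff).2 ((map_ne_zero _).2 he)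
    exact (inv_le_one₀ (zero_lt_iff.2 h2)).1 h1

private theorem plb_poly {V : ValuationSubring K} (hV : Inf E x V) {p : Polynomial E} (hp : p ≠ 0) :
    V.valuation (Polynomial.aeval x p) = V.valuation x ^ p.natDegree := by
  have hx1 : 1 < V.valuation x := (plb_notMem V x).1 hV.pole
  rw [Polynomial.aeval_eq_sum_range, Finset.sum_range_succ]
  have hlast : V.valuation (p.coeff p.natDegree • x ^ p.natDegree) = V.valuation x ^ p.natDegree := by
    rw [Algebra.smul_def, map_mul, map_pow, plb_const hV (by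
      rw [Polynomial.coeff_natDegree]
      exact Polynomial.leadingCoeff_ne_zero.2 hp), one_mul]
  rw [Valuation.map_add_eq_of_lt_right, hlast]
  rw [hlast]
  apply Valuation.map_sum_lt
  · exact pow_ne_zero _ (ne_of_gt (lt_trans zero_lt_one hx1))
  · intro i hi
    rw [Algebra.smul_def, map_mul, map_pow]
    calc V.valuation (algebraMap E K (p.coeff i)) * V.valuation x ^ i ≤ 1 * V.valuation x ^ i :=
          mul_le_mul' ((V.valuation_le_one_iff _).2 (hV.base _)) le_rfl
      _ = V.valuation x ^ i := one_mul _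
      _ < V.valuation x ^ p.natDegree := pow_lt_pow_right₀ hx1 (Finset.mem_range.1 hi)

/-- the places at infinity agree on `E(x)` -/
private theorem plb_same {V W : ValuationSubring K} (hV : Inf E x V) (hW : Inf E x W) {q : K}
    (hq : q ∈ E⟮x⟯) (h : q ∈ V) : q ∈ W := by
  rw [IntermediateField.mem_adjoin_simple_iff] at hq
  obtain ⟨p, s, rfl⟩ := hq
  by_cases hs : s = 0
  · rw [hs, map_zero, div_zero]
    exact W.zero_mem
  by_cases hp : p = 0
  · rw [hp, map_zero, zero_div]
    exact W.zero_mem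
  have hx1 : 1 < V.valuation x := (plb_notMem V x).1 hV.pole
  have hx2 : 1 < W.valuation x := (plb_notMem W x).1 hW.pole
  rw [← V.valuation_le_one_iff, map_div₀, plb_poly hV hp, plb_poly hV hs,
    div_le_one₀ (pow_pos (lt_trans zero_lt_one hx1) _), pow_le_pow_iff_right₀ hx1] at h
  rw [← W.valuation_le_one_iff, map_div₀, plb_poly hW hp, plb_poly hW hs,
    div_le_one₀ (pow_pos (lt_trans zero_lt_one hx2) _), pow_le_pow_iff_right₀ hx2]
  exact h

end

theorem places_finite {E K : Type} [Field E] [Field K] [Algebra E K] {x : K} (hK : FF E x) :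
    {V : ValuationSubring K | Inf E x V}.Finite := by
  classical
  have _ := hK.fin
  obtain ⟨m, hm⟩ : ∃ m, m = Module.finrank E⟮x⟯ K := ⟨_, rfl⟩
  by_contra hinf
  obtain ⟨V, hVinj, hV⟩ : ∃ V : Fin (m + 1) → ValuationSubring K, Function.Injective V ∧
      ∀ i, Inf E x (V i) := by
    have h1 := Set.Infinite.natEmbedding _ hinf
    exact ⟨fun i => (h1 (i : ℕ)).1, fun i j h => Fin.ext (h1.injective (Subtype.ext h)),
      fun i => (h1 (i : ℕ)).2⟩
  -- the elements `e i`
  have hex : ∀ i : Fin (m + 1), ∃ e : K, (1 - e) * x ^ 1 ∈ V i ∧ ∀ j, j ≠ i → e * x ^ 1 ∈ V j := by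
    intro i
    obtain ⟨e, h1, h2⟩ := approx hK (V ∘ Equiv.swap 0 i) (fun j => hV _)
      (hVinj.comp (Equiv.swap 0 i).injective) 1
    refine ⟨e, ?_, fun j hj => ?_⟩
    · rw [Function.comp_apply, Equiv.swap_apply_left] at h1
      exact h1
    · have h3 := h2 (Equiv.swap 0 i j) (by
        intro h
        apply hj
        have h4 := congrArg (Equiv.swap 0 i) h
        rw [Equiv.swap_apply_self, Equiv.swap_apply_left] at h4
        exact h4)
      rw [Function.comp_apply, Equiv.swap_apply_self] at h3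
      exact h3
  choose e he1 he2 using hex
  have hdiv : ∀ (W : ValuationSubring K), Inf E x W → ∀ y, y * x ^ 1 ∈ W → W.valuation y < 1 := by
    intro W hW y hy
    have hx1 : 1 < W.valuation x := (plb_notMem W x).1 hW.pole
    rw [pow_one, ← W.valuation_le_one_iff, map_mul] at hy
    by_contra hc
    rw [not_lt] at hc
    have h1 : 1 < W.valuation y * W.valuation x := by
      calc 1 < W.valuation x := hx1
        _ = 1 * W.valuation x := (one_mul _).symm
        _ ≤ W.valuation y * W.valuation x := mul_le_mul' hc le_rfl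
    exact absurd hy (not_le.2 h1)
  have hlin : LinearIndependent E⟮x⟯ e := by
    rw [Fintype.linearIndependent_iff]
    intro q hq
    by_contra hcon
    push Not at hcon
    obtain ⟨i1, hi1⟩ := hcon
    obtain ⟨i0, -, hi0⟩ := Finset.exists_max_image Finset.univ
      (fun i => (V 0).valuation (q i : K)) ⟨0, Finset.mem_univ _⟩
    have hq0 : (q i0 : K) ≠ 0 := by
      intro h0
      have h1 := hi0 i1 (Finset.mem_univ _)
      rw [h0, map_zero] at h1
      have h2 : (V 0).valuation (q i1 : K) = 0 := le_antisymm h1 zero_le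
      have h3 := (Valuation.zero_iff _).1 h2
      exact hi1 (Subtype.ext h3)
    have hqi : ∀ i j, (q i : K) / (q i0 : K) ∈ V j := by
      intro i j
      refine plb_same (hV 0) (hV j) (div_mem (q i).2 (q i0).2) ?_
      rw [← (V 0).valuation_le_one_iff, map_div₀,
        div_le_one₀ (zero_lt_iff.2 ((Valuation.ne_zero_iff _).2 hq0))]
      exact hi0 i (Finset.mem_univ i)
    have hsum : ∑ i, (q i : K) / (q i0 : K) * e i = 0 := by
      have h1 : ∑ i, (q i : K) * e i = 0 := hq
      have h2 : ∑ i, (q i : K) / (q i0 : K) * e i = (∑ i, (q i : K) * e i) / (q i0 : K) := by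
        rw [Finset.sum_div]
        exact Finset.sum_congr rfl fun i _ => by ring
      rw [h2, h1, zero_div]
    rw [← Finset.add_sum_erase _ _ (Finset.mem_univ i0), div_self hq0, one_mul] at hsum
    have h1 : (V i0).valuation (∑ i ∈ Finset.univ.erase i0, (q i : K) / (q i0 : K) * e i) < 1 := by
      apply Valuation.map_sum_lt _ one_ne_zero
      intro i hi
      rw [map_mul]
      calc (V i0).valuation ((q i : K) / (q i0 : K)) * (V i0).valuation (e i)
          ≤ 1 * (V i0).valuation (e i) :=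
            mul_le_mul' (((V i0).valuation_le_one_iff _).2 (hqi i i0)) le_rfl
        _ = (V i0).valuation (e i) := one_mul _
        _ < 1 := hdiv _ (hV i0) _ (he2 i i0 (Finset.ne_of_mem_erase hi).symm)
    have h2 : (V i0).valuation (1 - e i0) < 1 := hdiv _ (hV i0) _ (he1 i0)
    have h3 : (1 : K) = (1 - e i0) + -(∑ i ∈ Finset.univ.erase i0, (q i : K) / (q i0 : K) * e i) := by
      rw [eq_neg_of_add_eq_zero_right hsum]
      ring
    have h4 : (V i0).valuation (1 : K) < 1 := by
      rw [h3]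
      refine Valuation.map_add_lt _ h2 ?_
      rw [Valuation.map_neg]
      exact h1
    rw [map_one] at h4
    exact lt_irrefl _ h4
  have h5 := hlin.fintype_card_le_finrank
  rw [Fintype.card_fin, ← hm] at h5
  omega

end Pool.Agent.H82.NS
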