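import Pool.Agent.H13.RI.H
namespace Pool.Agent.H82.NS
open Filter IntermediateField
theorem ri {E K : Type} [Field E] [CharZero E] [Field K] [Algebra E K] (x : K) (hK : FF E x)
    (V0 V1 : ValuationSubring K) (h0 : Inf E x V0) (h1 : Inf E x V1) (hne : V0 ≠ V1) :
    ∃ g ∈ V0, IsIntegral (Algebra.adjoin E {x}) g ∧ Transcendental E g :=
  Pool.Agent.H13.RI.ri x hK V0 V1 h0 h1 hne
end Pool.Agent.H82.NS
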