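import Pool.Agent.H82.NS.Def
import Pool.Agent.H98.SI.Stmt

/-! # [H82 NS TRA] transfer tools: algebraic closedness, evaluation, Laurent polynomials

`alg_closed_ult`: a monic polynomial of degree `d ≥ 1` over `QbS` has coefficients `cl (a_i)`; for every `N` choose a root in `Qb` of `T^d + ∑ a_i(N) T^i`.
(`IsAlgClosed.of_exists_root`.) `alg_closed_bar`: algebraic closure inside an algebraically closed field (Mathlib).

`eval_ult`: `MvPolynomial.eval₂` of a polynomial of total degree `≤ n` in two variables is the sum over `i, j ≤ n` of its terms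
(`MvPolynomial.eval₂_eq'` or `as_sum`; coefficients outside are zero); then `cl_add, cl_mul` (finite sums and powers of classes are classes).

`scope_tr`: ring homomorphism `J : LaurentPolynomial QbS → Ult (LaurentPolynomial Qb)` with `J (C (cl a)) = cl (C (a N))` and `J (T k) = cl (T k)` (`LaurentPolynomial.eval₂` with
`germMap C` and the unit `cl (T 1)`). If `X = ∑ C (cl a_k) T k` then `J X = cl (X_N)`, `X_N = ∑ C (a_k(N)) T k`. By `eval_ult` for `S = LaurentPolynomial Qb` and the hypothesis the class of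
`eval₂ .. ![X_N, Y_N] (F N)` is zero, so for almost all `N` it is zero, and `Scope (F N)` gives `X_N = C a`, `Y_N = C b`: the coefficients `a_k(N)`, `k ≠ 0`, are
zero for almost all `N`, for each of the finitely many `k` in the support of `X`, so `X = C _`; the same for `Y`. -/

namespace Pool.Agent.H82.NS

open Filter IntermediateField

private noncomputable def clH (R : Type*) [CommRing R] : (ℕ → R) →+* Ult R where
  toFun := cl
  map_one' := rfl
  map_zero' := rfl
  map_mul' := fun _ _ => rfl
  map_add' := fun _ _ => rfl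

private theorem clH_apply {R : Type*} [CommRing R] (f : ℕ → R) : clH R f = cl f := rfl

private theorem cl_pow' {R : Type*} [CommRing R] (f : ℕ → R) (n : ℕ) :
    cl f ^ n = cl (fun N => f N ^ n) := by
  rw [← clH_apply, ← map_pow]; rfl

private theorem cl_sum' {R ι : Type*} [CommRing R] (s : Finset ι) (f : ι → ℕ → R) :
    ∑ i ∈ s, cl (f i) = cl (fun N => ∑ i ∈ s, f i N) := by
  have : ∑ i ∈ s, cl (f i) = clH R (∑ i ∈ s, f i) := by
    rw [map_sum]; rfl
  rw [this, clH_apply]
  congr 1
  funext N
  simp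

theorem alg_closed_ult : IsAlgClosed QbS := by
  refine IsAlgClosed.of_exists_root _ fun p hmon hirr => ?_
  have hd : 0 < p.natDegree := hirr.natDegree_pos
  choose f hf using fun i : ℕ => cl_surj (p.coeff i)
  have hroot : ∀ N : ℕ, ∃ z : Qb, z ^ p.natDegree + ∑ i ∈ Finset.range p.natDegree, f i N * z ^ i = 0 := by
    intro N
    let P : Polynomial Qb := Polynomial.X ^ p.natDegree +
      ∑ i ∈ Finset.range p.natDegree, Polynomial.C (f i N) * Polynomial.X ^ i
    have hlt : (∑ i ∈ Finset.range p.natDegree, Polynomial.C (f i N) * Polynomial.X ^ i : Polynomial Qb).degree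
        < (p.natDegree : WithBot ℕ) := by
      refine (Polynomial.degree_sum_le _ _).trans_lt ?_
      rw [Finset.sup_lt_iff (WithBot.bot_lt_coe _)]
      intro i hi
      refine (Polynomial.degree_C_mul_X_pow_le _ _).trans_lt ?_
      exact_mod_cast Finset.mem_range.mp hi
    have hP : P.degree = (p.natDegree : WithBot ℕ) := by
      have h1 : (Polynomial.X ^ p.natDegree : Polynomial Qb).degree = (p.natDegree : WithBot ℕ) :=
        Polynomial.degree_X_pow _
      change (Polynomial.X ^ p.natDegree + _ : Polynomial Qb).degree = _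
      rw [Polynomial.degree_add_eq_left_of_degree_lt (by rw [h1]; exact hlt), h1]
    obtain ⟨z, hz⟩ := IsAlgClosed.exists_root P (by rw [hP]; exact_mod_cast hd.ne')
    refine ⟨z, ?_⟩
    have := hz
    simp only [Polynomial.IsRoot.def, P, Polynomial.eval_add, Polynomial.eval_pow, Polynomial.eval_X,
      Polynomial.eval_finsetSum, Polynomial.eval_mul, Polynomial.eval_C] at this
    exact this
  choose z hz using hroot
  refine ⟨cl z, ?_⟩
  rw [Polynomial.eval_eq_sum_range, Finset.sum_range_succ]
  have h1 : p.coeff p.natDegree = 1 := hmon.coeff_natDegree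
  rw [h1, one_mul]
  have h2 : ∑ i ∈ Finset.range p.natDegree, p.coeff i * cl z ^ i =
      cl (fun N => ∑ i ∈ Finset.range p.natDegree, f i N * z N ^ i) := by
    rw [← cl_sum']
    refine Finset.sum_congr rfl fun i _ => ?_
    rw [hf i, cl_pow', cl_mul]
  rw [h2, cl_pow', cl_add, cl_zero]
  congr 1
  funext N
  rw [add_comm]
  exact hz N

theorem alg_closed_bar (H : ℕ → ℕ) : IsAlgClosed (Q0bar H) := by
  have h1 : IsAlgClosed QbS := alg_closed_ult
  have h2 : IsAlgClosure (Q0 H) (algebraicClosure (Q0 H) QbS) := inferInstance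
  exact h2.isAlgClosed

/-- the class of the coefficient of `x^i y^j` -/
noncomputable def cof (S : Type) [CommRing S] (F : ℕ → MvPolynomial (Fin 2) ℤ) (i j : ℕ) : Ult S :=
  cl (fun N => ((MvPolynomial.coeff (Finsupp.single 0 i + Finsupp.single 1 j) (F N) : ℤ) : S))

private theorem eval₂_two {S : Type} [CommRing S] (n : ℕ) (F : MvPolynomial (Fin 2) ℤ)
    (hF : F.totalDegree ≤ n) (X Y : S) :
    MvPolynomial.eval₂ (Int.castRingHom S) ![X, Y] F =
      ∑ i ∈ Finset.range (n + 1), ∑ j ∈ Finset.range (n + 1),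
        ((MvPolynomial.coeff (Finsupp.single 0 i + Finsupp.single 1 j) F : ℤ) : S) * X ^ i * Y ^ j := by
  classical
  rw [MvPolynomial.eval₂_eq', ← Finset.sum_product']
  let e : ℕ × ℕ → (Fin 2 →₀ ℕ) := fun p => Finsupp.single 0 p.1 + Finsupp.single 1 p.2
  have he0 : ∀ p, e p 0 = p.1 := fun p => by simp [e]
  have he1 : ∀ p, e p 1 = p.2 := fun p => by simp [e]
  have hinj : Function.Injective e := by
    intro p q h
    ext
    · rw [← he0 p, ← he0 q, h]
    · rw [← he1 p, ← he1 q, h]
  have hsub : F.support ⊆ (Finset.range (n + 1) ×ˢ Finset.range (n + 1)).image e := by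
    intro d hd
    rw [Finset.mem_image]
    refine ⟨(d 0, d 1), ?_, ?_⟩
    · have h1 := MvPolynomial.le_totalDegree hd
      have h2 : d.sum (fun _ e => e) = d 0 + d 1 := by
        rw [Finsupp.sum_fintype _ _ (fun _ => rfl)]
        simp [Fin.sum_univ_two]
      rw [h2] at h1
      simp only [Finset.mem_product, Finset.mem_range]
      omega
    · ext i
      fin_cases i <;> simp [e]
  rw [Finset.sum_subset hsub, Finset.sum_image (fun a _ b _ h => hinj h)]
  · refine Finset.sum_congr rfl fun p _ => ?_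
    rw [Fin.prod_univ_two]
    simp only [Matrix.cons_val_zero, Matrix.cons_val_one, he0, he1]
    rw [← mul_assoc]
    rfl
  · intro d _ hd
    rw [MvPolynomial.notMem_support_iff.mp hd]
    simp

theorem eval_ult {S : Type} [CommRing S] (n : ℕ) (F : ℕ → MvPolynomial (Fin 2) ℤ)
    (hF : ∀ N, (F N).totalDegree ≤ n) (X Y : ℕ → S) :
    cl (fun N => MvPolynomial.eval₂ (Int.castRingHom S) ![X N, Y N] (F N)) =
      ∑ i ∈ Finset.range (n + 1), ∑ j ∈ Finset.range (n + 1), cof S F i j * cl X ^ i * cl Y ^ j := by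
  have h1 : ∀ i j, cof S F i j * cl X ^ i * cl Y ^ j =
      cl (fun N => ((MvPolynomial.coeff (Finsupp.single 0 i + Finsupp.single 1 j) (F N) : ℤ) : S) *
        X N ^ i * Y N ^ j) := by
    intro i j
    rw [cof, cl_pow', cl_pow', cl_mul, cl_mul]
  simp only [h1, cl_sum']
  congr 1
  funext N
  exact eval₂_two n (F N) (hF N) (X N) (Y N)

private noncomputable def gT : Multiplicative ℤ →* Ult (LaurentPolynomial Qb) where
  toFun k := cl (fun _ => LaurentPolynomial.T k.toAdd)
  map_one' := by
    rw [cl_one]; congr 1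
  map_mul' := by
    intro a b
    rw [cl_mul]; congr 1; funext N
    rw [toAdd_mul, LaurentPolynomial.T_add]

private noncomputable def J : LaurentPolynomial QbS →+* Ult (LaurentPolynomial Qb) :=
  AddMonoidAlgebra.liftNCRingHom (germMap (LaurentPolynomial.C : Qb →+* LaurentPolynomial Qb)) gT
    (fun _ _ => Commute.all _ _)

private theorem J_CT (a : ℕ → Qb) (k : ℤ) :
    J (LaurentPolynomial.C (cl a) * LaurentPolynomial.T k) =
      cl (fun N => LaurentPolynomial.C (a N) * LaurentPolynomial.T k) := by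
  rw [← LaurentPolynomial.single_eq_C_mul_T]
  exact AddMonoidAlgebra.liftNCRingHom_single _ _ _ _ _

private theorem J_C (a : ℕ → Qb) :
    J (LaurentPolynomial.C (cl a)) = cl (fun N => LaurentPolynomial.C (a N)) := by
  have := J_CT a 0
  simpa using this

private theorem J_sum (X : LaurentPolynomial QbS) (a : ℤ → ℕ → Qb) (ha : ∀ k, X.coeff k = cl (a k)) :
    J X = cl (fun N => ∑ k ∈ X.coeff.support, LaurentPolynomial.C (a k N) * LaurentPolynomial.T k) := by
  have h1 : X = ∑ k ∈ X.coeff.support, LaurentPolynomial.C (cl (a k)) * LaurentPolynomial.T k := by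
    conv_lhs => rw [← AddMonoidAlgebra.sum_coeff_single X]
    rw [Finsupp.sum]
    refine Finset.sum_congr rfl fun k _ => ?_
    rw [← LaurentPolynomial.single_eq_C_mul_T, ha k]
  conv_lhs => rw [h1]
  rw [map_sum]
  simp only [J_CT, cl_sum']

private theorem const_of (X : LaurentPolynomial QbS) (a : ℤ → ℕ → Qb) (ha : ∀ k, X.coeff k = cl (a k))
    (h : ∀ᶠ N in UU, ∃ c : Qb, (∑ k ∈ X.coeff.support, LaurentPolynomial.C (a k N) * LaurentPolynomial.T k :
      LaurentPolynomial Qb) = LaurentPolynomial.C c) :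
    ∃ c : QbS, X = LaurentPolynomial.C c := by
  classical
  have h0 : ∀ k : ℤ, k ≠ 0 → X.coeff k = 0 := by
    intro k hk
    by_contra hne
    have hks : k ∈ X.coeff.support := Finsupp.mem_support_iff.mpr hne
    apply hne
    rw [ha k, cl_zero, cl_eq]
    filter_upwards [h] with N hN
    obtain ⟨c, hc⟩ := hN
    have h2 := congrArg (fun p : LaurentPolynomial Qb => p.coeff k) hc
    simp only [← LaurentPolynomial.single_eq_C_mul_T] at h2
    have h3 : (∑ l ∈ X.coeff.support, AddMonoidAlgebra.single l (a l N) : LaurentPolynomial Qb).coeff k = a k N := by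
      rw [AddMonoidAlgebra.coeff_sum, Finsupp.finsetSum_apply, Finset.sum_eq_single k]
      · rw [AddMonoidAlgebra.coeff_single, Finsupp.single_eq_same]
      · intro l _ hl
        rw [AddMonoidAlgebra.coeff_single, Finsupp.single_eq_of_ne hl.symm]
      · intro h; exact absurd hks h
    have h4 : (LaurentPolynomial.C c : LaurentPolynomial Qb).coeff k = 0 := by
      rw [LaurentPolynomial.C_apply]
      simp [hk]
    exact h3.symm.trans (h2.trans h4)
  refine ⟨X.coeff 0, ?_⟩
  ext k
  rw [LaurentPolynomial.C_apply]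
  by_cases hk : k = 0
  · subst hk; simp
  · rw [h0 k hk]; simp [hk]

theorem scope_tr (n : ℕ) (F : ℕ → MvPolynomial (Fin 2) ℤ) (hF : ∀ N, (F N).totalDegree ≤ n)
    (hs : ∀ N, Pool.Agent.H98.SI.Scope (F N)) (X Y : LaurentPolynomial QbS)
    (h : ∑ i ∈ Finset.range (n + 1), ∑ j ∈ Finset.range (n + 1),
      LaurentPolynomial.C (cof Qb F i j) * X ^ i * Y ^ j = 0) :
    ∃ a b : QbS, X = LaurentPolynomial.C a ∧ Y = LaurentPolynomial.C b := by
  choose a ha using fun k : ℤ => cl_surj (X.coeff k)
  choose b hb using fun k : ℤ => cl_surj (Y.coeff k)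
  set XN : ℕ → LaurentPolynomial Qb := fun N => ∑ k ∈ X.coeff.support, LaurentPolynomial.C (a k N) * LaurentPolynomial.T k
    with hXN
  set YN : ℕ → LaurentPolynomial Qb := fun N => ∑ k ∈ Y.coeff.support, LaurentPolynomial.C (b k N) * LaurentPolynomial.T k
    with hYN
  have hJX : J X = cl XN := J_sum X a ha
  have hJY : J Y = cl YN := J_sum Y b hb
  have h1 := congrArg J h
  rw [map_zero, map_sum] at h1
  have h2 : ∀ i j, J (LaurentPolynomial.C (cof Qb F i j) * X ^ i * Y ^ j) =
      cof (LaurentPolynomial Qb) F i j * cl XN ^ i * cl YN ^ j := by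
    intro i j
    rw [map_mul, map_mul, map_pow, map_pow, hJX, hJY, cof, J_C]
    congr 3
  have h3 : ∑ i ∈ Finset.range (n + 1), ∑ j ∈ Finset.range (n + 1),
      cof (LaurentPolynomial Qb) F i j * cl XN ^ i * cl YN ^ j = 0 := by
    rw [← h1]
    refine Finset.sum_congr rfl fun i _ => ?_
    rw [map_sum]
    exact Finset.sum_congr rfl fun j _ => (h2 i j).symm
  rw [← eval_ult n F hF XN YN, cl_zero, cl_eq] at h3
  have h4 : ∀ᶠ N in UU, ∃ c d : Qb, XN N = LaurentPolynomial.C c ∧ YN N = LaurentPolynomial.C d := by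
    filter_upwards [h3] with N hN
    exact hs N (XN N) (YN N) hN
  obtain ⟨c, hc⟩ := const_of X a ha (by
    filter_upwards [h4] with N hN
    obtain ⟨c, d, h5, h6⟩ := hN
    exact ⟨c, h5⟩)
  obtain ⟨d, hd⟩ := const_of Y b hb (by
    filter_upwards [h4] with N hN
    obtain ⟨c, d, h5, h6⟩ := hN
    exact ⟨d, h6⟩)
  exact ⟨c, d, hc, hd⟩

end Pool.Agent.H82.NS
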