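import Pool.Agent.H51.CWF.Ff

/-! # [H82 NS CWF] Chevalley-Weil inside the frame -/

namespace Pool.Agent.H82.NS

open Filter IntermediateField

theorem cwf (H : ℕ → ℕ) (x y : QS) (hx : x ∈ ZS) (hy : y ∈ ZS) (l : ℕ) (hl : 1 ≤ l) (f f' p A B : QbS)
    (hm : ∀ z ∈ ({f, f', p, A, B} : Set QbS),
      z ∈ IntermediateField.adjoin (Q0bar H) ({algebraMap QS QbS x, algebraMap QS QbS y} : Set QbS))
    (hi : ∀ z ∈ ({f, f', A, B} : Set QbS), IsIntegral (Algebra.adjoin (Q0bar H) {algebraMap QS QbS x}) z)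
    (hf : f ≠ 0) (hAB : A * f + B * f' = 1) (hfp : f' = f * p ^ l) :
    ∃ c ∈ Q0bar H, c ≠ 0 ∧ ∃ v : QbS, v ^ l = c * f ∧ ∃ θ ∈ Q0bar H, v ∈ IntermediateField.adjoin QS {θ} :=
  Pool.Agent.H51.CWF.cwf_main H x y hx l hl f f' p A B hm hi hf hAB hfp

end Pool.Agent.H82.NS
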