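import Pool.Agent.H82.NS.OneP

/-! # [H82 NS E1K] from the certificate in the one point ring to the intrinsic form in the function field -/

namespace Pool.Agent.H82.NS

open Filter IntermediateField

/-- the final theorem of E1 (helper26) as a proposition -/
def E1Prop : Prop :=
  ∀ (k R : Type) [Field k] [IsAlgClosed k] [CharZero k] [CommRing R] [IsDomain R] [IsIntegrallyClosed R] [Algebra k R]
    (dg : R → ℕ), Pool.H93.OP.OnePt k dg → (Pool.H93.OP.Gaps dg).Nonempty →
    ∃ (l : ℕ) (f f' eta A B : R), l.Prime ∧ 3 ≤ l ∧ Pool.H93.OP.Cert dg l f f' eta A B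

theorem e1k (h1 : E1Prop) {E K : Type} [Field E] [IsAlgClosed E] [CharZero E] [Field K] [Algebra E K] (x : K)
    (hK : FF E x) : (∃ s : K, E⟮s⟯ = ⊤) ∨ ∃ (l : ℕ) (f : K), l.Prime ∧ 3 ≤ l ∧ f ≠ 0 ∧ (∀ h : K, f ≠ h ^ l) ∧
      ∀ V : ValuationSubring K, (∀ e : E, algebraMap E K e ∈ V) → ∃ s : K, s ≠ 0 ∧ f * s ^ l ∈ V ∧ (f * s ^ l)⁻¹ ∈ V := by
  obtain ⟨R, dg, Vo, hO, hic, hfr, hint, hVo, hpl, hdg, hone⟩ := one_point x hK
  by_cases h1g : (1 : ℕ) ∈ Pool.H93.OP.Gaps dg
  swap
  · left
    apply hone
    have h2 : ∃ a : R, a ≠ 0 ∧ dg a = 1 := by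
      by_contra hcon
      push Not at hcon
      exact h1g (fun a ha => hcon a ha)
    obtain ⟨a, -, ha⟩ := h2
    exact ⟨a, ha⟩
  right
  obtain ⟨l, f, f', eta, A, B, hl, hl3, heta, hAB, d, hd, hfd⟩ := h1 E R dg hO ⟨1, h1g⟩
  have hl0 : l ≠ 0 := hl.ne_zero
  -- degree of one
  have hdg1 : dg 1 = 0 := by
    have := hO.mul 1 1 one_ne_zero one_ne_zero
    rw [one_mul] at this
    omega
  have hd0 : d ≠ 0 := by
    rintro rfl
    exact hd 1 one_ne_zero hdg1
  have hf0 : f ≠ 0 := by
    rintro rfl
    rw [hO.zero] at hfd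
    rcases Nat.mul_eq_zero.mp hfd.symm with h | h
    · exact hl0 h
    · exact hd0 h
  have hdgpow : ∀ (a : R), a ≠ 0 → ∀ r : ℕ, dg (a ^ r) = r * dg a := by
    intro a ha r
    induction r with
    | zero => simp [hdg1]
    | succ r ih =>
      rw [pow_succ, hO.mul _ _ (pow_ne_zero _ ha) ha, ih]; ring
  have hfK : (f : K) ≠ 0 := by
    intro h; exact hf0 (Subtype.ext h)
  refine ⟨l, (f : K), hl, hl3, hfK, ?_, ?_⟩
  · intro h hh
    have hhi : IsIntegral R h := by
      refine ⟨Polynomial.X ^ l - Polynomial.C f, Polynomial.monic_X_pow_sub_C f hl0, ?_⟩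
      simp only [Polynomial.eval₂_sub, Polynomial.eval₂_pow, Polynomial.eval₂_X, Polynomial.eval₂_C]
      rw [← hh]
      exact sub_self _
    have : IsFractionRing R K := by
      refine IsFractionRing.of_field R K ?_
      intro z
      obtain ⟨a, b, hb, e⟩ := hfr z
      exact ⟨a, b, e⟩
    obtain ⟨h', hh'⟩ := IsIntegrallyClosed.isIntegral_iff.mp hhi
    have h3 : f = h' ^ l := by
      apply Subtype.ext
      have h4 : ((h' ^ l : R) : K) = (h' : K) ^ l := by push_cast; rfl
      rw [h4]
      have h5 : (h' : K) = h := hh'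
      rw [h5]; exact hh
    have h6 : h' ≠ 0 := by
      rintro rfl
      rw [zero_pow hl0] at h3
      exact hf0 h3
    have h7 := hdgpow h' h6 l
    rw [← h3, hfd] at h7
    exact hd h' h6 (Nat.eq_of_mul_eq_mul_left hl.pos h7).symm
  · intro V hV
    rcases hpl V hV with hR | rfl
    · -- V contains R
      have e1 : (A : K) * f + B * f' = 1 := by
        have := congrArg (fun z : R => (z : K)) hAB
        push_cast at this
        exact this
      have e2 : (eta : K) ^ l = f' * f ^ (l - 1) := by
        have := congrArg (fun z : R => (z : K)) heta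
        push_cast at this
        exact this
      by_cases hfV : (f : K)⁻¹ ∈ V
      · refine ⟨1, one_ne_zero, ?_, ?_⟩
        · rw [one_pow, mul_one]; exact hR f
        · rw [one_pow, mul_one]; exact hfV
      · -- f in the maximal ideal, so f' is a unit
        have hf'0 : (f' : K) ≠ 0 := by
          intro h0
          rw [h0, mul_zero, add_zero] at e1
          apply hfV
          have : (f : K)⁻¹ = A := by
            exact inv_eq_of_mul_eq_one_left e1
          rw [this]; exact hR A
        have hf'V : (f' : K)⁻¹ ∈ V := by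
          by_contra hcon
          have m1 : (f : K) ∈ V.nonunits := V.mem_nonunits_iff_or.mpr (Or.inr hfV)
          have m2 : (f' : K) ∈ V.nonunits := V.mem_nonunits_iff_or.mpr (Or.inr hcon)
          rw [ValuationSubring.mem_nonunits_iff] at m1 m2
          have a1 : V.valuation (A : K) ≤ 1 := (V.valuation_le_one_iff _).mpr (hR A)
          have b1 : V.valuation (B : K) ≤ 1 := (V.valuation_le_one_iff _).mpr (hR B)
          have q1 : V.valuation ((A : K) * f) < 1 := by
            rw [map_mul]
            exact lt_of_le_of_lt (mul_le_of_le_one_left zero_le a1) m1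
          have q2 : V.valuation ((B : K) * f') < 1 := by
            rw [map_mul]
            exact lt_of_le_of_lt (mul_le_of_le_one_left zero_le b1) m2
          have q3 := V.valuation.map_add_lt q1 q2
          rw [e1, map_one] at q3
          exact lt_irrefl _ q3
        have he0 : (eta : K) ≠ 0 := by
          intro h0
          rw [h0, zero_pow hl0] at e2
          rcases mul_eq_zero.mp e2.symm with h | h
          · exact hf'0 h
          · exact hfK (pow_eq_zero_iff (by have := hl.two_le; omega) |>.mp h)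
        refine ⟨(eta : K) / f, div_ne_zero he0 hfK, ?_, ?_⟩
        all_goals
          have e3 : (f : K) * ((eta : K) / f) ^ l = f' := by
            rw [div_pow, e2]
            obtain ⟨r, rfl⟩ : ∃ r, l = r + 1 := ⟨l - 1, by have := hl.two_le; omega⟩
            rw [Nat.add_sub_cancel]
            have hfr1 : (f : K) ^ (r + 1) ≠ 0 := pow_ne_zero _ hfK
            rw [← mul_div_assoc, div_eq_iff hfr1, pow_succ]; ring
          rw [e3]
        · exact hR f'
        · exact hf'V
    · -- V = Vo
      -- choose b of large degree and a with dg a = dg b + d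
      obtain ⟨M, hM⟩ := hO.gaps.bddAbove
      have hbig : ∀ m, M < m → ∃ a : R, a ≠ 0 ∧ dg a = m := by
        intro m hm
        by_contra hcon
        push Not at hcon
        have := hM (show m ∈ {m : ℕ | ∀ a : R, a ≠ 0 → dg a ≠ m} from fun a ha => hcon a ha)
        omega
      obtain ⟨b, hb0, hb⟩ := hbig (M + 1) (by omega)
      obtain ⟨a, ha0, ha⟩ := hbig (M + 1 + d) (by omega)
      have hbK : (b : K) ≠ 0 := fun h => hb0 (Subtype.ext h)
      have haK : (a : K) ≠ 0 := fun h => ha0 (Subtype.ext h)
      refine ⟨(b : K) / a, div_ne_zero hbK haK, ?_, ?_⟩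
      · have h8 : (f : K) * ((b : K) / a) ^ l = ((f * b ^ l : R) : K) / ((a ^ l : R) : K) := by
          push_cast
          rw [div_pow, mul_div_assoc]
        rw [h8]
        rw [hdg _ _ (pow_ne_zero _ ha0)]
        right
        rw [hO.mul _ _ hf0 (pow_ne_zero _ hb0), hdgpow b hb0, hdgpow a ha0, hfd, hb, ha]
        apply le_of_eq; ring
      · have h8 : ((f : K) * ((b : K) / a) ^ l)⁻¹ = ((a ^ l : R) : K) / ((f * b ^ l : R) : K) := by
          push_cast
          rw [div_pow]
          field_simp
        rw [h8]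
        rw [hdg _ _ (mul_ne_zero hf0 (pow_ne_zero _ hb0))]
        right
        rw [hO.mul _ _ hf0 (pow_ne_zero _ hb0), hdgpow b hb0, hdgpow a ha0, hfd, hb, ha]
        apply le_of_eq; ring

end Pool.Agent.H82.NS
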