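import Pool.Agent.H82.NS.Frame
import Pool.Agent.H82.NS.E1K
import Pool.Agent.H82.NS.Cwf
import Pool.Agent.H37.SI.Main
import Pool.Agent.H26.ES.Fin

/-! # [H82 NS FIN] the main theorem inside the frame, and the theorem of the frame -/

namespace Pool.Agent.H82.NS

open Filter IntermediateField Polynomial

/-- the compositum of the algebraic closure with a point of a curve is a function field -/
theorem ff_pt {k ks Ω : Type} [Field k] [Field ks] [Field Ω] [Algebra k ks] [Algebra ks Ω] [Algebra k Ω]
    [IsScalarTower k ks Ω] (x y : ks) (hx : Transcendental k x) (hy : IsIntegral (Algebra.adjoin k {x}) y)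
    (E : IntermediateField k Ω) (hE : E = algebraicClosure k Ω)
    (hm : algebraMap ks Ω x ∈ IntermediateField.adjoin E ({algebraMap ks Ω x, algebraMap ks Ω y} : Set Ω)) :
    FF E (⟨algebraMap ks Ω x, hm⟩ :
      IntermediateField.adjoin E ({algebraMap ks Ω x, algebraMap ks Ω y} : Set Ω)) := by
  have hEa : Algebra.IsAlgebraic k E := by
    rw [hE]; infer_instance
  have hmy : algebraMap ks Ω y ∈ IntermediateField.adjoin E ({algebraMap ks Ω x, algebraMap ks Ω y} : Set Ω) :=
    IntermediateField.subset_adjoin _ _ (by simp)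
  set K := IntermediateField.adjoin E ({algebraMap ks Ω x, algebraMap ks Ω y} : Set Ω) with hK
  set X : K := ⟨algebraMap ks Ω x, hm⟩ with hX
  set Y : K := ⟨algebraMap ks Ω y, hmy⟩ with hY
  refine ⟨?_, ?_⟩
  · intro h
    have h1 : IsAlgebraic E (algebraMap ks Ω x) := h.algebraMap (A := Ω)
    have h2 : IsAlgebraic k (algebraMap ks Ω x) := h1.restrictScalars k
    exact hx ((isAlgebraic_algebraMap_iff (algebraMap ks Ω).injective).mp h2)
  · have key : ∀ a : Algebra.adjoin k {x}, ∃ b : E⟮X⟯, ((b : K) : Ω) = algebraMap ks Ω a := by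
      rintro ⟨a, ha⟩
      induction ha using Algebra.adjoin_induction with
      | mem z hz =>
        rw [Set.mem_singleton_iff] at hz
        subst hz
        exact ⟨⟨X, mem_adjoin_simple_self E X⟩, rfl⟩
      | algebraMap r =>
        refine ⟨algebraMap E E⟮X⟯ (algebraMap k E r), ?_⟩
        exact IsScalarTower.algebraMap_apply k ks Ω r
      | add a b _ _ h1 h2 =>
        obtain ⟨c, hc⟩ := h1
        obtain ⟨d, hd⟩ := h2
        refine ⟨c + d, ?_⟩
        push_cast
        rw [hc, hd, ← map_add]
      | mul a b _ _ h1 h2 =>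
        obtain ⟨c, hc⟩ := h1
        obtain ⟨d, hd⟩ := h2
        refine ⟨c * d, ?_⟩
        push_cast
        rw [hc, hd, ← map_mul]
    choose φ hφ using key
    have hinj : ∀ b c : E⟮X⟯, ((b : K) : Ω) = ((c : K) : Ω) → b = c :=
      fun b c h => Subtype.ext (Subtype.ext h)
    let Φ : Algebra.adjoin k {x} →+* E⟮X⟯ :=
      { toFun := φ
        map_one' := hinj _ _ (by rw [hφ]; simp)
        map_zero' := hinj _ _ (by rw [hφ]; simp)
        map_mul' := fun a b => hinj _ _ (by
          have h1 : ((φ a * φ b : E⟮X⟯) : K) = (φ a : K) * (φ b : K) := rfl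
          have h2 : (((φ a : K) * (φ b : K) : K) : Ω) = ((φ a : K) : Ω) * ((φ b : K) : Ω) := rfl
          rw [h1, h2, hφ, hφ, hφ, ← map_mul]
          rfl)
        map_add' := fun a b => hinj _ _ (by
          have h1 : ((φ a + φ b : E⟮X⟯) : K) = (φ a : K) + (φ b : K) := rfl
          have h2 : (((φ a : K) + (φ b : K) : K) : Ω) = ((φ a : K) : Ω) + ((φ b : K) : Ω) := rfl
          rw [h1, h2, hφ, hφ, hφ, ← map_add]
          rfl) }
    have hYi : IsIntegral E⟮X⟯ Y := by
      obtain ⟨p, hp, hp0⟩ := hy
      refine ⟨p.map Φ, hp.map Φ, ?_⟩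
      rw [eval₂_map]
      have h1 : K.val.toRingHom (eval₂ ((algebraMap E⟮X⟯ K).comp Φ) Y p) =
          algebraMap ks Ω (eval₂ (algebraMap (Algebra.adjoin k {x}) ks) y p) := by
        rw [hom_eval₂, hom_eval₂]
        have e1 : K.val.toRingHom.comp ((algebraMap E⟮X⟯ K).comp Φ) =
            (algebraMap ks Ω).comp (algebraMap (Algebra.adjoin k {x}) ks) := by
          ext a
          exact hφ a
        rw [e1]
        rfl
      rw [hp0, map_zero] at h1
      exact Subtype.ext h1
    have htop : IntermediateField.adjoin E⟮X⟯ {Y} = ⊤ := by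
      rw [← restrictScalars_eq_top_iff (K := E), adjoin_adjoin_left]
      apply K.lift_injective
      rw [lift_adjoin, IntermediateField.lift_top]
      refine Eq.trans ?_ hK.symm
      congr 1
      ext z
      simp only [Set.mem_image, Set.mem_union, Set.mem_singleton_iff, Set.mem_insert_iff]
      constructor
      · rintro ⟨w, rfl | rfl, rfl⟩
        · exact Or.inl rfl
        · exact Or.inr rfl
      · rintro (rfl | rfl)
        · exact ⟨X, Or.inl rfl, rfl⟩
        · exact ⟨Y, Or.inr rfl, rfl⟩
    have h1 : FiniteDimensional E⟮X⟯ (IntermediateField.adjoin E⟮X⟯ {Y}) :=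
      IntermediateField.adjoin.finiteDimensional hYi
    rw [htop] at h1
    exact IntermediateField.topEquiv.toLinearEquiv.finiteDimensional

theorem alt (h1 : E1Prop) : AltProp := by
  intro H x y _ hxz hyz hx hy
  have hm : algebraMap QS QbS x ∈ IntermediateField.adjoin (Q0bar H) ({algebraMap QS QbS x, algebraMap QS QbS y} : Set QbS) :=
    IntermediateField.subset_adjoin _ _ (by simp)
  have : IsAlgClosed QbS := alg_closed_ult
  have : IsAlgClosed (Q0bar H) := alg_closed_bar H
  have : CharZero (Q0 H) := inferInstance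
  have : CharZero (Q0bar H) := inferInstance
  have : @IsScalarTower (Q0 H) QS QbS Algebra.toSMul Algebra.toSMul Algebra.toSMul :=
    IsScalarTower.of_algebraMap_eq (fun _ => rfl)
  refine Pool.Agent.H37.SI.main x y hx hy (Q0bar H) rfl
    (e1k h1 _ (ff_pt x y hx hy (Q0bar H) rfl hm)) ?_
  intro l hl f f' p A B hmm hi hf hAB hfp
  exact cwf H x y hxz hyz l hl f f' p A B hmm hi hf hAB hfp

/-- the theorem of the frame -/
theorem frame : Pool.Agent.H4.SF.Frame := frame_of_alt (alt Pool.H26.ES.e1prop)

end Pool.Agent.H82.NS
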