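import Pool.Agent.H82.NS.Int

/-! # [H82 NS GROW] integral elements grow at most polynomially

`x ∉ V0 H`: `|x|` is larger than every element of `Q0 H`. The elements `z` with `|z| ≤ |x|^C` for some `C` form a valuation ring of `QS` which
contains `Q0 H` and `x`; valuation rings are integrally closed. -/

namespace Pool.Agent.H82.NS

open Filter IntermediateField

/-- the elements bounded by a power of `x` (for `2 ≤ |x|`) -/
noncomputable def powBd (x : QS) (hx : 2 ≤ |x|) : ValuationSubring QS where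
  carrier := {z | ∃ C : ℕ, |z| ≤ |x| ^ C}
  one_mem' := ⟨0, by simp⟩
  zero_mem' := ⟨0, by simp⟩
  mul_mem' := by
    rintro a b ⟨r, har⟩ ⟨s, hbs⟩
    refine ⟨r + s, ?_⟩
    rw [abs_mul, pow_add]
    exact mul_le_mul har hbs (abs_nonneg _) ((abs_nonneg _).trans har)
  add_mem' := by
    rintro a b ⟨r, har⟩ ⟨s, hbs⟩
    have h1 : (1 : QS) ≤ |x| := le_trans (by norm_num) hx
    refine ⟨r + s + 1, ?_⟩
    have h2 : |x| ^ r ≤ |x| ^ (r + s) := pow_le_pow_right₀ h1 (Nat.le_add_right _ _)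
    have h3 : |x| ^ s ≤ |x| ^ (r + s) := pow_le_pow_right₀ h1 (Nat.le_add_left _ _)
    have h4 : (0 : QS) ≤ |x| ^ (r + s) := by positivity
    calc |a + b| ≤ |a| + |b| := abs_add_le _ _
      _ ≤ |x| ^ (r + s) + |x| ^ (r + s) := add_le_add (har.trans h2) (hbs.trans h3)
      _ = |x| ^ (r + s) * 2 := by ring
      _ ≤ |x| ^ (r + s) * |x| := mul_le_mul_of_nonneg_left hx h4
      _ = |x| ^ (r + s + 1) := by rw [pow_succ]
  neg_mem' := by
    rintro a ⟨r, har⟩
    exact ⟨r, by rwa [abs_neg]⟩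
  mem_or_inv_mem' := by
    intro a
    rcases le_total |a| 1 with h | h
    · exact Or.inl ⟨0, by simpa using h⟩
    · refine Or.inr ⟨0, ?_⟩
      rw [abs_inv, pow_zero]
      exact inv_le_one_of_one_le₀ h

theorem grow (H : ℕ → ℕ) (x z : QS) (hx : x ∉ V0 H) (hz : IsIntegral (Algebra.adjoin (Q0 H) {x}) z) :
    ∃ C : ℕ, |z| ≤ |x| ^ C := by
  have hbig : ∀ r ∈ Q0 H, r ≤ |x| := by
    intro r hr
    by_contra hcon
    exact hx ⟨r, hr, (not_le.mp hcon).le⟩
  have h2 : (2 : QS) ≤ |x| := by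
    apply hbig
    have : (2 : QS) = 1 + 1 := by norm_num
    rw [this]
    exact (Q0 H).add_mem (Q0 H).one_mem (Q0 H).one_mem
  have hsub : ∀ a ∈ Algebra.adjoin (Q0 H) {x}, a ∈ powBd x h2 := by
    intro a ha
    induction ha using Algebra.adjoin_induction with
    | mem a ha =>
      rw [Set.mem_singleton_iff] at ha
      subst ha
      exact ⟨1, by simp⟩
    | algebraMap r =>
      refine ⟨1, ?_⟩
      rw [pow_one]
      apply hbig
      rcases abs_choice (algebraMap (Q0 H) QS r) with h | h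
      · rw [h]; exact r.2
      · rw [h]; exact (Q0 H).neg_mem r.2
    | add a b _ _ h1 h2 => exact (powBd x _).add_mem _ _ h1 h2
    | mul a b _ _ h1 h2 => exact (powBd x _).mul_mem _ _ h1 h2
  have hint : IsIntegral (powBd x h2) z := by
    obtain ⟨p, hp, hpz⟩ := hz
    let φ : Algebra.adjoin (Q0 H) {x} →+* powBd x h2 :=
      { toFun := fun a => ⟨a.1, hsub a.1 a.2⟩
        map_one' := rfl
        map_zero' := rfl
        map_mul' := fun _ _ => rfl
        map_add' := fun _ _ => rfl }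
    refine ⟨p.map φ, hp.map φ, ?_⟩
    rw [Polynomial.eval₂_map]
    exact hpz
  obtain ⟨s, hs⟩ := IsIntegrallyClosed.isIntegral_iff.mp hint
  rw [← hs]
  exact s.2

end Pool.Agent.H82.NS
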