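import Pool.Agent.H4.SF.FIN
import Pool.Agent.H82.NS.Fin

/-!
# All of Siegel with explicit exponents

`Siegel3`: the only data which are not explicit are the numbers `D` (compactness) and the unknown numbers `M n K`.
Clause `(A)` is the theorem of AllCurves. `Siegel3N` is the same with all `N ≥ D(n)` in place of `D`.
-/

namespace Pool.Agent.H82.NS

open Polynomial Pool.Agent.H4.SF

/-- the final statement with explicit exponents, for all large `N` -/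
def Siegel3N : Prop :=
  ∃ (D : ℕ → ℕ) (M : ℕ → Subfield ℝ → ℕ), ∀ N : ℕ, 3 ≤ N →
    (∀ (k : Type) [Field k] [NumberField k], 3 ≤ Module.finrank ℚ k →
      ∀ (G : MvPolynomial (Fin 2) ℤ) (H : ℕ), G.totalDegree ≤ N → H98.SI.AtInf k G → 2 ≤ H →
        (∀ m, |MvPolynomial.coeff m G| ≤ (H : ℤ)) → ∀ x y : ℤ, MvPolynomial.eval ![x, y] G = 0 →
          max |x| |y| ≤ (H : ℤ) ^ 2 ^ (2 * N ^ 2).factorial ∨
            ∃ K : Subfield ℝ, Nonempty (k ≃+* K) ∧ (M N K : ℤ) ≤ max |x| |y| ∧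
              max |x| |y| ≤ (M N K : ℤ) ^ (14000 * N ^ 8)) ∧
    ∀ n : ℕ, D n ≤ N → ∀ (F : MvPolynomial (Fin 2) ℤ) (H : ℕ), F.totalDegree ≤ n →
      H98.SI.Scope F → 2 ≤ H → (∀ m, |MvPolynomial.coeff m F| ≤ (H : ℤ)) →
      ∀ x y : ℤ, MvPolynomial.eval ![x, y] F = 0 →
        max |x| |y| ≤ (H : ℤ) ^ (N * 2 ^ (2 * N ^ 2).factorial) ∨
          ∃ (K : Subfield ℝ) (_ : NumberField K) (G : MvPolynomial (Fin 2) ℤ) (c : ℕ) (w : ℤ),
            3 ≤ Module.finrank ℚ K ∧ Module.finrank ℚ K ≤ N ∧ |NumberField.discr K| ≤ (H : ℤ) ^ N ∧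
            G.totalDegree ≤ N ∧ H98.SI.AtInf K G ∧ (∀ m, |MvPolynomial.coeff m G| ≤ (H : ℤ) ^ N) ∧
            c ≤ N ∧ MvPolynomial.eval ![x + c * y, w] G = 0 ∧
            max |x| |y| ≤ |x + c * y| ^ N ∧ |w| ≤ |x + c * y| ^ N ∧
            (M N K : ℤ) ≤ max |x| |y| ^ N ∧ max |x| |y| ≤ (M N K : ℤ) ^ (14000 * N ^ 9)

/-- the final statement (text of helper98) -/
def Siegel3 : Prop :=
  ∃ M : ℕ → Subfield ℝ → ℕ,
    (∀ n : ℕ, 3 ≤ n → ∀ (k : Type) [Field k] [NumberField k], 3 ≤ Module.finrank ℚ k →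
      ∀ (G : MvPolynomial (Fin 2) ℤ) (H : ℕ), G.totalDegree ≤ n → H98.SI.AtInf k G → 2 ≤ H →
        (∀ m, |MvPolynomial.coeff m G| ≤ (H : ℤ)) → ∀ x y : ℤ, MvPolynomial.eval ![x, y] G = 0 →
          max |x| |y| ≤ (H : ℤ) ^ 2 ^ (2 * n ^ 2).factorial ∨
            ∃ K : Subfield ℝ, Nonempty (k ≃+* K) ∧ (M n K : ℤ) ≤ max |x| |y| ∧
              max |x| |y| ≤ (M n K : ℤ) ^ (14000 * n ^ 8)) ∧
    ∀ n : ℕ, ∃ D : ℕ, n ≤ D ∧ 3 ≤ D ∧ ∀ (F : MvPolynomial (Fin 2) ℤ) (H : ℕ), F.totalDegree ≤ n →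
      H98.SI.Scope F → 2 ≤ H → (∀ m, |MvPolynomial.coeff m F| ≤ (H : ℤ)) →
      ∀ x y : ℤ, MvPolynomial.eval ![x, y] F = 0 →
        max |x| |y| ≤ (H : ℤ) ^ (D * 2 ^ (2 * D ^ 2).factorial) ∨
          ∃ (K : Subfield ℝ) (_ : NumberField K) (G : MvPolynomial (Fin 2) ℤ) (c : ℕ) (w : ℤ),
            3 ≤ Module.finrank ℚ K ∧ Module.finrank ℚ K ≤ D ∧ |NumberField.discr K| ≤ (H : ℤ) ^ D ∧
            G.totalDegree ≤ D ∧ H98.SI.AtInf K G ∧ (∀ m, |MvPolynomial.coeff m G| ≤ (H : ℤ) ^ D) ∧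
            c ≤ D ∧ MvPolynomial.eval ![x + c * y, w] G = 0 ∧
            max |x| |y| ≤ |x + c * y| ^ D ∧ |w| ≤ |x + c * y| ^ D ∧
            (M D K : ℤ) ≤ max |x| |y| ^ D ∧ max |x| |y| ≤ (M D K : ℤ) ^ (14000 * D ^ 9)

theorem siegel3N_of_frame (hfr : Frame) : Siegel3N := by
  choose D0 hD0 using hfr
  have hMK : ∀ N : ℕ, ∃ M : Subfield ℝ → ℕ, 3 ≤ N → ∀ (k : Type) [Field k] [NumberField k],
      3 ≤ Module.finrank ℚ k → ∀ (F : MvPolynomial (Fin 2) ℤ) (H : ℕ), F.totalDegree ≤ N →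
        Irreducible (MvPolynomial.map (Int.castRingHom ℚ) F) → Star k F →
        2 ≤ H → (∀ m, |MvPolynomial.coeff m F| ≤ (H : ℤ)) →
        ∀ x y : ℤ, MvPolynomial.eval ![x, y] F = 0 →
          max |x| |y| ≤ (H : ℤ) ^ (2 ^ (2 * N ^ 2).factorial) ∨
            ∃ K : Subfield ℝ, Nonempty (k ≃+* K) ∧ (M K : ℤ) ≤ max |x| |y| ∧
              max |x| |y| ≤ (M K : ℤ) ^ (14000 * N ^ 8) := by
    intro N
    by_cases hN : 3 ≤ N
    · obtain ⟨M, hM⟩ := exists_MK N hN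
      exact ⟨M, fun _ => hM⟩
    · exact ⟨fun _ => 0, fun h => absurd h hN⟩
  choose M hM' using hMK
  refine ⟨fun n => max (max 3 (D0 n * (D0 n + 1))) (max n (D0 n + 1 + 2 * (D0 n + 2) * D0 n ^ 2)),
    M, ?_⟩
  intro N hN3
  have hM := hM' N hN3
  refine ⟨?_, ?_⟩
  · -- the clause (A)
    intro k _ _ hk G H hG hinf hH hGH x y hxy
    exact hM k hk G H hG hinf.1 hinf.2 hH hGH x y hxy
  -- the clause (B)
  intro n hnN F H hF hS hH hFH x y hxy
  have hD := hD0 n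
  beta_reduce at hnN
  obtain ⟨D, hDdef⟩ : ∃ D, D = D0 n := ⟨_, rfl⟩
  rw [← hDdef] at hD hnN
  have hnDD : D * (D + 1) ≤ N := ((le_max_right _ _).trans (le_max_left _ _)).trans hnN
  have hnS : D + 1 + 2 * (D + 2) * D ^ 2 ≤ N := ((le_max_right _ _).trans (le_max_right _ _)).trans hnN
  have hnH : 2 * (D + 2) * D ^ 2 ≤ N := (Nat.le_add_left _ _).trans hnS
  have hnD1 : D + 1 ≤ N := (Nat.le_add_right _ _).trans hnS
  have hnD : D ≤ N := (Nat.le_succ D).trans hnD1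
  obtain ⟨B, hB⟩ : ∃ B, B = 2 ^ (2 * N ^ 2).factorial := ⟨_, rfl⟩
  obtain ⟨W, hW⟩ : ∃ W, W = 14000 * N ^ 8 := ⟨_, rfl⟩
  rw [← hB]
  have hBpos : 1 ≤ B := by
    rw [hB]
    exact Nat.one_le_two_pow
  have hHz : (1 : ℤ) ≤ H := by exact_mod_cast (by omega : 1 ≤ H)
  have hWN : 14000 * N ^ 9 = W * N := by
    rw [hW, pow_succ N 8, mul_assoc]
  rcases hD F H hF hS hH hFH x y hxy with h1 | h1
  · left
    refine h1.trans (pow_le_pow_right₀ hHz ?_)
    calc D ≤ N := hnD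
      _ ≤ N * B := Nat.le_mul_of_pos_right N hBpos
  obtain ⟨c, κ, G, P, w, hc, hG, hz, hx, hw⟩ := h1
  haveI : Fact (Irreducible (P.map (Int.castRingHom ℚ))) := ⟨hG.Pirr⟩
  have hD3 : 3 ≤ D := hG.P3.trans hG.Pdeg
  obtain ⟨D1, hD1⟩ : ∃ D1, D1 = D + 1 := ⟨_, rfl⟩
  have hDD1 : D ≤ D1 := by omega
  have heN : D1 * (D1 + 1) ≤ N := by
    refine le_trans ?_ hnS
    rw [hD1]
    have e1 : 3 * D ^ 2 ≤ D * D ^ 2 := Nat.mul_le_mul_right _ hD3
    have e2 : 3 * D ≤ D ^ 2 := by nlinarith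
    nlinarith
  obtain ⟨H', hH'⟩ : ∃ H', H' = H ^ D := ⟨_, rfl⟩
  have hH'2 : 2 ≤ H' := by
    rw [hH']
    exact hH.trans (Nat.le_self_pow (by omega) H)
  obtain ⟨m1, hm1⟩ : ∃ m1, m1 = max x.natAbs y.natAbs := ⟨_, rfl⟩
  obtain ⟨a, ha⟩ : ∃ a, a = (x + c * y).natAbs := ⟨_, rfl⟩
  obtain ⟨m2, hm2⟩ : ∃ m2, m2 = max a w.natAbs := ⟨_, rfl⟩
  have hm1z : max |x| |y| = (m1 : ℤ) := by
    rw [hm1, Int.abs_eq_natAbs, Int.abs_eq_natAbs]
    push_cast
    rfl
  have hm2z : max |x + c * y| |w| = (m2 : ℤ) := by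
    rw [hm2, ha, Int.abs_eq_natAbs, Int.abs_eq_natAbs]
    push_cast
    rfl
  have haz : |x + c * y| = (a : ℤ) := by rw [ha, Int.abs_eq_natAbs]
  rw [hm1z, haz] at hx
  rw [haz, Int.abs_eq_natAbs] at hw
  have hx' : m1 ≤ a ^ D := by exact_mod_cast hx
  have hw' : w.natAbs ≤ a ^ D := by exact_mod_cast hw
  have hax : a ≤ (1 + D1) * m1 := by
    have h2 : |x + c * y| ≤ (1 + (D1 : ℤ)) * m1 := by
      rw [← hm1z]
      have h3 := abs_add_le x (c * y)
      have h4 : |x| ≤ max |x| |y| := le_max_left _ _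
      have h5 : |y| ≤ max |x| |y| := le_max_right _ _
      have h6 : |(c : ℤ) * y| ≤ D1 * max |x| |y| := by
        rw [abs_mul, Nat.abs_cast]
        exact mul_le_mul (by exact_mod_cast hc.trans hDD1) h5 (abs_nonneg _) (by positivity)
      linarith
    rw [haz] at h2
    exact_mod_cast h2
  rw [hm1z]
  by_cases hm12 : m1 < 2
  · left
    have h2 : (m1 : ℤ) ≤ 1 := by exact_mod_cast (by omega : m1 ≤ 1)
    exact h2.trans (one_le_pow₀ hHz)
  have hm12' : 2 ≤ m1 := by omega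
  have ha1 : 1 ≤ a := by
    rcases Nat.eq_zero_or_pos a with h | h
    · rw [h, zero_pow (by omega)] at hx'
      omega
    · exact h
  obtain ⟨w1, w2⟩ := wnd1 (D := D1) (by omega) (hx'.trans (Nat.pow_le_pow_right ha1 hDD1))
    (hw'.trans (Nat.pow_le_pow_right ha1 hDD1)) hax hm2 hm12'
  have htot : (toM G).totalDegree ≤ N := (toM_tot hG.κD hG.deg hG.wt).trans hnDD
  have hk3 : 3 ≤ Module.finrank ℚ (KP P) := by
    rw [finrank_KP hG.Pmonic hG.Pirr]
    exact hG.P3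
  have hcf : ∀ m, |MvPolynomial.coeff m (toM G)| ≤ (H' : ℤ) := by
    intro m
    rw [toM_coeff, hH']
    push_cast
    exact hG.cf _ _
  have hz' : MvPolynomial.eval ![x + c * y, w] (toM G) = 0 := by rw [toM_eval]; exact hz
  rcases hM (KP P) hk3 (toM G) H' htot (toM_irr hG.irr) (star_toM hG) hH'2 hcf (x + c * y) w
    hz' with h2 | ⟨K, ⟨φ⟩, h2, h3⟩
  · left
    rw [hm2z, hH', ← hB] at h2
    have h3 : m2 ≤ (H ^ D) ^ B := by exact_mod_cast h2
    have h4 : m1 ≤ H ^ (N * B) := by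
      calc m1 ≤ m2 ^ D1 := w1
        _ ≤ ((H ^ D) ^ B) ^ D1 := Nat.pow_le_pow_left h3 D1
        _ = H ^ (D * D1 * B) := by
          rw [← pow_mul, ← pow_mul]
          congr 1
          ring
        _ ≤ H ^ (N * B) := by
          refine Nat.pow_le_pow_right (by omega) (Nat.mul_le_mul_right B ?_)
          rw [hD1]
          exact hnDD
    exact_mod_cast h4
  · right
    haveI : NumberField K := NumberField.of_ringEquiv (KP P) K φ
    rw [hm2z, ← hW] at h3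
    rw [hm2z] at h2
    have h2' : M N K ≤ m2 := by exact_mod_cast h2
    have h3' : m2 ≤ M N K ^ W := by exact_mod_cast h3
    have hfr : Module.finrank ℚ K = Module.finrank ℚ (KP P) :=
      ((AlgEquiv.ofRingEquiv (f := φ) fun _ => by simp : KP P ≃ₐ[ℚ] K).toLinearEquiv.finrank_eq).symm
    refine ⟨K, inferInstance, toM G, c, w, ?_, ?_, ?_, htot, ⟨toM_irr hG.irr, ?_⟩, ?_,
      hc.trans hnD, hz', ?_, ?_, ?_, ?_⟩
    · rw [hfr]
      exact hk3
    · rw [hfr, finrank_KP hG.Pmonic hG.Pirr]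
      exact hG.Pdeg.trans hnD
    · rw [← NumberField.discr_eq_discr_of_ringEquiv (KP P) φ]
      exact (disc_KP hG hH).trans (pow_le_pow_right₀ hHz hnH)
    · intro L _ _ hL X Y hXY
      rcases star_toM hG L hL X Y hXY with h5 | h5
      · exact Or.inl h5
      · obtain ⟨ψ⟩ := h5
        exact Or.inr ⟨ψ.comp φ.symm.toRingHom⟩
    · intro m
      rw [toM_coeff]
      exact (hG.cf _ _).trans (pow_le_pow_right₀ hHz hnD)
    · rw [haz]
      have h5 : m1 ≤ a ^ N := hx'.trans (Nat.pow_le_pow_right ha1 hnD)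
      exact_mod_cast h5
    · rw [haz, Int.abs_eq_natAbs]
      have h5 : w.natAbs ≤ a ^ N := hw'.trans (Nat.pow_le_pow_right ha1 hnD)
      exact_mod_cast h5
    · have h5 : M N K ≤ m1 ^ N := h2'.trans (w2.trans (Nat.pow_le_pow_right (by omega) heN))
      exact_mod_cast h5
    · have h6 : 1 ≤ M N K := by
        by_contra h6
        have h7 : M N K = 0 := by omega
        have hWpos : W ≠ 0 := by
          rw [hW]
          positivity
        rw [h7, zero_pow hWpos] at h3'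
        have h8 : m2 = 0 := by omega
        rw [h8, zero_pow (by omega)] at w1
        omega
      have h5 : m1 ≤ M N K ^ (14000 * N ^ 9) := by
        rw [hWN]
        calc m1 ≤ m2 ^ D1 := w1
          _ ≤ (M N K ^ W) ^ D1 := Nat.pow_le_pow_left h3' D1
          _ = M N K ^ (W * D1) := by rw [← pow_mul]
          _ ≤ M N K ^ (W * N) :=
            Nat.pow_le_pow_right h6 (Nat.mul_le_mul_left W (hD1 ▸ hnD1))
      exact_mod_cast h5

/-- **All of Siegel** with explicit exponents, for all large `N` -/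
theorem siegel3N : Siegel3N := siegel3N_of_frame frame

/-- **All of Siegel** with explicit exponents -/
theorem siegel3 : Siegel3 := by
  obtain ⟨D, M, hM⟩ := siegel3N
  refine ⟨M, fun n hn => (hM n hn).1, fun n => ⟨max (D n) (max n 3), ?_, ?_, ?_⟩⟩
  · exact (le_max_left _ _).trans (le_max_right _ _)
  · exact (le_max_right _ _).trans (le_max_right _ _)
  · exact (hM (max (D n) (max n 3)) ((le_max_right _ _).trans (le_max_right _ _))).2 n (le_max_left _ _)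

end Pool.Agent.H82.NS
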