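import Pool.Agent.H82.NS.Seq
import Pool.Agent.H82.NS.Grow
import Pool.Agent.H97.SI.FGD

/-! # [H82 NS FRAME] the theorem of the frame (lemma form) from the alternative at a generic point -/

namespace Pool.Agent.H82.NS

open Filter IntermediateField Polynomial

/-- helper37's main theorem inside the frame: a model with three roots at infinity, or Laurent polynomials -/
def AltProp : Prop :=
  ∀ (H : ℕ → ℕ) (x y : QS), (∀ N, 2 ≤ H N) → x ∈ ZS → y ∈ ZS → Transcendental (Q0 H) x →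
    IsIntegral (Algebra.adjoin (Q0 H) {x}) y →
    (∃ (w : QS) (κ : ℕ) (G : (Q0 H)[X][X]), Pool.Agent.H37.SI.Model x w κ G ∧
      Pool.Agent.H37.SI.Three (Pool.Agent.H37.SI.lf κ G)) ∨
    ∃ A B : LaurentPolynomial QbS, ¬ (∃ a b : QbS, A = LaurentPolynomial.C a ∧ B = LaurentPolynomial.C b) ∧
      ∀ F : (Q0 H)[X][X], Pool.Agent.H37.SI.ev x y F = 0 →
        eval₂ (eval₂RingHom ((LaurentPolynomial.C).comp (algebraMap (Q0 H) QbS)) A) B F = 0

/-- `Good` is monotone in `D` -/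
theorem good_mono {D D' H κ : ℕ} {G : ℤ[X][X]} {P : ℤ[X]} (hH : 2 ≤ H) (h : D ≤ D')
    (hg : Pool.Agent.H4.SF.Good D H κ G P) : Pool.Agent.H4.SF.Good D' H κ G P := by
  have hH1 : (1 : ℤ) ≤ (H : ℤ) := by exact_mod_cast (by omega : 1 ≤ H)
  have hp : (H : ℤ) ^ D ≤ (H : ℤ) ^ D' := pow_le_pow_right₀ hH1 h
  exact ⟨hg.κD.trans h, hg.monic, hg.deg.trans h, hg.irr, hg.wt, fun i j => (hg.cf i j).trans hp,
    hg.Pmonic, hg.Pirr, hg.P3, hg.lf, hg.Pdeg.trans h, fun i => (hg.Pcf i).trans hp⟩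

theorem cof_map (F : ℕ → MvPolynomial (Fin 2) ℤ) (i j : ℕ) :
    cof Qb F i j = algebraMap QS QbS (cof ℚ F i j) := by
  unfold cof
  rw [algebraMap_cl]
  apply congrArg cl
  funext N
  exact (map_intCast (algebraMap ℚ Qb) _).symm

theorem abs_cl (f : ℕ → ℚ) : |cl f| = cl (fun N => |f N|) := Germ.abs_def (cl f : Germ UU ℚ)

theorem pow_cl (f : ℕ → ℚ) (r : ℕ) : (cl f) ^ r = cl (fun N => f N ^ r) := (map_pow (clHom ℚ) f r).symm

theorem le_pow_of {a b : ℕ → ℤ} {C : ℕ}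
    (h : |(cl (fun N => (a N : ℚ)) : QS)| ≤ |(cl (fun N => (b N : ℚ)) : QS)| ^ C) :
    ∀ᶠ N in UU, |a N| ≤ |b N| ^ C := by
  rw [abs_cl, abs_cl, pow_cl, cl_le] at h
  refine h.mono fun N hN => ?_
  exact_mod_cast hN

theorem frame_of_alt (ha : AltProp) : Pool.Agent.H4.SF.Frame := by
  intro n
  by_contra hcon
  push Not at hcon
  choose F H hdeg hs hH hc x y h0 hbig hnd using hcon
  obtain ⟨c, hcn, htr, hint, hcof, hsum⟩ := seq_point n F H x y hdeg hs hH hc h0 hbig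
  have hXZ : (cl (fun N => ((x N + c * y N : ℤ) : ℚ)) : QS) ∈ ZS := mem_zs.mpr ⟨fun N => x N + c * y N, rfl⟩
  have hYZ : (cl (fun N => (y N : ℚ)) : QS) ∈ ZS := mem_zs.mpr ⟨y, rfl⟩
  have hX0 : (cl (fun N => ((x N + c * y N : ℤ) : ℚ)) : QS) ∉ Q0 H := by
    intro h
    exact htr (isAlgebraic_algebraMap (⟨_, h⟩ : Q0 H))
  have hXV : (cl (fun N => ((x N + c * y N : ℤ) : ℚ)) : QS) ∉ V0 H := zs_big H _ hXZ hX0
  have hxe : (cl (fun N => (x N : ℚ)) : QS) = cl (fun N => ((x N + c * y N : ℤ) : ℚ)) - (c : QS) * cl (fun N => (y N : ℚ)) := by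
    have h1 : (c : QS) = cl (fun _ => (c : ℚ)) := by
      have := map_natCast (clHom ℚ) c
      rw [← this]
      rfl
    rw [h1, cl_mul, sub_eq_add_neg, cl_neg, cl_add]
    congr 1
    funext N
    push_cast
    ring
  rcases ha H _ _ hH hXZ hYZ htr hint with ⟨w, κ, G, hM, h3⟩ | ⟨A, B, hnc, hF⟩
  · obtain ⟨D, hD⟩ := Pool.Agent.H97.SI.frame_good hH (xs := fun N => x N + c * y N) hX0 hM h3
    obtain ⟨C1, hC1⟩ := grow H _ _ hXV hint
    have hintX : IsIntegral (Algebra.adjoin (Q0 H) {(cl (fun N => ((x N + c * y N : ℤ) : ℚ)) : QS)})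
        (cl (fun N => (x N : ℚ)) : QS) := by
      rw [hxe]
      refine IsIntegral.sub ?_ (IsIntegral.mul ?_ hint)
      · have h1 : (cl (fun N => ((x N + c * y N : ℤ) : ℚ)) : QS) ∈
            Algebra.adjoin (Q0 H) {(cl (fun N => ((x N + c * y N : ℤ) : ℚ)) : QS)} := Algebra.subset_adjoin rfl
        exact isIntegral_algebraMap (R := Algebra.adjoin (Q0 H) {(cl (fun N => ((x N + c * y N : ℤ) : ℚ)) : QS)})
          (A := QS) (x := ⟨_, h1⟩)
      · have h1 := isIntegral_algebraMap (R := Algebra.adjoin (Q0 H) {(cl (fun N => ((x N + c * y N : ℤ) : ℚ)) : QS)})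
          (A := QS) (x := (c : Algebra.adjoin (Q0 H) {(cl (fun N => ((x N + c * y N : ℤ) : ℚ)) : QS)}))
        rw [map_natCast] at h1
        exact h1
    obtain ⟨C2, hC2⟩ := grow H _ _ hXV hintX
    have g1 := le_pow_of hC1
    have g2 := le_pow_of hC2
    have g3 : ∀ᶠ N in UU, x N + c * y N ≠ 0 := by
      have h1 : ¬ ∀ᶠ N in UU, x N + c * y N = 0 := by
        intro h
        apply hX0
        have h2 : (cl (fun N => ((x N + c * y N : ℤ) : ℚ)) : QS) = 0 := by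
          rw [cl_zero, cl_eq]
          refine h.mono fun N hN => ?_
          rw [hN]; norm_num
        rw [h2]
        exact (Q0 H).zero_mem
      exact Ultrafilter.eventually_not.2 h1
    have g4 : ∀ᶠ N in UU, D + C1 + C2 + n ≤ N :=
      (eventually_ge_atTop _).filter_mono Nat.hyperfilter_le_atTop
    obtain ⟨N, ⟨⟨⟨⟨g, p, w', hg, hev, hw'⟩, h1⟩, h2⟩, h3'⟩, h4⟩ := ((((hD.and g1).and g2).and g3).and g4).exists
    apply hnd N
    have hone : (1 : ℤ) ≤ |x N + c * y N| := Int.one_le_abs h3'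
    refine ⟨c, κ, g, p, w', by omega, good_mono (hH N) (by omega) hg, hev, ?_, ?_⟩
    · apply max_le
      · exact h2.trans (pow_le_pow_right₀ hone (by omega))
      · exact h1.trans (pow_le_pow_right₀ hone (by omega))
    · exact hw'.trans (pow_le_pow_right₀ hone (by omega))
  · have e1 : ∀ i j, (LaurentPolynomial.C.comp (algebraMap (Q0 H) QbS)) (⟨cof ℚ F i j, hcof i j⟩ : Q0 H) =
        LaurentPolynomial.C (cof Qb F i j) := by
      intro i j
      rw [cof_map]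
      rfl
    have e2 : (LaurentPolynomial.C.comp (algebraMap (Q0 H) QbS)) ((c : ℕ) : Q0 H) = LaurentPolynomial.C (c : QbS) := by
      rw [map_natCast, map_natCast]
    have e3 : ∀ i j, algebraMap (Q0 H) QS (⟨cof ℚ F i j, hcof i j⟩ : Q0 H) = cof ℚ F i j := fun _ _ => rfl
    have hFF := hF (∑ i ∈ Finset.range (n + 1), ∑ j ∈ Finset.range (n + 1),
      C (C (⟨cof ℚ F i j, hcof i j⟩ : Q0 H)) * (C X - C (C (c : Q0 H)) * X) ^ i * X ^ j) ?_
    · simp only [eval₂_finsetSum, eval₂_mul, eval₂_pow, eval₂_sub, eval₂_C, eval₂_X, coe_eval₂RingHom] at hFF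
      simp only [e1, e2] at hFF
      obtain ⟨a, b, hab, hb⟩ := scope_tr n F hdeg hs (A - LaurentPolynomial.C (c : QbS) * B) B hFF
      apply hnc
      refine ⟨a + c * b, b, ?_, hb⟩
      rw [map_add, map_mul, ← hb, ← hab]
      ring
    · unfold Pool.Agent.H37.SI.ev
      simp only [eval₂_finsetSum, eval₂_mul, eval₂_pow, eval₂_sub, eval₂_C, eval₂_X]
      have e4 : (aeval (cl (fun N => ((x N + c * y N : ℤ) : ℚ)) : QS) : (Q0 H)[X] →ₐ[Q0 H] QS).toRingHom X =
          cl (fun N => ((x N + c * y N : ℤ) : ℚ)) := aeval_X _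
      have e5 : ∀ a : Q0 H, (aeval (cl (fun N => ((x N + c * y N : ℤ) : ℚ)) : QS) : (Q0 H)[X] →ₐ[Q0 H] QS).toRingHom (C a) =
          algebraMap (Q0 H) QS a := fun a => aeval_C _ _
      simp only [e4, e5, e3]
      rw [← hsum]
      apply Finset.sum_congr rfl
      intro i _
      apply Finset.sum_congr rfl
      intro j _
      rw [hxe, map_natCast]

end Pool.Agent.H82.NS
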