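import Pool.Agent.H82.NS.OneT
import Pool.Agent.H82.NS.PlC
import Pool.Agent.H93.OP.Defs

/-! # [H82 NS ONEP] the one point ring of a function field

`t, Vo` from `exists_one`, `R` = integral closure of `Algebra.adjoin E {t}` in `K` (`restrictScalars E`), `ord` from `ord_exists` for `Vo` and `t`. For `0 ≠ a ∈ R`: `ord a ≤ 0`: otherwise
`a ∈ Vo.nonunits`; for every valuation ring `V` over `E`: `t ∈ V` gives `a ∈ V`, `t ∉ V` gives `V = Vo ∋ a`; so `a` is a constant (`all_const`), so a unit of `Vo`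
(or zero), contradiction. `dg a := (- ord a).toNat` (`dg 0 = 0`). Multiplicative. Ultrametric from `a ∈ V ↔ 0 ≤ ord a` (divide by the element of larger degree). `lead`:
`a / b ∈ Vo`, `res_alg` gives `c` with `a / b - c ∈ Vo.nonunits`, so `ord (a - c b) > ord b` or `a = c b`. `gaps`: with `δ = dg t > 0` every residue class modulo `δ` is
attained: for an integer `c` take `z ≠ 0` with `ord z = - c` (a power of `p`), `z = a / h` with `a ∈ R`, `0 ≠ h ∈ E[t]` (K is algebraic over `E(t)`: the denominators can be taken in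
`E[t]`), `dg h = δ deg h` (the powers of `t` have different orders), so `dg a = c + δ deg h`. Multiplying by powers of `t` all large numbers of each class
are attained. Fractions: the same. `R` is integrally closed (integral closure in a field) and `Frac R = K`. Integral over `E[x]`: `a` is integral over
`E[t]` and `t` is integral over `E[x]`. Last clause: `dg a = 1`: every `b ∈ R` is in `E[a]` by induction on `dg b` (subtract `c a^(dg b)`; degree zero:
`lead` with `b' = 1`: constants), so `K = Frac R = E(a)`. -/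

namespace Pool.Agent.H82.NS

open Filter IntermediateField

open scoped IntermediateField.algebraAdjoinAdjoin

/-- a valuation ring over `E` as a subalgebra -/
private def sV {E K : Type} [Field E] [Field K] [Algebra E K] (V : ValuationSubring K)
    (hV : ∀ e : E, algebraMap E K e ∈ V) : Subalgebra E K :=
  { V.toSubring with algebraMap_mem' := hV }

private theorem adj_mem {E K : Type} [Field E] [Field K] [Algebra E K] {V : ValuationSubring K}
    (hV : ∀ e : E, algebraMap E K e ∈ V) {t y : K} (ht : t ∈ V) (hy : y ∈ Algebra.adjoin E {t}) :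
    y ∈ V := by
  have h1 : Algebra.adjoin E {t} ≤ sV V hV := by
    apply Algebra.adjoin_le
    rintro z (rfl : z = t)
    exact ht
  exact h1 hy

private theorem int_sub {E K : Type} [Field E] [Field K] [Algebra E K] {S : Subring K}
    (hS : ∀ ⦃x : K⦄, IsIntegral S x → x ∈ S)
    {A : Subalgebra E K} (hA : ∀ y ∈ A, y ∈ S) {z : K} (hz : IsIntegral A z) : z ∈ S := by
  apply hS
  let φ : A →+* S :=
    { toFun := fun y => ⟨y.1, hA y.1 y.2⟩
      map_one' := rfl
      map_mul' := fun _ _ => rfl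
      map_zero' := rfl
      map_add' := fun _ _ => rfl }
  let _ : Algebra A S := φ.toAlgebra
  have : IsScalarTower A S K := .of_algebraMap_eq fun _ => rfl
  exact hz.tower_top

private theorem int_tr {E K : Type} [Field E] [Field K] [Algebra E K] {A B : Subalgebra E K}
    (hA : ∀ y ∈ A, IsIntegral B y) {z : K} (hz : IsIntegral A z) : IsIntegral B z := by
  have h1 : ∀ ⦃x : K⦄, IsIntegral (integralClosure B K).toSubring x →
      x ∈ (integralClosure B K).toSubring := Subring.isIntegrallyClosedIn_iff.1 inferInstance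
  have h2 : z ∈ (integralClosure B K).toSubring := int_sub h1 (fun y hy => hA y hy) hz
  exact h2

private theorem alg_adj {E K : Type} [Field E] [Field K] [Algebra E K] {t z : K}
    (h : IsAlgebraic E⟮t⟯ z) : IsAlgebraic (Algebra.adjoin E {t}) z :=
  (IsFractionRing.isAlgebraic_iff (Algebra.adjoin E {t}) E⟮t⟯ K).2 h

private theorem int_mem {E K : Type} [Field E] [Field K] [Algebra E K] {V : ValuationSubring K}
    {A : Subalgebra E K} (hA : ∀ y ∈ A, y ∈ V) {z : K} (hz : IsIntegral A z) : z ∈ V := by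
  have h1 : ∀ ⦃x : K⦄, IsIntegral V x → x ∈ V := Subring.isIntegrallyClosed_iff.1 inferInstance
  apply h1
  let φ : A →+* V :=
    { toFun := fun y => ⟨y.1, hA y.1 y.2⟩
      map_one' := rfl
      map_mul' := fun _ _ => rfl
      map_zero' := rfl
      map_add' := fun _ _ => rfl }
  let _ : Algebra A V := φ.toAlgebra
  have : IsScalarTower A V K := .of_algebraMap_eq fun _ => rfl
  exact hz.tower_top

section Ord

variable {E K : Type} [Field E] [Field K] [Algebra E K] {V : ValuationSubring K} {ord : K → ℤ}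
  (hm : ∀ a b : K, a ≠ 0 → b ≠ 0 → ord (a * b) = ord a + ord b)
  (hi : ∀ a : K, a ≠ 0 → (a ∈ V ↔ 0 ≤ ord a))

include hm

omit [Algebra E K] [Field E] in
private theorem o_one : ord 1 = 0 := by
  have h := hm 1 1 one_ne_zero one_ne_zero
  rw [mul_one] at h
  omega

private theorem o_inv {a : K} (ha : a ≠ 0) : ord a⁻¹ = - ord a := by
  have h := hm a a⁻¹ ha (inv_ne_zero ha)
  rw [mul_inv_cancel₀ ha, o_one hm] at h
  omega

private theorem o_div {a b : K} (ha : a ≠ 0) (hb : b ≠ 0) : ord (a / b) = ord a - ord b := by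
  rw [div_eq_mul_inv, hm a b⁻¹ ha (inv_ne_zero hb), o_inv hm hb]
  ring

private theorem o_pow {a : K} (ha : a ≠ 0) (n : ℕ) : ord (a ^ n) = n * ord a := by
  induction n with
  | zero => rw [pow_zero, o_one hm]; simp
  | succ n ih =>
    rw [pow_succ, hm _ _ (pow_ne_zero n ha) ha, ih]
    push_cast
    ring

private theorem o_zpow {a : K} (ha : a ≠ 0) (n : ℤ) : ord (a ^ n) = n * ord a := by
  obtain ⟨m, rfl | rfl⟩ := n.eq_nat_or_neg
  · rw [zpow_natCast, o_pow hm ha]
  · rw [zpow_neg, zpow_natCast, o_inv hm (pow_ne_zero m ha), o_pow hm ha]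
    ring

include hi

private theorem o_add1 {a b : K} (ha : a ≠ 0) (hb : b ≠ 0) (hab : a + b ≠ 0)
    (h : ord a ≤ ord b) : ord a ≤ ord (a + b) := by
  have h1 : b / a ∈ V := by
    rw [hi _ (div_ne_zero hb ha), o_div hm hb ha]
    omega
  have h2 : (a + b) / a ∈ V := by
    rw [add_div, div_self ha]
    exact V.add_mem _ _ V.one_mem h1
  rw [hi _ (div_ne_zero hab ha), o_div hm hab ha] at h2
  omega

private theorem o_add {a b : K} (ha : a ≠ 0) (hb : b ≠ 0) (hab : a + b ≠ 0) :
    min (ord a) (ord b) ≤ ord (a + b) := by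
  rcases le_total (ord a) (ord b) with h | h
  · rw [min_eq_left h]
    exact o_add1 hm hi ha hb hab h
  · rw [min_eq_right h, add_comm]
    exact o_add1 hm hi hb ha (by rwa [add_comm]) h

private theorem o_non {a : K} (ha : a ≠ 0) (h : a ∈ V.nonunits) : 0 < ord a := by
  rcases (V.mem_nonunits_iff_or).1 h with h | h
  · exact absurd h ha
  · rw [hi _ (inv_ne_zero ha), o_inv hm ha] at h
    omega

private theorem o_const (hE : ∀ e : E, algebraMap E K e ∈ V) {e : E} (he : e ≠ 0) :
    ord (algebraMap E K e) = 0 := by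
  have h0 : algebraMap E K e ≠ 0 := (map_ne_zero _).2 he
  have h1 := (hi _ h0).1 (hE e)
  have h2 := (hi _ (inv_ne_zero h0)).1 (by rw [← map_inv₀]; exact hE _)
  rw [o_inv hm h0] at h2
  omega

private theorem o_subc (hE : ∀ e : E, algebraMap E K e ∈ V) {t : K} (ht : t ≠ 0) (ht1 : ord t < 0)
    (r : E) : t - algebraMap E K r ≠ 0 ∧ ord (t - algebraMap E K r) = ord t := by
  by_cases hr : r = 0
  · rw [hr, map_zero, sub_zero]
    exact ⟨ht, rfl⟩
  have hr0 : algebraMap E K r ≠ 0 := (map_ne_zero _).2 hr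
  have hrn : -algebraMap E K r ≠ 0 := neg_ne_zero.2 hr0
  have h0 : ord (algebraMap E K r) = 0 := o_const hm hi hE hr
  have h0n : ord (-algebraMap E K r) = 0 := by
    rw [← map_neg]
    exact o_const hm hi hE (neg_ne_zero.2 hr)
  have hne : t - algebraMap E K r ≠ 0 := by
    intro h
    rw [sub_eq_zero.1 h, h0] at ht1
    omega
  refine ⟨hne, le_antisymm ?_ ?_⟩
  · have h1 := o_add hm hi hne hr0 (by rwa [sub_add_cancel])
    rw [sub_add_cancel, h0] at h1
    rcases min_le_iff.1 h1 with h | h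
    · exact h
    · omega
  · have h1 := o_add hm hi ht hrn (by rwa [← sub_eq_add_neg])
    rw [← sub_eq_add_neg, h0n, min_eq_left ht1.le] at h1
    exact h1

private theorem o_poly [IsAlgClosed E] (hE : ∀ e : E, algebraMap E K e ∈ V) {t : K} (ht : t ≠ 0)
    (ht1 : ord t < 0) (n : ℕ) : ∀ q : Polynomial E, q.natDegree = n → q ≠ 0 →
    Polynomial.aeval t q ≠ 0 ∧ ord (Polynomial.aeval t q) = n * ord t := by
  induction n with
  | zero =>
    intro q hq hq0
    rw [Polynomial.eq_C_of_natDegree_eq_zero hq] at hq0 ⊢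
    have h1 : q.coeff 0 ≠ 0 := fun h => hq0 (by rw [h, map_zero])
    rw [Polynomial.aeval_C]
    refine ⟨(map_ne_zero _).2 h1, ?_⟩
    rw [o_const hm hi hE h1]
    simp
  | succ n ih =>
    intro q hq hq0
    have hdeg : q.degree ≠ 0 := by
      rw [Polynomial.degree_eq_natDegree hq0, hq]
      exact_mod_cast Nat.succ_ne_zero n
    obtain ⟨r, hr⟩ := IsAlgClosed.exists_root q hdeg
    obtain ⟨q', hq'⟩ := Polynomial.dvd_iff_isRoot.2 hr
    have hq'0 : q' ≠ 0 := by
      rintro rfl
      rw [mul_zero] at hq'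
      exact hq0 hq'
    have hdq : q'.natDegree = n := by
      rw [hq', Polynomial.natDegree_mul (Polynomial.X_sub_C_ne_zero r) hq'0,
        Polynomial.natDegree_X_sub_C] at hq
      omega
    obtain ⟨h1, h2⟩ := ih q' hdq hq'0
    obtain ⟨h3, h4⟩ := o_subc hm hi hE ht ht1 r
    have e : Polynomial.aeval t q = (t - algebraMap E K r) * Polynomial.aeval t q' := by
      rw [hq', map_mul, map_sub, Polynomial.aeval_X, Polynomial.aeval_C]
    rw [e]
    refine ⟨mul_ne_zero h3 h1, ?_⟩
    rw [hm _ _ h3 h1, h2, h4]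
    push_cast
    ring

end Ord

theorem one_point {E K : Type} [Field E] [IsAlgClosed E] [CharZero E] [Field K] [Algebra E K] (x : K) (hK : FF E x) :
    ∃ (R : Subalgebra E K) (dg : R → ℕ) (Vo : ValuationSubring K), Pool.H93.OP.OnePt E dg ∧ IsIntegrallyClosed R ∧
      (∀ z : K, ∃ a b : R, b ≠ 0 ∧ z = (a : K) / b) ∧
      (∀ a : R, IsIntegral (Algebra.adjoin E {x}) (a : K)) ∧
      (∀ e : E, algebraMap E K e ∈ Vo) ∧
      (∀ V : ValuationSubring K, (∀ e : E, algebraMap E K e ∈ V) → (∀ a : R, (a : K) ∈ V) ∨ V = Vo) ∧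
      (∀ a b : R, b ≠ 0 → ((a : K) / b ∈ Vo ↔ a = 0 ∨ dg a ≤ dg b)) ∧
      ((∃ a : R, dg a = 1) → ∃ s : K, E⟮s⟯ = ⊤) := by
  classical
  obtain ⟨t, Vo, hFt, htx, hInf, huni⟩ := exists_one x hK
  obtain ⟨ord, hm, hi, p, hp0, hp1⟩ := ord_exists hFt hInf
  have hE : ∀ e : E, algebraMap E K e ∈ Vo := hInf.base
  have ht0 : t ≠ 0 := by
    rintro rfl
    exact hInf.pole Vo.zero_mem
  have ht1 : ord t < 0 := by
    by_contra h
    push Not at h
    exact hInf.pole ((hi t ht0).2 h)
  obtain ⟨A, hA⟩ : ∃ A : Subalgebra E K, A = Algebra.adjoin E {t} := ⟨_, rfl⟩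
  obtain ⟨R, hR⟩ : ∃ R : Subalgebra E K, ∀ z : K, z ∈ R ↔ IsIntegral A z :=
    ⟨(integralClosure A K).restrictScalars E, fun z => Iff.rfl⟩
  have hAR : ∀ y ∈ A, y ∈ R := fun y hy => by
    rw [hR]
    exact isIntegral_algebraMap (R := A) (x := ⟨y, hy⟩)
  have htA : t ∈ A := by
    rw [hA]
    exact Algebra.subset_adjoin rfl
  have hRV : ∀ V : ValuationSubring K, (∀ e : E, algebraMap E K e ∈ V) → t ∈ V →
      ∀ a ∈ R, a ∈ V := by
    intro V hV htV a ha
    refine int_mem (A := A) (fun y hy => ?_) ((hR a).1 ha)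
    rw [hA] at hy
    exact adj_mem hV htV hy
  have hconst : ∀ a ∈ R, a ∈ Vo → ∃ e : E, a = algebraMap E K e := by
    intro a ha haV
    apply all_const
    intro V hV
    by_cases htV : t ∈ V
    · exact hRV V hV htV a ha
    · rw [huni V ⟨hV, htV⟩]
      exact haV
  have hneg : ∀ a ∈ R, a ≠ 0 → ord a ≤ 0 := by
    intro a ha ha0
    by_contra h
    push Not at h
    obtain ⟨e, rfl⟩ := hconst a ha ((hi a ha0).2 h.le)
    have he : e ≠ 0 := fun h => ha0 (by rw [h, map_zero])
    rw [o_const hm hi hE he] at h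
    omega
  obtain ⟨dg, hdg0, hdg⟩ : ∃ dg : R → ℕ, dg 0 = 0 ∧ ∀ a : R, a ≠ 0 → (dg a : ℤ) = - ord (a : K) := by
    refine ⟨fun a => if a = 0 then 0 else (- ord (a : K)).toNat, if_pos rfl, fun a ha => ?_⟩
    show ((if a = 0 then 0 else (- ord (a : K)).toNat : ℕ) : ℤ) = _
    rw [if_neg ha, Int.toNat_of_nonneg]
    have := hneg a a.2 (fun h => ha (Subtype.ext h))
    omega
  have hcoe : ∀ a : R, a ≠ 0 → (a : K) ≠ 0 := fun a ha h => ha (Subtype.ext h)
  have halg : ∀ z : K, ∃ h : Polynomial E, h ≠ 0 ∧ Polynomial.aeval t h * z ∈ R := by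
    intro z
    have h1 : IsAlgebraic E⟮t⟯ z := by
      have := hFt.fin
      exact Algebra.IsAlgebraic.isAlgebraic z
    have h2 : IsAlgebraic A z := by
      rw [hA]
      exact alg_adj h1
    obtain ⟨y, hy0, hy⟩ := h2.exists_integral_multiple
    have hyA : (y : K) ∈ Algebra.adjoin E {t} := by
      rw [← hA]
      exact y.2
    rw [Algebra.adjoin_singleton_eq_range_aeval] at hyA
    obtain ⟨h, hh⟩ := hyA
    refine ⟨h, ?_, ?_⟩
    · rintro rfl
      rw [map_zero] at hh
      exact hy0 (Subtype.ext hh.symm)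
    · rw [hR]
      have e : Polynomial.aeval t h * z = y • z := by
        rw [Algebra.smul_def]
        congr 1
      rw [e]
      exact hy
  have hpoly : ∀ h : Polynomial E, h ≠ 0 → Polynomial.aeval t h ≠ 0 ∧
      ord (Polynomial.aeval t h) = h.natDegree * ord t ∧ Polynomial.aeval t h ∈ R := by
    intro h hh
    obtain ⟨h1, h2⟩ := o_poly hm hi hE ht0 ht1 h.natDegree h rfl hh
    refine ⟨h1, h2, hAR _ ?_⟩
    rw [hA, Algebra.adjoin_singleton_eq_range_aeval]
    exact ⟨h, rfl⟩
  have hfrac : ∀ z : K, ∃ a b : R, b ≠ 0 ∧ z = (a : K) / b := by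
    intro z
    obtain ⟨h, hh, hz⟩ := halg z
    obtain ⟨h1, -, h3⟩ := hpoly h hh
    refine ⟨⟨_, hz⟩, ⟨_, h3⟩, fun h4 => h1 (congrArg Subtype.val h4), ?_⟩
    show z = Polynomial.aeval t h * z / Polynomial.aeval t h
    rw [mul_div_cancel_left₀ z h1]
  have hquot : ∀ a b : R, b ≠ 0 → ((a : K) / b ∈ Vo ↔ a = 0 ∨ dg a ≤ dg b) := by
    intro a b hb
    by_cases ha : a = 0
    · rw [ha]
      simp only [true_or, iff_true]
      show ((0 : R) : K) / b ∈ Vo
      rw [ZeroMemClass.coe_zero, zero_div]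
      exact Vo.zero_mem
    · rw [hi _ (div_ne_zero (hcoe a ha) (hcoe b hb)), o_div hm (hcoe a ha) (hcoe b hb)]
      have h1 := hdg a ha
      have h2 := hdg b hb
      constructor
      · intro h
        right
        omega
      · rintro (h | h)
        · exact absurd h ha
        · omega
  have hlead : ∀ a b : R, a ≠ 0 → b ≠ 0 → dg a = dg b → ∃ c : E, a = c • b ∨ dg (a - c • b) < dg b := by
    intro a b ha hb hab
    have h1 : (a : K) / b ∈ Vo := (hquot a b hb).2 (Or.inr hab.le)
    obtain ⟨c, hc⟩ := res_alg hFt hInf h1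
    refine ⟨c, ?_⟩
    have hb' := hcoe b hb
    by_cases h2 : (a : K) / b - algebraMap E K c = 0
    · left
      apply Subtype.ext
      show (a : K) = c • (b : K)
      rw [Algebra.smul_def, ← sub_eq_zero.1 h2, div_mul_cancel₀ _ hb']
    · right
      have h3 := o_non hm hi h2 hc
      have h4 : ((a - c • b : R) : K) = b * ((a : K) / b - algebraMap E K c) := by
        show (a : K) - c • (b : K) = _
        rw [Algebra.smul_def, mul_sub, mul_div_cancel₀ _ hb']
        ring
      have h5 : a - c • b ≠ 0 := by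
        intro h
        have h6 : ((a - c • b : R) : K) = 0 := by rw [h]; rfl
        rw [h4] at h6
        rcases mul_eq_zero.1 h6 with h7 | h7
        · exact hb' h7
        · exact h2 h7
      have h6 := hdg _ h5
      rw [h4, hm _ _ hb' h2] at h6
      have h7 := hdg b hb
      omega
  refine ⟨R, dg, Vo, ⟨hdg0, ?_, ?_, ?_, hlead, ?_⟩, ?_, hfrac, ?_, hE, ?_, hquot, ?_⟩
  · intro a b ha hb
    have h1 := hdg a ha
    have h2 := hdg b hb
    have h3 := hdg (a * b) (mul_ne_zero ha hb)
    have h4 : ord ((a * b : R) : K) = ord (a : K) + ord (b : K) := hm _ _ (hcoe a ha) (hcoe b hb)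
    omega
  · intro a b
    by_cases ha : a = 0
    · rw [ha, zero_add]
      exact le_max_right _ _
    by_cases hb : b = 0
    · rw [hb, add_zero]
      exact le_max_left _ _
    by_cases hab : a + b = 0
    · rw [hab, hdg0]
      exact Nat.zero_le _
    have h1 := hdg a ha
    have h2 := hdg b hb
    have h3 := hdg (a + b) hab
    have h4 : min (ord (a : K)) (ord (b : K)) ≤ ord ((a + b : R) : K) :=
      o_add hm hi (hcoe a ha) (hcoe b hb) (hcoe _ hab)
    rcases min_le_iff.1 h4 with h5 | h5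
    · refine le_trans ?_ (le_max_left _ _)
      omega
    · refine le_trans ?_ (le_max_right _ _)
      omega
  · intro c a hc
    by_cases ha : a = 0
    · rw [ha, smul_zero]
    have hca : c • a ≠ 0 := smul_ne_zero hc ha
    have h1 := hdg a ha
    have h2 := hdg (c • a) hca
    have h3 : ord ((c • a : R) : K) = ord (a : K) := by
      show ord (c • (a : K)) = _
      rw [Algebra.smul_def, hm _ _ ((map_ne_zero _).2 hc) (hcoe a ha), o_const hm hi hE hc, zero_add]
    omega
  · -- gaps
    obtain ⟨δ, hδ⟩ : ∃ δ : ℕ, (δ : ℤ) = - ord t := ⟨(- ord t).toNat, Int.toNat_of_nonneg (by omega)⟩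
    have hδ0 : 0 < δ := by omega
    have hcls : ∀ c : ℕ, ∃ a : R, a ≠ 0 ∧ dg a % δ = c % δ := by
      intro c
      obtain ⟨z, hz0, hz⟩ : ∃ z : K, z ≠ 0 ∧ ord z = -(c : ℤ) := by
        refine ⟨p ^ (-(c : ℤ)), zpow_ne_zero _ hp0, ?_⟩
        rw [o_zpow hm hp0, hp1, mul_one]
      obtain ⟨h, hh, hzR⟩ := halg z
      obtain ⟨h1, h2, h3⟩ := hpoly h hh
      have h4 : (⟨_, hzR⟩ : R) ≠ 0 := by
        intro h5
        have h6 : Polynomial.aeval t h * z = 0 := congrArg Subtype.val h5
        rcases mul_eq_zero.1 h6 with h7 | h7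
        · exact h1 h7
        · exact hz0 h7
      refine ⟨⟨_, hzR⟩, h4, ?_⟩
      have h5 := hdg _ h4
      have h6 : ord (Polynomial.aeval t h * z) = h.natDegree * ord t + -(c : ℤ) := by
        rw [hm _ _ h1 hz0, h2, hz]
      have h7 : (dg ⟨_, hzR⟩ : ℤ) = c + h.natDegree * δ := by
        rw [h5]
        show - ord (Polynomial.aeval t h * z) = _
        rw [h6, hδ]
        ring
      have h8 : dg ⟨_, hzR⟩ = c + h.natDegree * δ := by exact_mod_cast h7
      rw [h8]
      exact Nat.add_mul_mod_self_right _ _ _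
    choose f hf0 hf using hcls
    obtain ⟨N, hN⟩ : ∃ N, ∀ r < δ, dg (f r) ≤ N :=
      ⟨(Finset.range δ).sup fun r => dg (f r), fun r hr =>
        Finset.le_sup (f := fun r => dg (f r)) (Finset.mem_range.2 hr)⟩
    refine (Set.finite_Iio N).subset ?_
    intro m hm'
    by_contra hmN
    have hmN' : N ≤ m := not_lt.1 hmN
    have hr := Nat.mod_lt m hδ0
    have h1 := hN _ hr
    have h2 := hf (m % δ)
    rw [Nat.mod_mod] at h2
    obtain ⟨k, hk⟩ : ∃ k, m = dg (f (m % δ)) + δ * k := by
      obtain ⟨k, hk⟩ := (Nat.modEq_iff_dvd' (h1.trans hmN')).1 h2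
      exact ⟨k, by omega⟩
    have htR : t ∈ R := hAR t htA
    have ht0' : (⟨t, htR⟩ : R) ≠ 0 := fun h => ht0 (congrArg Subtype.val h)
    have h3 : f (m % δ) * ⟨t, htR⟩ ^ k ≠ 0 := mul_ne_zero (hf0 _) (pow_ne_zero k ht0')
    apply hm' _ h3
    have h4 := hdg _ h3
    have h5 : ord ((f (m % δ) * ⟨t, htR⟩ ^ k : R) : K) = ord (f (m % δ) : K) + k * ord t := by
      show ord ((f (m % δ) : K) * t ^ k) = _
      rw [hm _ _ (hcoe _ (hf0 _)) (pow_ne_zero k ht0), o_pow hm ht0]
    have h6 := hdg _ (hf0 (m % δ))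
    have h7 : (dg (f (m % δ) * ⟨t, htR⟩ ^ k) : ℤ) = dg (f (m % δ)) + δ * k := by
      rw [h4, h5, h6, hδ]
      ring
    have h8 : dg (f (m % δ) * ⟨t, htR⟩ ^ k) = dg (f (m % δ)) + δ * k := by exact_mod_cast h7
    exact h8.trans hk.symm
  · -- integrally closed
    have hfr : IsFractionRing R K := IsFractionRing.of_field R K fun z => by
      obtain ⟨a, b, -, h⟩ := hfrac z
      exact ⟨a, b, h⟩
    rw [isIntegrallyClosed_iff K]
    intro z hz
    have h1 : ∀ ⦃x : K⦄, IsIntegral (integralClosure A K).toSubring x →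
        x ∈ (integralClosure A K).toSubring := Subring.isIntegrallyClosedIn_iff.1 inferInstance
    have h2 : z ∈ (integralClosure A K).toSubring := int_sub h1 (fun y hy => (hR y).1 hy) hz
    exact ⟨⟨z, (hR z).2 h2⟩, rfl⟩
  · intro a
    have h3 : ∀ B : Subalgebra E K, IsIntegral B t → ∀ y ∈ A, IsIntegral B y := by
      intro B htB
      have h4 : A ≤ (integralClosure B K).restrictScalars E := by
        rw [hA]
        apply Algebra.adjoin_le
        rintro z (rfl : z = t)
        exact htB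
      exact fun y hy => h4 hy
    exact int_tr (h3 _ htx) ((hR a).1 a.2)
  · intro V hV
    by_cases htV : t ∈ V
    · exact Or.inl fun a => hRV V hV htV a a.2
    · exact Or.inr (huni V ⟨hV, htV⟩)
  · rintro ⟨s, hs⟩
    refine ⟨(s : K), ?_⟩
    have hs0 : s ≠ 0 := by
      rintro rfl
      rw [hdg0] at hs
      omega
    have hsE : ∀ n : ℕ, ∀ b : R, dg b ≤ n → (b : K) ∈ E⟮(s : K)⟯ := by
      intro n
      induction n with
      | zero =>
        intro b hb
        by_cases hb0 : b = 0
        · rw [hb0]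
          exact zero_mem _
        have h1 := hdg b hb0
        obtain ⟨e, he⟩ := hconst b b.2 ((hi _ (hcoe b hb0)).2 (by omega))
        rw [he]
        exact IntermediateField.algebraMap_mem _ e
      | succ n ih =>
        intro b hb
        by_cases hb1 : dg b ≤ n
        · exact ih b hb1
        have hb2 : dg b = n + 1 := by omega
        have hb0 : b ≠ 0 := by
          rintro rfl
          rw [hdg0] at hb2
          omega
        have hp : s ^ (n + 1) ≠ 0 := pow_ne_zero _ hs0
        have h1 := hdg _ hp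
        have h2 : ord ((s ^ (n + 1) : R) : K) = (n + 1 : ℕ) * ord (s : K) := by
          show ord ((s : K) ^ (n + 1)) = _
          rw [o_pow hm (hcoe s hs0)]
        have h3 := hdg s hs0
        have h4 : dg (s ^ (n + 1)) = n + 1 := by
          have h5 : (dg (s ^ (n + 1)) : ℤ) = (n + 1 : ℕ) := by
            rw [h1, h2]
            have h6 : ord (s : K) = -1 := by omega
            rw [h6]
            ring
          exact_mod_cast h5
        have hsm : ((s ^ (n + 1) : R) : K) ∈ E⟮(s : K)⟯ := by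
          show (s : K) ^ (n + 1) ∈ _
          exact pow_mem (IntermediateField.mem_adjoin_simple_self E _) _
        obtain ⟨c, hc | hc⟩ := hlead b (s ^ (n + 1)) hb0 hp (by rw [hb2, h4])
        · rw [hc]
          show c • ((s ^ (n + 1) : R) : K) ∈ _
          exact IntermediateField.smul_mem _ hsm
        · rw [h4] at hc
          have h5 := ih _ (Nat.lt_succ_iff.1 hc)
          have h6 : (b : K) = ((b - c • s ^ (n + 1) : R) : K) + c • ((s ^ (n + 1) : R) : K) := by
            show (b : K) = ((b : K) - c • ((s ^ (n + 1) : R) : K)) + c • ((s ^ (n + 1) : R) : K)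
            ring
          rw [h6]
          exact add_mem h5 (IntermediateField.smul_mem _ hsm)
    rw [eq_top_iff]
    intro z _
    obtain ⟨a, b, -, rfl⟩ := hfrac z
    exact div_mem (hsE _ a le_rfl) (hsE _ b le_rfl)

end Pool.Agent.H82.NS
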