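import Pool.Agent.H82.NS.Ri
import Pool.Agent.H82.NS.PlB

/-! # [H82 NS ONET] a function with only one pole

Induction on the number of places of `x` at infinity (`places_finite`, at least one by `exists_place`). If there are two different ones `V0, V1`, take `g` from `ri`:
`FF E g` (`ff_of_tr`), and every `V` with `Inf E g V` has `x ∉ V` (otherwise `Algebra.adjoin E {x} ⊆ V` and `g ∈ V`, as valuation rings are
integrally closed) and `V ≠ V0`: the set of places of `g` is a proper subset of the set of places of `x`. By induction there is `t` for `g`; integral over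
`E[g]`, so over `E[x]`. `all_const`: `z` transcendental would have a place `V` with `z ∉ V` (`exists_place`). -/

namespace Pool.Agent.H82.NS

open Filter IntermediateField

theorem ot_incl {E K : Type} [Field E] [Field K] [Algebra E K] {S : Subalgebra E K} {A : Type} [CommRing A] [Algebra A K]
    (B : Subalgebra A K) (h : ∀ s ∈ S, s ∈ B) {t : K} (ht : IsIntegral S t) : IsIntegral B t := by
  obtain ⟨p, hp, hp0⟩ := ht
  let f : S →+* B :=
    { toFun := fun s => ⟨s.1, h s.1 s.2⟩
      map_one' := rfl
      map_zero' := rfl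
      map_mul' := fun _ _ => rfl
      map_add' := fun _ _ => rfl }
  refine ⟨p.map f, hp.map f, ?_⟩
  rw [Polynomial.eval₂_map]
  have : (algebraMap B K).comp f = algebraMap S K := by
    ext s
    rfl
  rw [this]
  exact hp0

theorem ot_trans {E K : Type} [Field E] [Field K] [Algebra E K] {x g t : K}
    (hg : IsIntegral (Algebra.adjoin E {x}) g) (ht : IsIntegral (Algebra.adjoin E {g}) t) :
    IsIntegral (Algebra.adjoin E {x}) t := by
  have h1 : ∀ s ∈ Algebra.adjoin E {g}, s ∈ integralClosure (Algebra.adjoin E {x}) K := by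
    intro s hs
    have h2 : Algebra.adjoin E {g} ≤ (integralClosure (Algebra.adjoin E {x}) K).restrictScalars E := by
      apply Algebra.adjoin_le
      intro y hy
      rw [Set.mem_singleton_iff] at hy
      subst hy
      exact hg
    exact h2 hs
  exact isIntegral_trans (A := integralClosure (Algebra.adjoin E {x}) K) t (ot_incl _ h1 ht)

theorem ot_mem {E K : Type} [Field E] [Field K] [Algebra E K] {x g : K} (V : ValuationSubring K)
    (hb : ∀ e : E, algebraMap E K e ∈ V) (hx : x ∈ V) (hg : IsIntegral (Algebra.adjoin E {x}) g) : g ∈ V := by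
  have h1 : ∀ s ∈ Algebra.adjoin E {x}, s ∈ V := by
    intro s hs
    induction hs using Algebra.adjoin_induction with
    | mem y hy =>
      rw [Set.mem_singleton_iff] at hy
      subst hy
      exact hx
    | algebraMap r => exact hb r
    | add a b _ _ ha hb => exact V.add_mem _ _ ha hb
    | mul a b _ _ ha hb => exact V.mul_mem _ _ ha hb
  obtain ⟨p, hp, hp0⟩ := hg
  let f : (Algebra.adjoin E {x}) →+* V :=
    { toFun := fun s => ⟨s.1, h1 s.1 s.2⟩
      map_one' := rfl
      map_zero' := rfl
      map_mul' := fun _ _ => rfl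
      map_add' := fun _ _ => rfl }
  have h2 : IsIntegral V g := by
    refine ⟨p.map f, hp.map f, ?_⟩
    rw [Polynomial.eval₂_map]
    have : (algebraMap V K).comp f = algebraMap (Algebra.adjoin E {x}) K := by
      ext s
      rfl
    rw [this]
    exact hp0
  obtain ⟨y, hy⟩ := IsIntegrallyClosed.isIntegral_iff.mp h2
  rw [← hy]
  exact y.2

theorem exists_one {E K : Type} [Field E] [CharZero E] [Field K] [Algebra E K] (x : K) (hK : FF E x) :
    ∃ (t : K) (Vo : ValuationSubring K), FF E t ∧ IsIntegral (Algebra.adjoin E {x}) t ∧ Inf E t Vo ∧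
      ∀ V : ValuationSubring K, Inf E t V → V = Vo := by
  obtain ⟨n, hn⟩ : ∃ n, {V : ValuationSubring K | Inf E x V}.ncard = n := ⟨_, rfl⟩
  induction n using Nat.strong_induction_on generalizing x with
  | _ n ih =>
  obtain ⟨V0, hV0⟩ := exists_place hK.tr
  by_cases hu : ∀ V : ValuationSubring K, Inf E x V → V = V0
  · refine ⟨x, V0, hK, ?_, hV0, hu⟩
    have : x = algebraMap (Algebra.adjoin E {x}) K ⟨x, Algebra.self_mem_adjoin_singleton E x⟩ := rfl
    rw [this]
    exact isIntegral_algebraMap
  · push Not at hu
    obtain ⟨V1, hV1, hne⟩ := hu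
    obtain ⟨g, hg0, hgi, hgt⟩ := ri x hK V0 V1 hV0 hV1 (Ne.symm hne)
    have hFg : FF E g := ff_of_tr hK hgt
    have hss : {V : ValuationSubring K | Inf E g V} ⊂ {V : ValuationSubring K | Inf E x V} := by
      refine ⟨fun V hV => ?_, fun hc => ?_⟩
      · refine ⟨hV.base, fun hx => ?_⟩
        exact hV.pole (ot_mem V hV.base hx hgi)
      · have : V0 ∈ {V : ValuationSubring K | Inf E g V} := hc hV0
        exact this.pole hg0
    have hlt := Set.ncard_lt_ncard hss (places_finite hK)
    rw [hn] at hlt
    obtain ⟨t, Vo, h1, h2, h3, h4⟩ := ih _ hlt g hFg rfl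
    exact ⟨t, Vo, h1, ot_trans hgi h2, h3, h4⟩

theorem all_const {E K : Type} [Field E] [IsAlgClosed E] [Field K] [Algebra E K] (z : K)
    (h : ∀ V : ValuationSubring K, (∀ e : E, algebraMap E K e ∈ V) → z ∈ V) : ∃ e : E, z = algebraMap E K e := by
  by_cases hz : Transcendental E z
  · obtain ⟨V, hV⟩ := exists_place hz
    exact absurd (h V hV.base) hV.pole
  · have ha : IsAlgebraic E z := not_not.mp hz
    have hi : IsIntegral E z := ha.isIntegral
    have h1 := IsAlgClosed.degree_eq_one_of_irreducible E (minpoly.irreducible hi)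
    obtain ⟨e, he⟩ := minpoly.mem_range_of_degree_eq_one E z h1
    exact ⟨e, he.symm⟩

end Pool.Agent.H82.NS
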