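import Pool.Agent.H82.NS.Q0alg
import Pool.Agent.H82.NS.Int
import Pool.Agent.H82.NS.Tra

/-! # [H82 NS SEQ] a sequence of counterexamples gives a generic point

`F N` of total degree `≤ n`, coefficients `≤ H N`, `Scope (F N)`, `F N (x N, y N) = 0`, `H N ^ N < max |x N| |y N|`. Put `X = cl (x N)`, `Y = cl (y N)` in `ZS`, `f_ij = cof ℚ F i j ∈ Q0 H`
(`|coefficient| ≤ H N`). By `eval_ult`: `∑ f_ij X^i Y^j = 0`. `F N ≠ 0` (the zero polynomial is not in the scope: `X = T 1`), so for each `N` some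
coefficient is not zero; by the ultrafilter property some `f_ij ≠ 0` (finitely many pairs). Let `d` be the largest `i + j` with `f_ij ≠ 0`. The polynomial `∑_(i+j=d) f_ij (-c)^i` in `c` is
not zero and has degree `≤ n`, so it does not vanish at some `c ∈ {0, .., n}`. Put `X' = X + c Y`. Then `∑ f_ij (X' - c Y)^i Y^j` is a polynomial in `Y` over `Q0[X']` with leading term
`(∑_(i+j=d) f_ij (-c)^i) Y^d`, a nonzero element of the field `Q0`: `d ≥ 1` (otherwise `f_00 = 0`), and `Y` is integral over `Q0[X']`.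
`X'` is transcendental over `Q0`: otherwise `X' ∈ Q0` (`q0_alg`), `Y` is algebraic over `Q0`, so `Y ∈ Q0`, `X ∈ Q0`: then `|x N|, |y N| ≤ (H N + 2) ^ C ≤ H N ^ (2 C)` for almost all `N`
(`X = cl f`, `f` Small; `2 ≤ H N`), and `H N ^ N < H N ^ (2 C)`, `N < 2 C`, only finitely many `N`. -/

namespace Pool.Agent.H82.NS

open Filter IntermediateField

private theorem integral_of_rel {k K : Type*} [Field k] [CharZero k] [Field K] [Algebra k K]
    (n : ℕ) (f : ℕ → ℕ → k) (X Y : K) (hf : ∀ i j, n < i + j → f i j = 0) (hne : ∃ i j, f i j ≠ 0)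
    (hsum : ∑ i ∈ Finset.range (n + 1), ∑ j ∈ Finset.range (n + 1),
      algebraMap k K (f i j) * X ^ i * Y ^ j = 0) :
    ∃ c : ℕ, c ≤ n ∧ IsIntegral (Algebra.adjoin k {X + c * Y}) Y := by
  classical
  let S : Finset (ℕ × ℕ) := (Finset.range (n + 1) ×ˢ Finset.range (n + 1)).filter (fun p => f p.1 p.2 ≠ 0)
  have hS : S.Nonempty := by
    obtain ⟨i, j, hij⟩ := hne
    have h1 : i + j ≤ n := by
      by_contra h
      exact hij (hf i j (not_le.mp h))
    refine ⟨(i, j), ?_⟩
    simp only [S, Finset.mem_filter, Finset.mem_product, Finset.mem_range]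
    exact ⟨⟨by omega, by omega⟩, hij⟩
  obtain ⟨⟨i0, j0⟩, hmem, hmax⟩ := Finset.exists_max_image S (fun p => p.1 + p.2) hS
  simp only [S, Finset.mem_filter, Finset.mem_product, Finset.mem_range] at hmem
  obtain ⟨⟨hi0, hj0⟩, hfij⟩ := hmem
  set d := i0 + j0 with hd
  have hdn : d ≤ n := by
    by_contra h
    exact hfij (hf i0 j0 (not_le.mp h))
  have hmax' : ∀ i j, f i j ≠ 0 → i + j ≤ d := by
    intro i j hij
    have h1 : i + j ≤ n := by
      by_contra h
      exact hij (hf i j (not_le.mp h))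
    have h2 : (i, j) ∈ S := by
      simp only [S, Finset.mem_filter, Finset.mem_product, Finset.mem_range]
      exact ⟨⟨by omega, by omega⟩, hij⟩
    exact hmax (i, j) h2
  -- the polynomial in `c`
  let G : Polynomial k := ∑ i ∈ Finset.range (n + 1), ∑ j ∈ Finset.range (n + 1),
    if i + j = d then Polynomial.C (f i j * (-1) ^ i) * Polynomial.X ^ i else 0
  have hGc : G.coeff i0 ≠ 0 := by
    have h1 : G.coeff i0 = f i0 j0 * (-1) ^ i0 := by
      simp only [G, Polynomial.finsetSum_coeff]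
      rw [Finset.sum_eq_single i0]
      · rw [Finset.sum_eq_single j0]
        · rw [if_pos rfl, Polynomial.coeff_C_mul_X_pow, if_pos rfl]
        · intro j _ hj
          rw [if_neg (by omega), Polynomial.coeff_zero]
        · intro h
          exact absurd (Finset.mem_range.mpr hj0) h
      · intro i _ hi
        apply Finset.sum_eq_zero
        intro j _
        split_ifs
        · rw [Polynomial.coeff_C_mul_X_pow, if_neg (fun h => hi h.symm)]
        · rw [Polynomial.coeff_zero]
      · intro h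
        exact absurd (Finset.mem_range.mpr hi0) h
    rw [h1]
    exact mul_ne_zero hfij (pow_ne_zero _ (neg_ne_zero.mpr one_ne_zero))
  have hG0 : G ≠ 0 := by
    intro h
    rw [h, Polynomial.coeff_zero] at hGc
    exact hGc rfl
  have hGd : G.natDegree ≤ n := by
    apply Polynomial.natDegree_sum_le_of_forall_le
    intro i hi
    apply Polynomial.natDegree_sum_le_of_forall_le
    intro j _
    split_ifs
    · exact (Polynomial.natDegree_C_mul_X_pow_le _ _).trans (by have := Finset.mem_range.mp hi; omega)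
    · simp
  obtain ⟨c, hcn, hc⟩ : ∃ c : ℕ, c ≤ n ∧ G.eval (c : k) ≠ 0 := by
    by_contra hcon
    push Not at hcon
    apply hG0
    apply Polynomial.eq_zero_of_natDegree_lt_card_of_eval_eq_zero' G
      ((Finset.range (n + 1)).image (Nat.cast : ℕ → k))
    · intro z hz
      obtain ⟨c, hc, rfl⟩ := Finset.mem_image.mp hz
      exact hcon c (by have := Finset.mem_range.mp hc; omega)
    · rw [Finset.card_image_of_injective _ Nat.cast_injective, Finset.card_range]
      omega
  have hg : G.eval (c : k) = ∑ i ∈ Finset.range (n + 1), ∑ j ∈ Finset.range (n + 1),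
      if i + j = d then f i j * (-(c : k)) ^ i else 0 := by
    simp only [G, Polynomial.eval_finsetSum]
    apply Finset.sum_congr rfl
    intro i _
    apply Finset.sum_congr rfl
    intro j _
    split_ifs
    · rw [Polynomial.eval_mul, Polynomial.eval_C, Polynomial.eval_pow, Polynomial.eval_X, mul_assoc,
        ← mul_pow]
      congr 2
      ring
    · rw [Polynomial.eval_zero]
  refine ⟨c, hcn, ?_⟩
  set A := Algebra.adjoin k {X + (c : K) * Y} with hA
  let x' : A := ⟨X + (c : K) * Y, Algebra.subset_adjoin rfl⟩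
  let L : Polynomial A := Polynomial.C x' - Polynomial.C (c : A) * Polynomial.X
  have hL1 : L.natDegree ≤ 1 := by
    apply (Polynomial.natDegree_sub_le _ _).trans
    apply max_le
    · simp
    · exact (Polynomial.natDegree_C_mul_le _ _).trans Polynomial.natDegree_X_le
  have hLc : L.coeff 1 = -(c : A) := by
    simp [L]
  let P : Polynomial A := ∑ i ∈ Finset.range (n + 1), ∑ j ∈ Finset.range (n + 1),
    Polynomial.C (algebraMap k A (f i j)) * L ^ i * Polynomial.X ^ j
  have hterm : ∀ i j, f i j ≠ 0 →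
      (Polynomial.C (algebraMap k A (f i j)) * L ^ i * Polynomial.X ^ j).natDegree ≤ i + j := by
    intro i j _
    apply Polynomial.natDegree_mul_le.trans
    apply Nat.add_le_add
    · apply (Polynomial.natDegree_C_mul_le _ _).trans
      apply Polynomial.natDegree_pow_le.trans
      nlinarith
    · exact Polynomial.natDegree_X_pow_le _
  have hPd : P.natDegree ≤ d := by
    apply Polynomial.natDegree_sum_le_of_forall_le
    intro i _
    apply Polynomial.natDegree_sum_le_of_forall_le
    intro j _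
    by_cases h : f i j = 0
    · rw [h, map_zero, map_zero, zero_mul, zero_mul]
      simp
    · exact (hterm i j h).trans (hmax' i j h)
  have hPc : P.coeff d = algebraMap k A (G.eval (c : k)) := by
    rw [hg]
    simp only [P, Polynomial.finsetSum_coeff, map_sum]
    apply Finset.sum_congr rfl
    intro i _
    apply Finset.sum_congr rfl
    intro j _
    by_cases h : f i j = 0
    · rw [h, map_zero, map_zero, zero_mul, zero_mul, Polynomial.coeff_zero]
      split_ifs
      · rw [zero_mul, map_zero]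
      · rw [map_zero]
    · have h1 := hmax' i j h
      split_ifs with h2
      · rw [← h2, Polynomial.coeff_mul_X_pow, Polynomial.coeff_C_mul]
        have h3 := Polynomial.coeff_pow_of_natDegree_le (m := i) hL1
        rw [mul_one] at h3
        rw [h3, hLc, map_mul, map_pow, map_neg, map_natCast]
      · rw [map_zero]
        apply Polynomial.coeff_eq_zero_of_natDegree_lt
        have := hterm i j h
        omega
  refine ⟨Polynomial.C (algebraMap k A (G.eval (c : k))⁻¹) * P, ?_, ?_⟩
  · apply Polynomial.monic_of_natDegree_le_of_coeff_eq_one d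
    · exact (Polynomial.natDegree_C_mul_le _ _).trans hPd
    · rw [Polynomial.coeff_C_mul, hPc, ← map_mul, inv_mul_cancel₀ hc, map_one]
  · rw [Polynomial.eval₂_mul]
    have h1 : Polynomial.eval₂ (algebraMap A K) Y P = 0 := by
      rw [← hsum]
      simp only [P, Polynomial.eval₂_finsetSum]
      apply Finset.sum_congr rfl
      intro i _
      apply Finset.sum_congr rfl
      intro j _
      rw [Polynomial.eval₂_mul, Polynomial.eval₂_mul, Polynomial.eval₂_pow, Polynomial.eval₂_pow,
        Polynomial.eval₂_X, Polynomial.eval₂_C]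
      have h2 : Polynomial.eval₂ (algebraMap A K) Y L = X := by
        simp only [L]
        rw [Polynomial.eval₂_sub, Polynomial.eval₂_mul, Polynomial.eval₂_C, Polynomial.eval₂_C,
          Polynomial.eval₂_X, map_natCast]
        show (X + (c : K) * Y) - (c : K) * Y = X
        ring
      rw [h2, ← IsScalarTower.algebraMap_apply]
    rw [h1, mul_zero]

private theorem supp_sum (m : Fin 2 →₀ ℕ) : ∑ i ∈ m.support, m i = m 0 + m 1 := by
  have h := Finsupp.sum_fintype m (fun _ e => e) (fun _ => rfl)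
  rw [Fin.sum_univ_two] at h
  exact h

private theorem small_int {H : ℕ → ℕ} {x : ℕ → ℤ} (h : cl (fun N => (x N : ℚ)) ∈ Q0 H) :
    ∃ C : ℕ, ∀ᶠ N in UU, |x N| ≤ ((H N + 2 : ℕ) : ℤ) ^ C := by
  obtain ⟨f, ⟨C, hC⟩, hf⟩ := h
  rw [cl_eq] at hf
  refine ⟨C, ?_⟩
  filter_upwards [hf] with N hN
  have h1 := (hC N).1
  rw [← hN, Rat.num_intCast] at h1
  have h2 : ((x N).natAbs : ℤ) = |x N| := Int.natCast_natAbs _
  rw [← h2]
  exact_mod_cast h1

theorem seq_point (n : ℕ) (F : ℕ → MvPolynomial (Fin 2) ℤ) (H : ℕ → ℕ) (x y : ℕ → ℤ)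
    (hF : ∀ N, (F N).totalDegree ≤ n) (hs : ∀ N, Pool.Agent.H98.SI.Scope (F N)) (hH : ∀ N, 2 ≤ H N)
    (hc : ∀ N m, |MvPolynomial.coeff m (F N)| ≤ (H N : ℤ))
    (h0 : ∀ N, MvPolynomial.eval ![x N, y N] (F N) = 0)
    (hbig : ∀ N, (H N : ℤ) ^ N < max |x N| |y N|) :
    ∃ c : ℕ, c ≤ n ∧ Transcendental (Q0 H) (cl (fun N => ((x N + c * y N : ℤ) : ℚ))) ∧
      IsIntegral (Algebra.adjoin (Q0 H) {cl (fun N => ((x N + c * y N : ℤ) : ℚ))}) (cl (fun N => (y N : ℚ))) ∧
      (∀ i j, cof ℚ F i j ∈ Q0 H) ∧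
      ∑ i ∈ Finset.range (n + 1), ∑ j ∈ Finset.range (n + 1),
        cof ℚ F i j * cl (fun N => (x N : ℚ)) ^ i * cl (fun N => (y N : ℚ)) ^ j = 0 := by
  classical
  have hcof : ∀ i j, cof ℚ F i j ∈ Q0 H := by
    intro i j
    refine ⟨_, ⟨1, fun N => ?_⟩, rfl⟩
    have h1 := hc N (Finsupp.single 0 i + Finsupp.single 1 j)
    refine ⟨?_, ?_⟩
    · show ((MvPolynomial.coeff (Finsupp.single 0 i + Finsupp.single 1 j) (F N) : ℤ) : ℚ).num.natAbs ≤ _
      rw [Rat.num_intCast, pow_one]
      have h2 : (((MvPolynomial.coeff (Finsupp.single 0 i + Finsupp.single 1 j) (F N)).natAbs : ℕ) : ℤ) =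
        |MvPolynomial.coeff (Finsupp.single 0 i + Finsupp.single 1 j) (F N)| := Int.natCast_natAbs _
      rw [← h2] at h1
      have h3 : (MvPolynomial.coeff (Finsupp.single 0 i + Finsupp.single 1 j) (F N)).natAbs ≤ H N := by
        exact_mod_cast h1
      omega
    · show ((MvPolynomial.coeff (Finsupp.single 0 i + Finsupp.single 1 j) (F N) : ℤ) : ℚ).den ≤ _
      rw [Rat.den_intCast, pow_one]
      omega
  have hsum : ∑ i ∈ Finset.range (n + 1), ∑ j ∈ Finset.range (n + 1),
        cof ℚ F i j * cl (fun N => (x N : ℚ)) ^ i * cl (fun N => (y N : ℚ)) ^ j = 0 := by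
    rw [← eval_ult n F hF (fun N => (x N : ℚ)) (fun N => (y N : ℚ)), cl_zero, cl_eq]
    apply Eventually.of_forall
    intro N
    show MvPolynomial.eval₂ (Int.castRingHom ℚ) ![(x N : ℚ), (y N : ℚ)] (F N) = 0
    have h1 := congrArg (Int.castRingHom ℚ) (h0 N)
    rw [map_zero, MvPolynomial.eval, MvPolynomial.coe_eval₂Hom] at h1
    have h2 := MvPolynomial.hom_eval₂ (F N) (RingHom.id ℤ) (Int.castRingHom ℚ) ![x N, y N]
    have h1' : (Int.castRingHom ℚ) (MvPolynomial.eval₂ (RingHom.id ℤ) ![x N, y N] (F N)) = 0 := h1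
    rw [h2, RingHom.comp_id] at h1'
    rw [← h1']
    congr 1
    funext i
    fin_cases i <;> simp
  have hF0 : ∀ N, F N ≠ 0 := by
    intro N hN
    obtain ⟨a, b, ha, _⟩ := hs N (LaurentPolynomial.T 1) 0 (by rw [hN, MvPolynomial.eval₂_zero])
    have h1 := congrArg (fun p : LaurentPolynomial (AlgebraicClosure ℚ) => p.coeff 1) ha
    have h2 : (LaurentPolynomial.T 1 : LaurentPolynomial (AlgebraicClosure ℚ)).coeff 1 = 1 := by
      show (AddMonoidAlgebra.single (1 : ℤ) (1 : AlgebraicClosure ℚ) : LaurentPolynomial _).coeff 1 = 1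
      rw [AddMonoidAlgebra.coeff_single, Finsupp.single_eq_same]
    have h3 : (LaurentPolynomial.C a : LaurentPolynomial (AlgebraicClosure ℚ)).coeff 1 = 0 := by
      rw [LaurentPolynomial.C_apply]
      exact if_neg one_ne_zero
    have h4 : (LaurentPolynomial.T 1 : LaurentPolynomial (AlgebraicClosure ℚ)).coeff 1 =
      (LaurentPolynomial.C a : LaurentPolynomial (AlgebraicClosure ℚ)).coeff 1 := h1
    rw [h2, h3] at h4
    exact one_ne_zero h4
  have hcz : ∀ i j, n < i + j → cof ℚ F i j = 0 := by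
    intro i j hij
    rw [cof, cl_zero, cl_eq]
    apply Eventually.of_forall
    intro N
    show ((MvPolynomial.coeff (Finsupp.single 0 i + Finsupp.single 1 j) (F N) : ℤ) : ℚ) = 0
    rw [MvPolynomial.coeff_eq_zero_of_totalDegree_lt, Int.cast_zero]
    refine lt_of_le_of_lt (hF N) (lt_of_lt_of_le hij ?_)
    rw [supp_sum]
    simp
  have hne : ∃ i j, cof ℚ F i j ≠ 0 := by
    by_contra hcon
    push Not at hcon
    have h1 : ∀ᶠ N in UU, ∀ p ∈ Finset.range (n + 1) ×ˢ Finset.range (n + 1),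
        MvPolynomial.coeff (Finsupp.single 0 p.1 + Finsupp.single 1 p.2) (F N) = 0 := by
      rw [eventually_all_finset]
      intro p _
      have h2 := hcon p.1 p.2
      rw [cof, cl_zero, cl_eq] at h2
      filter_upwards [h2] with N hN
      exact_mod_cast hN
    obtain ⟨N, hN⟩ := h1.exists
    apply hF0 N
    ext m
    rw [MvPolynomial.coeff_zero]
    have hm : m = Finsupp.single 0 (m 0) + Finsupp.single 1 (m 1) := by
      ext k
      fin_cases k <;> simp
    by_cases hmn : m 0 + m 1 ≤ n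
    · rw [hm]
      exact hN (m 0, m 1) (by
        simp only [Finset.mem_product, Finset.mem_range]
        constructor <;> omega)
    · apply MvPolynomial.coeff_eq_zero_of_totalDegree_lt
      refine lt_of_le_of_lt (hF N) ?_
      rw [supp_sum]
      exact not_le.mp hmn
  obtain ⟨c, hcn, hint⟩ := integral_of_rel (k := Q0 H) n (fun i j => ⟨cof ℚ F i j, hcof i j⟩)
    (cl (fun N => (x N : ℚ))) (cl (fun N => (y N : ℚ)))
    (fun i j hij => Subtype.ext (hcz i j hij))
    (by
      obtain ⟨i, j, hij⟩ := hne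
      exact ⟨i, j, fun h => hij (congrArg Subtype.val h)⟩) hsum
  have hX' : cl (fun N => (x N : ℚ)) + (c : QS) * cl (fun N => (y N : ℚ)) =
      cl (fun N => ((x N + c * y N : ℤ) : ℚ)) := by
    have hcc : (c : QS) = cl (fun _ => (c : ℚ)) := by
      have h1 : ∀ m : ℕ, ((m : QS)) = cl (fun _ => (m : ℚ)) := by
        intro m
        induction m with
        | zero => rw [Nat.cast_zero, cl_zero]; simp
        | succ m ih => rw [Nat.cast_succ, ih, cl_one, cl_add]; simp
      exact h1 c
    rw [hcc, cl_mul, cl_add]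
    congr 1
    funext N
    push_cast
    ring
  rw [hX'] at hint
  refine ⟨c, hcn, ?_, hint, hcof, hsum⟩
  intro halg
  have hX0 : cl (fun N => ((x N + c * y N : ℤ) : ℚ)) ∈ Q0 H := q0_alg H _ halg
  have hYalg : IsAlgebraic (Q0 H) (cl (fun N => (y N : ℚ))) := by
    haveI : Algebra.IsIntegral (Q0 H)
        (Algebra.adjoin (Q0 H) {cl (fun N => ((x N + c * y N : ℤ) : ℚ))}) :=
      Algebra.IsIntegral.adjoin (fun z hz => by
        rw [Set.mem_singleton_iff] at hz
        rw [hz]
        exact halg.isIntegral)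
    exact (isIntegral_trans _ hint).isAlgebraic
  have hY0 : cl (fun N => (y N : ℚ)) ∈ Q0 H := q0_alg H _ hYalg
  have hX1 : cl (fun N => (x N : ℚ)) ∈ Q0 H := by
    have h1 : cl (fun N => (x N : ℚ)) = cl (fun N => ((x N + c * y N : ℤ) : ℚ)) - (c : QS) * cl (fun N => (y N : ℚ)) := by
      rw [← hX']; ring
    rw [h1]
    exact (Q0 H).sub_mem hX0 ((Q0 H).mul_mem (natCast_mem _ _) hY0)
  obtain ⟨C1, hC1⟩ := small_int hX1
  obtain ⟨C2, hC2⟩ := small_int hY0
  have hev : ∀ᶠ N in UU, 2 * (max C1 C2) ≤ N :=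
    Nat.hyperfilter_le_atTop (eventually_ge_atTop _)
  obtain ⟨N, h1, h2, h3⟩ := (hC1.and (hC2.and hev)).exists
  have h4 := hbig N
  have h5 : ((H N + 2 : ℕ) : ℤ) ≤ (H N : ℤ) ^ 2 := by
    have := hH N
    push_cast
    have h6 : (2 : ℤ) ≤ (H N : ℤ) := by exact_mod_cast this
    nlinarith
  have h6 : (1 : ℤ) ≤ ((H N + 2 : ℕ) : ℤ) := by exact_mod_cast (by omega : 1 ≤ H N + 2)
  have h7 : ∀ C : ℕ, C ≤ max C1 C2 → ((H N + 2 : ℕ) : ℤ) ^ C ≤ (H N : ℤ) ^ N := by
    intro C hC
    calc ((H N + 2 : ℕ) : ℤ) ^ C ≤ ((H N + 2 : ℕ) : ℤ) ^ (max C1 C2) := pow_le_pow_right₀ h6 hC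
      _ ≤ ((H N : ℤ) ^ 2) ^ (max C1 C2) := pow_le_pow_left₀ (by omega) h5 _
      _ = (H N : ℤ) ^ (2 * max C1 C2) := by rw [← pow_mul]
      _ ≤ (H N : ℤ) ^ N := pow_le_pow_right₀ (by exact_mod_cast (by have := hH N; omega : 1 ≤ H N)) h3
  have h8 : max |x N| |y N| ≤ (H N : ℤ) ^ N :=
    max_le (h1.trans (h7 C1 (le_max_left _ _))) (h2.trans (h7 C2 (le_max_right _ _)))
  exact absurd h4 (not_lt.mpr h8)

end Pool.Agent.H82.NS
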